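import Pool.Agent.Work.MP_82fd4a_nt.Z.TIIa

/-! Bilinear forms in intervals shorter than the square root. -/

set_option autoImplicit false
open Filter Topology Finset

namespace Pool.Agent.Work.MP_82fd4a_nt.Z

open Pool.Agent.Lib.MR Pool.Agent.Work.MP_51e72e_nt

lemma t2_tel (f : ℕ → ℝ) {a b : ℕ} (h : a ≤ b) :
    ∑ n ∈ Ioc a b, (f n - f (n + 1)) = f (a + 1) - f (b + 1) := by
  induction b, h using Nat.le_induction with
  | base => simp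
  | succ b h ih => rw [sum_Ioc_succ_top h, ih]; ring

lemma t2_shift {w : ℕ → ℝ} {C : ℝ} (hw : ∀ n, |w n| ≤ C) {a b : ℕ} (h : a ≤ b) (i : ℕ) :
    |∑ n ∈ Ioc a b, (w n - w (n + i))| ≤ 2 * i * C := by
  induction i with
  | zero => simp
  | succ i ih =>
    have e : ∑ n ∈ Ioc a b, (w n - w (n + (i + 1))) = ∑ n ∈ Ioc a b, (w n - w (n + i)) +
        (w (a + 1 + i) - w (b + 1 + i)) := by
      rw [← t2_tel (fun n => w (n + i)) h, ← sum_add_distrib]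
      refine sum_congr rfl fun n _ => ?_
      rw [show n + (i + 1) = n + 1 + i by ring]
      ring
    rw [e]
    have h1 := abs_add_le (∑ n ∈ Ioc a b, (w n - w (n + i))) (w (a + 1 + i) - w (b + 1 + i))
    have h2 := abs_sub (w (a + 1 + i)) (w (b + 1 + i))
    have h3 := hw (a + 1 + i)
    have h4 := hw (b + 1 + i)
    push_cast
    linarith

lemma t2_avg (x : ℕ) {T : ℝ} (hT : 0 ≤ T) {q : ℕ} (hq : 0 < q) {w : ℕ → ℝ} {C : ℝ}
    (hw : ∀ n, |w n| ≤ C) {l : ℕ} (hl : 1 ≤ l) :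
    |∑ a ∈ Icc 1 (2 * x), w a * gk x T (q * a)| ≤
      (∑ a ∈ Icc 1 (2 * x), |∑ i ∈ range l, w (a + i)| * gk x T (q * a)) / l + 4 * l * C := by
  have hC : 0 ≤ C := (abs_nonneg _).trans (hw 0)
  have l0 : (0 : ℝ) < l := by exact_mod_cast hl
  set e : ℕ → ℝ := fun a => ∑ i ∈ range l, (w a - w (a + i)) with he
  have h1 : ∀ a b : ℕ, a ≤ b → |∑ n ∈ Ioc a b, e n| ≤ 2 * l ^ 2 * C := fun a b h => by
    rw [he]
    beta_reduce
    rw [sum_comm]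
    refine (abs_sum_le_sum_abs _ _).trans ((sum_le_card_nsmul _ _ (2 * l * C) fun i hi =>
      (t2_shift hw h i).trans ?_).trans (le_of_eq ?_))
    · have : (i : ℝ) ≤ l := by exact_mod_cast (mem_range.1 hi).le
      gcongr
    · rw [card_range, nsmul_eq_mul]; ring
  have h2 := abel_gk x hT hq e (E := 2 * l ^ 2 * C) (by positivity)
    fun a b h _ => (le_abs_self _).trans (h1 a b h)
  have h3 := abel_gk x hT hq (fun n => -e n) (E := 2 * l ^ 2 * C) (by positivity)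
    fun a b h _ => by rw [sum_neg_distrib]; exact (neg_le_abs _).trans (h1 a b h)
  simp only [neg_mul, sum_neg_distrib] at h3
  have h4 : l * ∑ a ∈ Icc 1 (2 * x), w a * gk x T (q * a) =
      ∑ a ∈ Icc 1 (2 * x), (∑ i ∈ range l, w (a + i)) * gk x T (q * a) +
        ∑ a ∈ Icc 1 (2 * x), e a * gk x T (q * a) := by
    rw [mul_sum, ← sum_add_distrib]
    refine sum_congr rfl fun a _ => ?_
    rw [he]
    beta_reduce
    rw [sum_sub_distrib, sum_const, card_range, nsmul_eq_mul]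
    ring
  have h5 : |∑ a ∈ Icc 1 (2 * x), (∑ i ∈ range l, w (a + i)) * gk x T (q * a)| ≤
      ∑ a ∈ Icc 1 (2 * x), |∑ i ∈ range l, w (a + i)| * gk x T (q * a) := by
    refine (abs_sum_le_sum_abs _ _).trans (le_of_eq (sum_congr rfl fun a _ => ?_))
    rw [abs_mul, abs_of_nonneg (gk_nonneg _ _ _)]
  have h6 : l * |∑ a ∈ Icc 1 (2 * x), w a * gk x T (q * a)| ≤
      ∑ a ∈ Icc 1 (2 * x), |∑ i ∈ range l, w (a + i)| * gk x T (q * a) + 4 * l ^ 2 * C := by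
    rw [← abs_of_pos l0, ← abs_mul, abs_of_pos l0, h4]
    refine (abs_add_le _ _).trans (add_le_add h5 (abs_le.2 ⟨by linarith, by linarith⟩))
  rw [div_add' _ _ _ l0.ne', le_div_iff₀ l0]
  linarith

lemma t2_harm {Y : ℕ} (f : ℕ → ℝ) {C : ℝ} (hC : 0 ≤ C) (hf : ∀ b ∈ Ioc Y (2 * Y), f b ≤ C / b) :
    ∑ b ∈ Ioc Y (2 * Y), f b ≤ C := by
  rcases Nat.eq_zero_or_pos Y with rfl | hY
  · simpa using hC
  have Y0 : (0 : ℝ) < Y := by exact_mod_cast hY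
  refine (sum_le_card_nsmul _ _ (C / Y) fun b hb => (hf b hb).trans ?_).trans (le_of_eq ?_)
  · have : (Y : ℝ) ≤ b := by exact_mod_cast (mem_Ioc.1 hb).1.le
    gcongr
  · rw [Nat.card_Ioc, show 2 * Y - Y = Y by omega, nsmul_eq_mul]
    field_simp

lemma t2_det {x Y : ℕ} {T : ℝ} (hT : 2 ≤ T) (hTx : T ≤ x) (hY : 1 ≤ Y) (hN : 8 ≤ x / (4 * Y))
    {w : ℕ → ℝ} {C : ℝ} (hw : ∀ n, |w n| ≤ C) {l : ℕ} (hl : 1 ≤ l) {κ : ℝ} (hκ : 0 < κ)
    (h : ∀ R : ℕ, 1 ≤ R → (R : ℝ) ≤ 1 + T * (x / (4 * Y) : ℕ) / x →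
      ∑ u ∈ Ioc (x / (4 * Y)) (9 * (x / (4 * Y))),
        (∑ i ∈ range l, w (u + i)) ^ 2 * (‖gs R (x / u)‖ ^ 2 / R)
        ≤ 10 * l * C ^ 2 * (x / (4 * Y) : ℕ)) :
    ∑ b ∈ Ioc Y (2 * Y), |∑ a ∈ Icc 1 (2 * x), w a * gk x T (b * a)| ≤
      κ / 2 * (Gam x T + 2 * Y) + 52000 * C ^ 2 * Gam x T / (κ * l) + 4 * l * C * Y := by
  set N := x / (4 * Y) with hNd
  have l0 : (0 : ℝ) < l := by exact_mod_cast hl
  have N0 : (0 : ℝ) < N := by exact_mod_cast (by omega : 0 < N)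
  have n1 : 4 * Y * N ≤ x := Nat.mul_div_le x (4 * Y)
  have n2 : x < 4 * Y * (N + 1) := Nat.lt_mul_div_succ x (by omega)
  have hG := Gam_ge (x := x) (by linarith : 1 ≤ T) hTx
  have hG0 : 0 ≤ Gam x T := le_trans (by positivity) hG
  obtain ⟨R, r1, r2, r3⟩ := major hT hTx (N := N) (by omega)
  set W : ℕ → ℝ := fun a => ∑ i ∈ range l, w (a + i) with hW
  have s1 : ∑ b ∈ Ioc Y (2 * Y), ∑ a ∈ Icc 1 (2 * x), gk x T (b * a) ≤ Gam x T + 2 * Y := by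
    have a1 : ∀ b ∈ Ioc Y (2 * Y), ∑ a ∈ Icc 1 (2 * x), gk x T (b * a) ≤ Gam x T / b + 2 :=
      fun b hb => by
        have := (abs_le.1 (sum_gk_mul x (by linarith : 0 ≤ T) (q := b)
          (by have := (mem_Ioc.1 hb).1; omega))).2
        linarith
    refine (sum_le_sum a1).trans ?_
    rw [sum_add_distrib, sum_const, Nat.card_Ioc, show 2 * Y - Y = Y by omega, nsmul_eq_mul]
    have := t2_harm (Y := Y) (fun b => Gam x T / b) hG0 fun _ _ => le_rfl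
    linarith
  have s2 : ∑ b ∈ Ioc Y (2 * Y), ∑ a ∈ Icc 1 (2 * x), W a ^ 2 * gk x T (b * a) ≤
      104000 * l * C ^ 2 * Gam x T := by
    rw [sum_comm]
    simp only [← mul_sum]
    have a1 : ∑ a ∈ Icc 1 (2 * x), W a ^ 2 * ∑ b ∈ Ioc Y (2 * Y), gk x T (b * a) ≤
        ∑ a ∈ Ioc N (9 * N), W a ^ 2 * ∑ b ∈ Ioc Y (2 * Y), gk x T (b * a) := by
      rw [← sum_filter_ne_zero]
      refine sum_le_sum_of_subset_of_nonneg (fun a ha => ?_) fun a _ _ =>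
        mul_nonneg (sq_nonneg _) (sum_nonneg fun _ _ => gk_nonneg _ _ _)
      obtain ⟨b, hb, h0⟩ := exists_ne_zero_of_sum_ne_zero (right_ne_zero_of_mul (mem_filter.1 ha).2)
      obtain ⟨b1, b2⟩ := mem_Ioc.1 hb
      obtain ⟨g1, g2⟩ := gk_ne_zero h0
      refine mem_Ioc.2 ⟨?_, ?_⟩
      · by_contra h3
        have := Nat.mul_le_mul b2 (not_lt.1 h3)
        nlinarith
      · by_contra h3
        have := Nat.mul_le_mul b1.le (not_le.1 h3).le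
        nlinarith
    refine a1.trans ?_
    have a2 : ∀ a ∈ Ioc N (9 * N), W a ^ 2 * ∑ b ∈ Ioc Y (2 * Y), gk x T (b * a) ≤
        1300 * (x / (T * N)) * (W a ^ 2 * (‖gs R (x / a)‖ ^ 2 / R)) := fun a ha => by
      have a3 : ∑ b ∈ Ioc Y (2 * Y), gk x T (b * a) ≤ ∑ b ∈ Icc 1 (2 * x), gk x T (a * b) := by
        simp only [mul_comm a]
        refine sum_le_sum_of_subset_of_nonneg (fun b hb => ?_) fun _ _ _ => gk_nonneg _ _ _
        obtain ⟨b1, b2⟩ := mem_Ioc.1 hb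
        exact mem_Icc.2 ⟨by omega, by nlinarith⟩
      calc _ ≤ W a ^ 2 * (1300 * (x / (T * N)) * (‖gs R (x / a)‖ ^ 2 / R)) :=
            mul_le_mul_of_nonneg_left (a3.trans (r3 a (mem_Ioc.1 ha).1)) (sq_nonneg _)
        _ = _ := by ring
    refine (sum_le_sum a2).trans ?_
    rw [← mul_sum]
    calc _ ≤ 1300 * (x / (T * N)) * (10 * l * C ^ 2 * N) :=
          mul_le_mul_of_nonneg_left (h R r1 r2) (by positivity)
      _ = 104000 * l * C ^ 2 * (x / (8 * T)) := by field_simp; ring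
      _ ≤ _ := by gcongr
  have s3 : ∀ b ∈ Ioc Y (2 * Y), |∑ a ∈ Icc 1 (2 * x), w a * gk x T (b * a)| ≤
      κ / 2 * ∑ a ∈ Icc 1 (2 * x), gk x T (b * a) +
        1 / (2 * κ * l ^ 2) * ∑ a ∈ Icc 1 (2 * x), W a ^ 2 * gk x T (b * a) + 4 * l * C :=
    fun b hb => by
      refine (t2_avg x (by linarith : 0 ≤ T) (by have := (mem_Ioc.1 hb).1; omega) hw hl).trans ?_
      refine add_le_add_left ?_ _
      rw [sum_div, mul_sum, mul_sum, ← sum_add_distrib]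
      refine sum_le_sum fun a _ => ?_
      have a1 : |W a| / l ≤ κ / 2 + 1 / (2 * κ * l ^ 2) * W a ^ 2 := by
        have a2 : κ / 2 + 1 / (2 * κ * l ^ 2) * W a ^ 2 - |W a| / l =
            (κ * l - |W a|) ^ 2 / (2 * κ * l ^ 2) := by
          rw [← sq_abs (W a)]
          field_simp
          ring
        have : 0 ≤ (κ * l - |W a|) ^ 2 / (2 * κ * l ^ 2) := by positivity
        linarith
      calc _ = |W a| / l * gk x T (b * a) := by rw [hW]; ring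
        _ ≤ (κ / 2 + 1 / (2 * κ * l ^ 2) * W a ^ 2) * gk x T (b * a) :=
            mul_le_mul_of_nonneg_right a1 (gk_nonneg _ _ _)
        _ = _ := by ring
  refine (sum_le_sum s3).trans ?_
  rw [sum_add_distrib, sum_add_distrib, ← mul_sum, ← mul_sum, sum_const, Nat.card_Ioc,
    show 2 * Y - Y = Y by omega, nsmul_eq_mul]
  have s4 : 1 / (2 * κ * l ^ 2) * (104000 * l * C ^ 2 * Gam x T) =
      52000 * C ^ 2 * Gam x T / (κ * l) := by field_simp; ring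
  have s5 := mul_le_mul_of_nonneg_left s1 (half_pos hκ).le
  have s6 := mul_le_mul_of_nonneg_left s2 (by positivity : 0 ≤ 1 / (2 * κ * (l : ℝ) ^ 2))
  linarith

lemma t2_win {D : ℝ} (hD : 1 ≤ D) {x Y : ℕ} (h : Win D x Y) (hx : 8 ≤ √(x : ℝ)) :
    √(x : ℝ) / 8 ≤ (x / (4 * Y) : ℕ) ∧ ((x / (4 * Y) : ℕ) : ℝ) ≤ D * √(x : ℝ) / 2 := by
  have hxx : √(x : ℝ) * √(x : ℝ) = x := Real.mul_self_sqrt (Nat.cast_nonneg x)
  have hY : 0 < Y := by
    rcases Nat.eq_zero_or_pos Y with rfl | h0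
    · have h1 := h.1
      rw [Nat.cast_zero, mul_zero] at h1
      linarith
    · exact h0
  have Y0 : (0 : ℝ) < Y := by exact_mod_cast hY
  have Y1 : (Y : ℝ) ≤ √(x : ℝ) := (le_mul_of_one_le_left (Nat.cast_nonneg Y) hD).trans h.2
  set N := x / (4 * Y)
  have n1 : (4 * Y * N : ℝ) ≤ x := by exact_mod_cast Nat.mul_div_le x (4 * Y)
  have n2 : (x : ℝ) < 4 * Y * (N + 1) := by exact_mod_cast Nat.lt_mul_div_succ x (by omega)
  have N0 : (0 : ℝ) ≤ N := Nat.cast_nonneg N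
  constructor
  · have : √(x : ℝ) * √(x : ℝ) < √(x : ℝ) * (4 * (N + 1)) := by nlinarith
    have := lt_of_mul_lt_mul_left this (by linarith)
    linarith
  · have h1 := h.1
    have : √(x : ℝ) * (2 * N) ≤ √(x : ℝ) * (D * √(x : ℝ)) := by
      calc √(x : ℝ) * (2 * N) ≤ 2 * D * Y * (2 * N) := by gcongr
        _ = D * (4 * Y * N) := by ring
        _ ≤ D * x := by gcongr
        _ = _ := by rw [mul_left_comm, hxx]
    have := le_of_mul_le_mul_left this (by linarith)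
    linarith

lemma t2_split {x Y N : ℕ} {T : ℝ} (hT : 0 ≤ T) (n2 : x < 4 * Y * (N + 1)) (N8 : 8 ≤ N)
    (hYx : Y ≤ x) {B A w : ℕ → ℝ} {d E : ℝ} (hB : ∀ n ≤ 2 * x, |B n| ≤ E) (hd : |d| ≤ E)
    (hw : ∀ a ≤ 16 * N, w a = A a - d) :
    |BilY x Y T B A - Gam x T * (d * ∑ b ∈ Ioc Y (2 * Y), B b / b)| ≤
      E * (∑ b ∈ Ioc Y (2 * Y), |∑ a ∈ Icc 1 (2 * x), w a * gk x T (b * a)| + E * 2 * Y) := by
  have hE : 0 ≤ E := (abs_nonneg _).trans hd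
  have e1 : BilY x Y T B A - Gam x T * (d * ∑ b ∈ Ioc Y (2 * Y), B b / b) =
      ∑ b ∈ Ioc Y (2 * Y), B b * (∑ a ∈ Icc 1 (2 * x), w a * gk x T (b * a) +
        d * (∑ a ∈ Icc 1 (2 * x), gk x T (b * a) - Gam x T / b)) := by
    rw [BilY, mul_sum, mul_sum, ← sum_sub_distrib]
    refine sum_congr rfl fun b hb => ?_
    have e2 : ∑ a ∈ Icc 1 (2 * x), B b * A a * gk x T (b * a) =
        B b * (∑ a ∈ Icc 1 (2 * x), w a * gk x T (b * a) +
          d * ∑ a ∈ Icc 1 (2 * x), gk x T (b * a)) := by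
      rw [mul_sum, ← sum_add_distrib, mul_sum]
      refine sum_congr rfl fun a _ => ?_
      by_cases h0 : gk x T (b * a) = 0
      · rw [h0]; ring
      have g2 := (gk_ne_zero h0).2
      have b1 := (mem_Ioc.1 hb).1
      have a1 : a ≤ 16 * N := by
        by_contra h3
        have := Nat.mul_le_mul b1.le (not_le.1 h3).le
        nlinarith
      rw [hw a a1]
      ring
    rw [e2]
    ring
  have e3 : E * 2 * (Y : ℝ) = ∑ b ∈ Ioc Y (2 * Y), E * 2 := by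
    rw [sum_const, Nat.card_Ioc, show 2 * Y - Y = Y by omega, nsmul_eq_mul, mul_comm]
  rw [e1, e3, ← sum_add_distrib, mul_sum]
  refine (abs_sum_le_sum_abs _ _).trans (sum_le_sum fun b hb => ?_)
  obtain ⟨b1, b2⟩ := mem_Ioc.1 hb
  have b3 : |B b| ≤ E := hB b (by omega)
  have b4 := sum_gk_mul x hT (q := b) (by omega)
  rw [abs_mul]
  refine mul_le_mul b3 ((abs_add_le _ _).trans (add_le_add_right ?_ _)) (abs_nonneg _) hE
  rw [abs_mul]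
  exact mul_le_mul hd b4 (abs_nonneg _) hE

lemma t2_key {x Y l : ℕ} {T H D E κ d : ℝ} (hH : 1 ≤ H) (hE : 1 ≤ E) (hκ : 0 < κ) (l1 : 1 ≤ l)
    (l2 : 52000 * E ^ 2 / κ ^ 2 ≤ l) (D1 : 16 * H ≤ D) (D2 : 24 * H * l * E / κ ≤ D)
    (hY : Win D x Y) (x1 : 8 ≤ √(x : ℝ)) (x3 : H * √(x : ℝ) ≤ x) (N8 : 8 ≤ x / (4 * Y))
    (t1 : 2 ≤ T) (t3 : T ≤ H * √(x : ℝ)) {B A w : ℕ → ℝ} (hB : ∀ n ≤ 2 * x, |B n| ≤ E)
    (hd : |d| ≤ E) (hw : ∀ a ≤ 16 * (x / (4 * Y)), w a = A a - d) (v1 : ∀ n, |w n| ≤ E)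
    (h : ∀ R : ℕ, 1 ≤ R → (R : ℝ) ≤ 1 + H * D →
      ∑ u ∈ Ioc (x / (4 * Y)) (9 * (x / (4 * Y))),
        (∑ i ∈ range l, w (u + i)) ^ 2 * (‖gs R (x / u)‖ ^ 2 / R)
        ≤ 10 * l * E ^ 2 * (x / (4 * Y) : ℕ)) :
    |BilY x Y T B A / Gam x T - d * ∑ b ∈ Ioc Y (2 * Y), B b / b| ≤ 4 * E * κ := by
  have hxx : √(x : ℝ) * √(x : ℝ) = x := Real.mul_self_sqrt (Nat.cast_nonneg x)
  have hD1 : 1 ≤ D := by linarith
  obtain ⟨-, w2⟩ := t2_win hD1 hY x1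
  have l0 : (1 : ℝ) ≤ l := by exact_mod_cast l1
  have x0 : (0 : ℝ) < x := by nlinarith
  have Y1 : 1 ≤ Y := by
    rcases Nat.eq_zero_or_pos Y with rfl | h0
    · simp at N8
    · exact h0
  have n1 : 4 * Y * (x / (4 * Y)) ≤ x := Nat.mul_div_le x (4 * Y)
  have n2 : x < 4 * Y * (x / (4 * Y) + 1) := Nat.lt_mul_div_succ x (by omega)
  have hG := Gam_ge (x := x) (by linarith : 1 ≤ T) (t3.trans x3)
  have hG0 : 0 < Gam x T := lt_of_lt_of_le (by positivity) hG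
  have y1 : D * Y ≤ 8 * H * Gam x T := by
    rw [div_le_iff₀ (by positivity)] at hG
    refine hY.2.trans (le_of_mul_le_mul_left ?_ (show 0 < √(x : ℝ) by linarith))
    calc √(x : ℝ) * √(x : ℝ) ≤ Gam x T * (8 * T) := by rw [hxx]; exact hG
      _ ≤ Gam x T * (8 * (H * √(x : ℝ))) := by gcongr
      _ = _ := by ring
  have Y0 : (0 : ℝ) ≤ Y := Nat.cast_nonneg Y
  have y2 : 2 * (Y : ℝ) ≤ Gam x T := by
    refine le_of_mul_le_mul_left ?_ (show 0 < 8 * H by linarith)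
    have : 16 * H * Y ≤ D * Y := by gcongr
    linarith
  have y3 : 3 * l * E * Y ≤ κ * Gam x T := by
    refine le_of_mul_le_mul_left ?_ (show 0 < 8 * H / κ by positivity)
    have : 24 * H * l * E / κ * Y ≤ D * Y := by gcongr
    calc _ = 24 * H * l * E / κ * Y := by ring
      _ ≤ 8 * H * Gam x T := this.trans y1
      _ = _ := by field_simp
  have k1 := t2_det t1 (t3.trans x3) Y1 N8 v1 l1 hκ fun R r1 r2 => by
    refine h R r1 (r2.trans (add_le_add_right ?_ _))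
    rw [div_le_iff₀ x0]
    calc T * (x / (4 * Y) : ℕ) ≤ H * √(x : ℝ) * (D * √(x : ℝ) / 2) := by gcongr
      _ = H * D * (√(x : ℝ) * √(x : ℝ)) / 2 := by ring
      _ ≤ _ := by
        rw [hxx]
        have : 0 ≤ H * D * x := by positivity
        linarith
  have k2 : 52000 * E ^ 2 * Gam x T / (κ * l) ≤ κ * Gam x T := by
    rw [div_le_iff₀ (by positivity)] at l2 ⊢
    calc _ ≤ l * κ ^ 2 * Gam x T := by gcongr
      _ = _ := by ring
  have k3 := t2_split (T := T) (by linarith) n2 N8 (by nlinarith) hB hd hw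
  have k4 : E * 2 * Y ≤ 2 * l * E * Y := by
    have : E * Y ≤ l * (E * Y) := le_mul_of_one_le_left (by positivity) l0
    linarith
  have k5 : κ / 2 * (Gam x T + 2 * Y) ≤ κ * Gam x T := by
    calc _ ≤ κ / 2 * (Gam x T + Gam x T) := by gcongr
      _ = _ := by ring
  have e4 : BilY x Y T B A / Gam x T - d * ∑ b ∈ Ioc Y (2 * Y), B b / b =
      (BilY x Y T B A - Gam x T * (d * ∑ b ∈ Ioc Y (2 * Y), B b / b)) / Gam x T := by
    field_simp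
  rw [e4, abs_div, abs_of_pos hG0, div_le_iff₀ hG0]
  refine k3.trans ?_
  calc _ ≤ E * (4 * (κ * Gam x T)) := mul_le_mul_of_nonneg_left (by linarith) (by linarith)
    _ = _ := by ring

theorem typeIIY (C H : ℝ) {ε : ℝ} (hε : 0 < ε) : ∃ D : ℝ, 1 ≤ D ∧ ∀ η : ℝ, 0 < η →
    ∀ᶠ x : ℕ in atTop, ∀ Y : ℕ, Win D x Y → ∀ B A : ℕ → ℝ,
    (∀ n ≤ 2 * x, |B n| ≤ C) → (∀ n ≤ 2 * x, |A n| ≤ C) →
    (∀ p : ℕ, p.Prime → (p : ℝ) ≤ (x : ℝ) ^ η → ∀ n, A (p * n) = A n) →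
    ∀ T T' : ℝ, 2 ≤ T → T ≤ H * √(x : ℝ) → 2 ≤ T' → T' ≤ H * √(x : ℝ) →
    |BilY x Y T B A / Gam x T - BilY x Y T' B A / Gam x T'| ≤ ε := by
  obtain ⟨C₀, hC0, hCC⟩ : ∃ C₀ : ℝ, 1 ≤ C₀ ∧ C ≤ C₀ := ⟨_, le_max_left _ _, le_max_right _ _⟩
  obtain ⟨H₁, hH1, hHH⟩ : ∃ H₁ : ℝ, 1 ≤ H₁ ∧ H ≤ H₁ := ⟨_, le_max_left _ _, le_max_right _ _⟩
  obtain ⟨E, hE⟩ : ∃ E : ℝ, E = 2 * C₀ + 1 := ⟨_, rfl⟩
  have hE1 : 1 ≤ E := by linarith
  obtain ⟨κ, hκ0, hκ⟩ : ∃ κ : ℝ, 0 < κ ∧ 4 * E * κ = ε / 2 :=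
    ⟨ε / (8 * E), by positivity, by field_simp; ring⟩
  obtain ⟨l, l1, l2⟩ : ∃ l : ℕ, 1 ≤ l ∧ 52000 * E ^ 2 / κ ^ 2 ≤ l :=
    ⟨_, Nat.ceil_pos.2 (by positivity), Nat.le_ceil _⟩
  obtain ⟨D, D1, D2⟩ : ∃ D : ℝ, 16 * H₁ ≤ D ∧ 24 * H₁ * l * E / κ ≤ D :=
    ⟨_, le_max_left _ _, le_max_right _ _⟩
  have hD1 : 1 ≤ D := by linarith
  refine ⟨D, hD1, fun η hη => ?_⟩
  obtain ⟨B₁, -, hrep⟩ := t2_rep hη (C := C₀) (by linarith)
  obtain ⟨N₀, hN₀⟩ := eventually_atTop.1 (hrep.and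
    ((t2_sq hη B₁ l1 (a := 1 / D ^ 2) (Rm := 1 + H₁ * D) (C := E) (by positivity) hE1).and
      (eventually_ge_atTop 8)))
  have hs : Tendsto (fun x : ℕ => √(x : ℝ)) atTop atTop :=
    Real.tendsto_sqrt_atTop.comp tendsto_natCast_atTop_atTop
  filter_upwards [hs.eventually_ge_atTop 8, hs.eventually_ge_atTop (8 * N₀), ev_le_self H₁,
    hs.eventually_ge_atTop (4 * D)] with x x1 x2 x3 x4 Y hY B A hB hA hinv
  have hxx : √(x : ℝ) * √(x : ℝ) = x := Real.mul_self_sqrt (Nat.cast_nonneg x)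
  obtain ⟨w1, w2⟩ := t2_win hD1 hY x1
  have hNN : N₀ ≤ x / (4 * Y) := by
    have : (N₀ : ℝ) ≤ (x / (4 * Y) : ℕ) := by linarith
    exact_mod_cast this
  obtain ⟨hrep, hsq, N8⟩ := hN₀ _ hNN
  have hY2 : 2 ≤ Y := by
    have h1 : 2 * D * 2 ≤ 2 * D * Y := by linarith [hY.1]
    exact_mod_cast le_of_mul_le_mul_left h1 (by linarith)
  have n1 : 4 * Y * (x / (4 * Y)) ≤ x := Nat.mul_div_le x (4 * Y)
  have n3 : 16 * (x / (4 * Y)) ≤ 2 * x := by nlinarith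
  have hp : ((x / (4 * Y) : ℕ) : ℝ) ^ η ≤ (x : ℝ) ^ η :=
    Real.rpow_le_rpow (Nat.cast_nonneg _) (by exact_mod_cast Nat.div_le_self _ _) hη.le
  obtain ⟨d, φ, d1, p1, p2, p3⟩ := hrep A (fun n hn => (hA n (hn.trans n3)).trans hCC)
    fun p h1 h2 => hinv p h1 (h2.trans hp)
  obtain ⟨w, v0, v1⟩ : ∃ w : ℕ → ℝ, (∀ a ≤ 16 * (x / (4 * Y)), w a = A a - d) ∧
      ∀ n, |w n| ≤ E := by
    refine ⟨fun n => if n ≤ 16 * (x / (4 * Y)) then A n - d else 0, fun a h => if_pos h,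
      fun n => ?_⟩
    beta_reduce
    split_ifs with h
    · have := abs_sub (A n) d
      have := hA n (h.trans n3)
      linarith
    · rw [abs_zero]; linarith
  have hR := hsq φ p1 p2 w v1 (fun n hn => by rw [← p3 n hn, v0 n (mem_Icc.1 hn).2]) x
    (by
      rw [one_div, inv_mul_le_iff₀ (by positivity)]
      calc ((x / (4 * Y) : ℕ) : ℝ) ^ 2 ≤ (D * √(x : ℝ) / 2) ^ 2 := by gcongr
        _ = D ^ 2 * (√(x : ℝ) * √(x : ℝ)) / 4 := by ring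
        _ ≤ _ := by
          rw [hxx]
          have : 0 ≤ D ^ 2 * x := by positivity
          linarith)
    (by
      calc (x : ℝ) = 64 * (√(x : ℝ) / 8) ^ 2 := by rw [div_pow, sq, hxx]; ring
        _ ≤ _ := by gcongr)
  have key : ∀ T : ℝ, 2 ≤ T → T ≤ H * √(x : ℝ) →
      |BilY x Y T B A / Gam x T - d * ∑ b ∈ Ioc Y (2 * Y), B b / b| ≤ 4 * E * κ :=
    fun T t1 t2 => t2_key hH1 hE1 hκ0 l1 l2 D1 D2 hY x1 x3 N8 t1
      (t2.trans (mul_le_mul_of_nonneg_right hHH (Real.sqrt_nonneg _)))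
      (fun n hn => (hB n hn).trans (by linarith)) (by linarith) v0 v1 hR
  intro T T' h1 h2 h3 h4
  have k1 := key T h1 h2
  have k2 := key T' h3 h4
  rw [abs_le] at k1 k2 ⊢
  constructor <;> linarith [k1.1, k1.2, k2.1, k2.2]

end Pool.Agent.Work.MP_82fd4a_nt.Z
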