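import Pool.Agent.Work.MP_82fd4a_nt.Z.Defs

/-! Twisted divisor sums of rough weights have small Dirichlet polynomials on sparse sets. -/

set_option autoImplicit false
open Filter Topology Finset MeasureTheory

namespace Pool.Agent.Work.MP_82fd4a_nt.Z

open Pool.Agent.Lib.MR Pool.Agent.Work.MP_51e72e_nt

lemma exc_DP (S : Finset ℕ) (a : ℕ → ℂ) (t u : ℝ) :
    DP S (fun m => a m * nit m t) u = DP S a (u + t) := by
  unfold DP
  refine sum_congr rfl fun n _ => ?_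
  rw [nit_add]
  ring

lemma exc_pow {x u t : ℝ} (hx : 2 ≤ x) (hu : |u| ≤ x ^ 5) (ht : |t| ≤ x ^ 6) :
    |u + t| ≤ x ^ 7 := by
  have h1 : x ^ 5 ≤ x ^ 6 := pow_le_pow_right₀ (by linarith) (by norm_num)
  have h2 : 2 * x ^ 6 ≤ x ^ 7 := by
    rw [pow_succ' x 6]
    gcongr
  linarith [abs_add_le u t]

theorem exc_tw {η : ℝ} (hη : 0 < η) (hη' : η ≤ 1 / 10) (q : ℕ) [NeZero q]
    (χ : DirichletCharacter ℂ q) {ε : ℝ} (hε : 0 < ε) : ∃ β : ℝ, 0 < β ∧ ∀ k : ℕ,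
    ∀ᶠ X : ℕ in atTop, ∀ N : ℕ, N ≤ k * X → X ≤ k * N → ∀ φ : ℕ → ℝ, (∀ j, |φ j| ≤ 1) →
      (∀ j, φ j ≠ 0 → L2.Rough ((X : ℝ) ^ η) j) → ∀ t : ℝ, |t| ≤ (X : ℝ) ^ 6 →
      ∀ T : ℝ, 0 < T → T ≤ X → ∀ U : Set ℝ, MeasurableSet U → (cm T).real U ≤ (X : ℝ) ^ β →
        MS T U (DP (Icc 1 X) fun m =>
          (((∑ j ∈ m.divisors, φ j) - ∑ j ∈ Icc 1 N, φ j / j : ℝ) : ℂ) * χ m * nit m t)
          ≤ ε * (X : ℝ) ^ 2 := by
  classical
  have hq := NeZero.pos q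
  set R := Real.exp (Real.log 2 / η) with hR
  have hR0 : 0 < R := Real.exp_pos _
  set ρ := min (1 / 10) (ε / (96 * (R + 1))) with hρ
  have hρ0 : 0 < ρ := by positivity
  have hρ1 : ρ ≤ 1 / 10 := min_le_left _ _
  have hρ2 : ρ * (96 * (R + 1)) ≤ ε := (le_div_iff₀ (by positivity)).1 (min_le_right _ _)
  set θ := ρ * η / 4 with hθ
  have hθ0 : 0 < θ := by positivity
  have hθ1 : θ ≤ 1 / 10 := by nlinarith
  obtain ⟨c, hc, -, C, hC, H⟩ := L2.char_sum ⌈7 / θ⌉₊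
  refine ⟨θ * c, by positivity, fun k => ?_⟩
  have hl : Tendsto (fun X : ℕ => Real.log X) atTop atTop :=
    Real.tendsto_log_atTop.comp tendsto_natCast_atTop_atTop
  filter_upwards [eventually_ge_atTop 2, hl.eventually_ge_atTop 1, L2.ev_log k hθ0, L2.ev_log q hη,
    L2.ev_log (8 * (12 * q * C) ^ 2 / ε) (mul_pos hθ0 hc), L2.rough_range hη hη' hθ0 hθ1 k,
    eventually_ge_atTop k, (tendsto_natCast_atTop_atTop (R := ℝ)).eventually_ge_atTop
      (8 * (k + 1) ^ 2 / ε)] with X h2 hL hb hcq hf hM hkX hg N hN1 hN2 φ hφ hr t ht T hT hTX U hU hUβ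
  obtain ⟨M, hM1, hM2⟩ := hM
  have hX : (1 : ℝ) < X := by exact_mod_cast h2
  have hX0 : (0 : ℝ) < X := by linarith
  set L := Real.log X with hLdef
  have hL2 : 1 ≤ L ^ 2 := one_le_pow₀ hL
  have hk : 0 < k := Nat.pos_of_ne_zero (by rintro rfl; omega)
  have hN0 : 0 < N := Nat.pos_of_ne_zero (by rintro rfl; omega)
  set A := ⌊(X : ℝ) ^ (1 - θ)⌋₊ with hA
  have hA0 : 0 < A := Nat.floor_pos.2 (Real.one_le_rpow hX.le (by linarith))
  have hAB : A * (X : ℝ) ^ θ ≤ X := by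
    calc A * (X : ℝ) ^ θ ≤ X ^ (1 - θ) * X ^ θ := by gcongr; exact Nat.floor_le (by positivity)
      _ = X := by rw [← Real.rpow_add hX0]; simp
  have hAN : A ≤ N := by
    have a1 : (k : ℝ) ≤ X ^ θ := le_trans (le_mul_of_one_le_right (by positivity) hL2) hb
    have a2 : (k : ℝ) * A ≤ X := by nlinarith [Nat.cast_nonneg (α := ℝ) A]
    have a3 : k * A ≤ X := by exact_mod_cast a2
    exact Nat.le_of_mul_le_mul_left (a3.trans hN2) hk
  have hχ : ∀ a, ‖χ a‖ ≤ 1 := fun a => χ.norm_le_one a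
  set s : ℂ := (∑ a ∈ range q, χ a) / q with hs
  have hs1 : ‖s‖ ≤ 1 := by
    rw [hs, norm_div, Complex.norm_natCast]
    refine div_le_one_of_le₀ ((norm_sum_le _ _).trans ?_) (by positivity)
    simpa using sum_le_card_nsmul (range q) (fun a => ‖χ a‖) 1 fun a _ => hχ _
  set D := DP (Icc 1 X) fun m =>
    (((∑ j ∈ m.divisors, φ j) - ∑ j ∈ Icc 1 N, φ j / j : ℝ) : ℂ) * χ m * nit m t
    with hD
  set F := DP (Icc 1 X) fun m => (((∑ j ∈ m.divisors with ¬ j ≤ A, φ j : ℝ) : ℂ) * χ m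
    + s * ((∑ j ∈ Icc 1 A, φ j / j - ∑ j ∈ Icc 1 N, φ j / j : ℝ) : ℂ)) * nit m t with hF
  have tD : Trig D := Trig.DP _ _
  have tF : Trig F := Trig.DP _ _
  have hNr : (N : ℝ) ≤ k * X := by exact_mod_cast hN1
  -- the large divisors
  have m1 : MS T Set.univ F ≤ ε / 4 * X ^ 2 := by
    refine (mean_value Subset.rfl _ hT).trans ?_
    have a1 := L2.tail_sq (Real.one_lt_rpow hX hη) hφ hr (fun m => χ m) (fun m => hχ _) hs1 hAN
      ((Nat.le_mul_of_pos_left X hk).trans hM1) (hN1.trans hM1) hM2 (R := R) (by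
        rw [Real.log_rpow hX0, Real.rpow_def_of_pos hX0, hR, ← hLdef]
        refine le_of_eq (congrArg _ ?_)
        field_simp)
    have a2 : 4 * θ / η = ρ := by rw [hθ]; field_simp
    rw [a2] at a1
    simp only [norm_mul _ (nit _ t), norm_nit, mul_one]
    calc _ ≤ 4 * (X + 2 * X) * (2 * X * (R * ρ + ρ ^ 2)) := by
          gcongr
          exact Real.pi_le_four
      _ = 24 * (R * ρ + ρ ^ 2) * X ^ 2 := by ring
      _ ≤ _ := by gcongr; nlinarith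
  -- the main part
  have m2 : MS T (U ∩ {u | |u| ≤ (X : ℝ) ^ 5}) (fun u => D u - F u) ≤ ε / 8 * X ^ 2 := by
    have hlog : 1 + Real.log N ≤ 3 * L := by
      have : Real.log N ≤ Real.log ((X : ℝ) ^ 2) := by
        refine Real.log_le_log (by exact_mod_cast hN0) (hNr.trans ?_)
        have : (k : ℝ) ≤ X := by exact_mod_cast hkX
        nlinarith
      rw [Real.log_pow] at this
      push_cast at this
      linarith
    have a1 : ∀ u ∈ U ∩ {u | |u| ≤ (X : ℝ) ^ 5},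
        ‖D u - F u‖ ≤ 12 * q * C * X * (X : ℝ) ^ (-(θ * c)) * L := by
      intro u hu
      have b1 : |u + t| ≤ ((X : ℝ) ^ θ) ^ ⌈7 / θ⌉₊ := by
        refine le_trans (exc_pow (by exact_mod_cast h2) hu.2 ht) ?_
        rw [← Real.rpow_natCast, ← Real.rpow_natCast, ← Real.rpow_mul hX0.le]
        refine Real.rpow_le_rpow_of_exponent_le hX.le ?_
        have := Nat.le_ceil (7 / θ)
        rw [div_le_iff₀ hθ0] at this
        push_cast
        linarith
      rw [hD, hF, exc_DP, exc_DP]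
      refine (L2.pointwise hq χ hχ (fun a b => map_mul χ a b) hφ s hs (L2.mean_char χ
        (le_trans (le_mul_of_one_le_right (by positivity) hL2) hcq) hr) hc hC (H q hq)
        (Real.one_le_rpow hX.le hθ0.le) hA0 hAB hAN b1).trans ?_
      rw [← Real.rpow_mul hX0.le, mul_neg]
      calc _ ≤ 4 * (q * C * X * (X : ℝ) ^ (-(θ * c))) * (3 * L) := by gcongr
        _ = _ := by ring
    refine (MS_le_const (tD.sub tF) T (hU.inter (measurableSet_le (by fun_prop) (by fun_prop)))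
      a1).trans ?_
    have a2 : (cm T).real (U ∩ {u | |u| ≤ (X : ℝ) ^ 5}) ≤ (X : ℝ) ^ (θ * c) :=
      (measureReal_mono Set.inter_subset_left).trans hUβ
    refine (mul_le_mul_of_nonneg_left a2 (sq_nonneg _)).trans ?_
    rw [Real.rpow_neg hX0.le]
    have a3 : 0 < (X : ℝ) ^ (θ * c) := by positivity
    generalize (X : ℝ) ^ (θ * c) = Y at hf a3 ⊢
    rw [div_mul_eq_mul_div, div_le_iff₀ hε] at hf
    have : (12 * q * C * X * Y⁻¹ * L) ^ 2 * Y = (8 * (12 * q * C) ^ 2 * L ^ 2) / (8 * Y) * X ^ 2 := by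
      field_simp
    rw [this]
    refine mul_le_mul_of_nonneg_right ?_ (sq_nonneg _)
    rw [div_le_div_iff₀ (by positivity) (by norm_num)]
    nlinarith
  -- the tail
  have m3 : MS T {u | (X : ℝ) ^ 5 < |u|} D ≤ ε / 4 * X ^ 2 := by
    have a1 : ∀ u ∈ {u : ℝ | (X : ℝ) ^ 5 < |u|}, ‖D u‖ ≤ (k + 1) * X ^ 2 := by
      intro u _
      refine (norm_DP_le _ _ _).trans ((sum_le_card_nsmul _ _ ((k + 1) * X : ℝ)
        fun m hm => ?_).trans (le_of_eq (by simp; ring)))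
      rw [norm_mul, norm_nit, mul_one, norm_mul, Complex.norm_real, Real.norm_eq_abs]
      refine (mul_le_of_le_one_right (abs_nonneg _) (hχ _)).trans ((abs_sub _ _).trans ?_)
      have b1 : |∑ j ∈ m.divisors, φ j| ≤ X := by
        refine (abs_sum_le_sum_abs _ _).trans ((sum_le_card_nsmul _ _ 1 fun j _ => hφ j).trans ?_)
        rw [nsmul_eq_mul, mul_one]
        exact Nat.cast_le.2 ((Nat.card_divisors_le_self m).trans (mem_Icc.1 hm).2)
      have b2 : |∑ j ∈ Icc 1 N, φ j / j| ≤ N := by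
        refine (abs_sum_le_sum_abs _ _).trans ((sum_le_card_nsmul _ _ 1 fun j hj => ?_).trans
          (by simp))
        rw [abs_div, Nat.abs_cast]
        exact div_le_one_of_le₀ ((hφ j).trans (by exact_mod_cast (mem_Icc.1 hj).1)) (by positivity)
      linarith
    refine (MS_le_const tD T (measurableSet_lt (by fun_prop) (by fun_prop)) a1).trans ?_
    refine (mul_le_mul_of_nonneg_left (cm_tail T (by positivity)) (sq_nonneg _)).trans ?_
    rw [div_le_iff₀ hε] at hg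
    calc _ ≤ ((k + 1) * (X : ℝ) ^ 2) ^ 2 * (2 * X ^ 2 / X ^ 5) := by gcongr
      _ = 8 * (k + 1) ^ 2 * X / 4 := by field_simp; ring
      _ ≤ X * ε * X / 4 := by gcongr
      _ = _ := by ring
  have m4 : MS T U D ≤ MS T (U ∩ {u | |u| ≤ (X : ℝ) ^ 5}) D + MS T {u | (X : ℝ) ^ 5 < |u|} D := by
    refine (MS_mono tD T fun u hu => ?_).trans (MS_union_le tD T _ _)
    rcases le_or_gt |u| ((X : ℝ) ^ 5) with h | h
    exacts [Or.inl ⟨hu, h⟩, Or.inr h]
  have m5 := MS_add_le (tD.sub tF) tF T (U ∩ {u | |u| ≤ (X : ℝ) ^ 5})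
  simp only [sub_add_cancel] at m5
  have m6 := MS_mono tF T (Set.subset_univ (U ∩ {u | |u| ≤ (X : ℝ) ^ 5}))
  change MS T _ D ≤ _ at m5
  linarith

lemma exc_fam {η : ℝ} (hη : 0 < η) (φ : ℕ → ℕ → ℝ) (hφ : ∀ N j, |φ N j| ≤ 1)
    (hr : ∀ N j, φ N j ≠ 0 → ∀ p : ℕ, p.Prime → p ∣ j → (N : ℝ) ^ η < p) (t : ℕ → ℝ)
    (ht : ∀ N, |t N| ≤ (N : ℝ) ^ 3) (q : ℕ) [NeZero q]
    (χ : DirichletCharacter ℂ q) {ε : ℝ} (hε : 0 < ε) : ∃ β : ℝ, 0 < β ∧ ∀ k : ℕ,
    ∀ᶠ N : ℕ in atTop, ∀ X : ℕ, N ≤ k * X → X ≤ k * N → ∀ T : ℝ, 0 < T → T ≤ X → ∀ U : Set ℝ,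
      MeasurableSet U → (cm T).real U ≤ (X : ℝ) ^ β →
      MS T U (DP (Icc 1 X) fun m =>
        (((∑ j ∈ m.divisors, φ N j) - ∑ j ∈ Icc 1 N, φ N j / j : ℝ) : ℂ) * χ m * nit m (t N))
        ≤ ε * (X : ℝ) ^ 2 := by
  obtain ⟨β, hβ, h⟩ := exc_tw (η := min (η / 2) (1 / 10)) (by positivity) (min_le_right _ _) q χ hε
  refine ⟨β, hβ, fun k => ?_⟩
  obtain ⟨X₀, hX⟩ := eventually_atTop.1 ((h k).and (eventually_ge_atTop k))
  filter_upwards [eventually_gt_atTop (k * X₀), eventually_ge_atTop k] with N hN hk X h1 h2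
  have h3 : X₀ ≤ X := by
    by_contra h2
    have : k * X ≤ k * X₀ := Nat.mul_le_mul_left k (by omega)
    omega
  obtain ⟨hX, hkX⟩ := hX X h3
  refine hX N h1 h2 (φ N) (hφ N) (fun j hj p hp hd => lt_of_le_of_lt ?_ (hr N j hj p hp hd))
    (t N) ((ht N).trans ?_)
  · have h4 : (X : ℝ) ≤ N ^ 2 := by
      have : X ≤ N ^ 2 := h2.trans (by rw [sq]; exact Nat.mul_le_mul_right _ hk)
      exact_mod_cast this
    have h5 : (1 : ℝ) ≤ N := by exact_mod_cast (by omega : 1 ≤ N)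
    calc (X : ℝ) ^ min (η / 2) (1 / 10) ≤ ((N : ℝ) ^ 2) ^ min (η / 2) (1 / 10) := by gcongr
      _ ≤ ((N : ℝ) ^ 2) ^ (η / 2) :=
          Real.rpow_le_rpow_of_exponent_le (one_le_pow₀ h5) (min_le_left _ _)
      _ = _ := by
          rw [← Real.rpow_natCast, ← Real.rpow_mul (by linarith)]
          congr 1; push_cast; ring
  · have h4 : (N : ℝ) ≤ X ^ 2 := by
      have : N ≤ X ^ 2 := h1.trans (by rw [sq]; exact Nat.mul_le_mul_right _ hkX)
      exact_mod_cast this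
    calc (N : ℝ) ^ 3 ≤ ((X : ℝ) ^ 2) ^ 3 := by gcongr
      _ = _ := by ring

/-- short interval cancellation of the twisted family -/
theorem shortFam_tw {η : ℝ} (hη : 0 < η) (φ : ℕ → ℕ → ℝ) (h1 : ∀ N j, |φ N j| ≤ 1)
    (hφ : ∀ N j, φ N j ≠ 0 → LT.Rough ((N : ℝ) ^ η) j) (t : ℕ → ℝ)
    (ht : ∀ N, |t N| ≤ (N : ℝ) ^ 3) (q : ℕ) [NeZero q] (χ : DirichletCharacter ℂ q) :
    ShortFam fun N n => tw η (φ N) N (t N) n * χ n := by
  have hb : ∀ N n : ℕ, ‖tw η (φ N) N (t N) n * χ n‖ ≤ 1 := by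
    intro N n
    rw [norm_mul]
    exact mul_le_one₀ (norm_tw_le _ _ _ _ _) (norm_nonneg _) (χ.norm_le_one _)
  refine shortFam_of_MS hb fun ε hε => ?_
  obtain ⟨β, hβ, hE⟩ := exc_fam hη φ h1 hφ t ht q χ (half_pos hε)
  obtain ⟨h, hh, hC⟩ := core2 (half_pos hε) hβ
  refine ⟨h, hh, fun k => ?_⟩
  filter_upwards [hE k, eventually_scale ((hC (η / 2) (half_pos hη)).and (eventually_ge_atTop 1)) k,
    eventually_ge_atTop k, eventually_ge_atTop 2] with N a1 a2 a3 a4 X s1 s2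
  obtain ⟨a2, X1⟩ := a2 X s1
  have hXN : X ≤ N * N := s2.trans (Nat.mul_le_mul_right N a3)
  have X0 : (0 : ℝ) < X := by exact_mod_cast X1
  obtain ⟨U, u1, u2, u3⟩ := a2 (fun n => nz (t N) n * χ n)
    (fun n => tw η (φ N) N (t N) n * χ n) (fun n => by
      rw [norm_mul]
      exact mul_le_one₀ (norm_nz_le _ _) (norm_nonneg _) (χ.norm_le_one _)) (hb N) (by
      intro p hp hpX m _
      have h2 : (X : ℝ) ^ (η / 2) ≤ (N : ℝ) ^ η := by
        have h3 : (X : ℝ) ≤ (N : ℝ) ^ (2 : ℝ) := by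
          rw [Real.rpow_two, sq]; exact_mod_cast hXN
        calc (X : ℝ) ^ (η / 2) ≤ ((N : ℝ) ^ (2 : ℝ)) ^ (η / 2) :=
              Real.rpow_le_rpow X0.le h3 (by positivity)
          _ = _ := by rw [← Real.rpow_mul (by positivity)]; congr 1; ring
      rw [tw_mul (hφ N) N (t N) hp.pos (hpX.trans h2), Nat.cast_mul, map_mul]
      ring)
  have a5 := a1 X s1 s2 (X / h) (by positivity) (div_le_self X0.le hh) U u1 u2
  have a6 := MS_le_of_le (Trig.DP (Icc 1 X)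
      (fun n => tw η (φ N) N (t N) n * χ n)) (Trig.DP (Icc 1 X) fun m =>
      (((∑ j ∈ m.divisors, φ N j) - ∑ j ∈ Icc 1 N, φ N j / j : ℝ) : ℂ) * χ m * nit m (t N))
      (X / h) u1 (c := 1)
    (fun u _ => by
      have e : DP (Icc 1 X) (fun n => tw η (φ N) N (t N) n * χ n) u =
          (((LT.BB η)⁻¹ : ℝ) : ℂ) * DP (Icc 1 X) (fun m =>
            (((∑ j ∈ m.divisors, φ N j) - ∑ j ∈ Icc 1 N, φ N j / j : ℝ) : ℂ) * χ m
              * nit m (t N)) u := by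
        unfold DP
        rw [mul_sum]
        refine sum_congr rfl fun n hn => ?_
        beta_reduce
        rw [tw, nz_of_ne _ (by have := (mem_Icc.1 hn).1; omega),
          LT.Gc_eq hη (h1 N) a4 (hφ N) (LT.abs_dl_le' hη (h1 N) a4 (hφ N))
          ((mem_Icc.1 hn).2.trans hXN), div_eq_mul_inv, Complex.ofReal_mul]
        unfold LT.Fd LT.dl
        ring
      rw [e, norm_mul, Complex.norm_real]
      refine mul_le_mul_of_nonneg_right ?_ (norm_nonneg _)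
      have := LT.one_le_BB η
      rw [Real.norm_of_nonneg (by positivity)]
      exact inv_le_one_of_one_le₀ this)
  have a7 := MS_union_le (Trig.DP (Icc 1 X)
    (fun n => tw η (φ N) N (t N) n * χ n)) (X / h) U Uᶜ
  rw [Set.union_compl_self] at a7
  linarith

end Pool.Agent.Work.MP_82fd4a_nt.Z
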