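import Pool.Agent.Work.MP_82fd4a_nt.Setup
import Pool.Agent.Work.MP_82fd4a_nt.Kernel
import Pool.Agent.Work.MP_51e72e_nt.L2Unif

/-! Large prime factors in intervals of length a small multiple of the square root: definitions. -/

set_option autoImplicit false
open Filter Topology Finset

namespace Pool.Agent.Work.MP_82fd4a_nt.Z

open Pool.Agent.Lib.MR Pool.Agent.Work.MP_51e72e_nt

/-- bilinear form whose first variable lies in the window from `Y` to `2 Y` -/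
noncomputable def BilY (x Y : ℕ) (T : ℝ) (B A : ℕ → ℝ) : ℝ :=
  ∑ b ∈ Ioc Y (2 * Y), ∑ a ∈ Icc 1 (2 * x), B b * A a * gk x T (b * a)

/-- the sum over factorisations whose first part lies in the window from `Y` to `2 Y` -/
noncomputable def QY (x Y : ℕ) (T : ℝ) (K J : ℕ) (Λ : ℝ) (A₁ A₂ : Finset ℕ)
    (I : Finset (Ix K J)) (D₁ D₂ : Finset ℕ) : ℝ :=
  ∑ a ∈ A₁, ∑ b ∈ A₂, ∑ π ∈ tup K J Λ, ∑ d ∈ D₁, ∑ e ∈ D₂,
    if Y < a * (∏ i ∈ I, π i) * d ∧ a * (∏ i ∈ I, π i) * d ≤ 2 * Y then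
      gk x T (a * b * (∏ i, π i) * (d * e)) else 0

/-- the window is at the square root of `x` divided by `D` -/
def Win (D : ℝ) (x Y : ℕ) : Prop := √(x : ℝ) ≤ 2 * D * Y ∧ D * Y ≤ √(x : ℝ)

/-- the completely multiplicative twist -/
noncomputable def nz (t : ℝ) (n : ℕ) : ℂ := if n = 0 then 0 else nit n t

/-- twisted centred divisor sum -/
noncomputable def tw (η : ℝ) (φ : ℕ → ℝ) (N : ℕ) (t : ℝ) (n : ℕ) : ℂ :=
  ((LT.Gc η φ (LT.dl φ N) n : ℝ) : ℂ) * nz t n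

/-- short interval Fourier uniformity of a complex family -/
def UnifC (G : ℕ → ℕ → ℂ) : Prop :=
  ∀ ε : ℝ, 0 < ε → ∃ H₀ : ℕ, ∀ H : ℕ, H₀ ≤ H → ∀ α : ℝ, ∀ k : ℕ, ∀ᶠ N : ℕ in atTop,
    ∀ X : ℕ, N ≤ k * X → X ≤ k * N → ∑ x ∈ range X, ‖∑ j ∈ range H, G N (x + j) *
      Complex.exp (2 * Real.pi * Complex.I * α * j)‖ ≤ ε * H * X

/-- a damped geometric sum -/
noncomputable def gs (R : ℕ) (θ : ℝ) : ℂ :=
  ∑ r ∈ range R, (((1 - 1 / (R : ℝ)) ^ r : ℝ) : ℂ) * ce (2 * Real.pi * r * θ)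

lemma norm_nz_le (t : ℝ) (n : ℕ) : ‖nz t n‖ ≤ 1 := by
  unfold nz
  split_ifs
  · simp
  · exact (norm_nit _ _).le

lemma nz_mul (t : ℝ) (m n : ℕ) : nz t (m * n) = nz t m * nz t n := by
  unfold nz
  by_cases hm : m = 0
  · simp [hm]
  by_cases hn : n = 0
  · simp [hn]
  rw [if_neg (mul_ne_zero hm hn), if_neg hm, if_neg hn, nit_mul hm hn]

lemma nz_of_ne (t : ℝ) {n : ℕ} (hn : n ≠ 0) : nz t n = nit n t := if_neg hn

lemma conj_nz_mul (t : ℝ) {n : ℕ} (hn : n ≠ 0) : (starRingEnd ℂ) (nz t n) * nz t n = 1 := by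
  rw [Complex.conj_mul', nz_of_ne t hn, norm_nit]
  simp

lemma norm_tw_le (η : ℝ) (φ : ℕ → ℝ) (N : ℕ) (t : ℝ) (n : ℕ) : ‖tw η φ N t n‖ ≤ 1 := by
  rw [tw, norm_mul, Complex.norm_real]
  exact mul_le_one₀ (LT.abs_clamp_le _) (norm_nonneg _) (norm_nz_le _ _)

lemma tw_mul {η y : ℝ} {φ : ℕ → ℝ} (hφ : ∀ j, φ j ≠ 0 → LT.Rough y j) (N : ℕ) (t : ℝ) {d : ℕ}
    (hd : 0 < d) (hy : (d : ℝ) ≤ y) (m : ℕ) :
    tw η φ N t (d * m) = nz t d * tw η φ N t m := by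
  rw [tw, tw, LT.Gc, LT.Gc, LT.Fd_mul hφ hd hy, nz_mul]
  ring

lemma QY_nonneg (x Y : ℕ) (T : ℝ) (K J : ℕ) (Λ : ℝ) (A₁ A₂ : Finset ℕ) (I : Finset (Ix K J))
    (D₁ D₂ : Finset ℕ) : 0 ≤ QY x Y T K J Λ A₁ A₂ I D₁ D₂ :=
  sum_nonneg fun _ _ => sum_nonneg fun _ _ => sum_nonneg fun _ _ => sum_nonneg fun _ _ =>
    sum_nonneg fun _ _ => by
      split_ifs
      · exact gk_nonneg _ _ _
      · exact le_rfl

lemma ev_le_self (H : ℝ) : ∀ᶠ x : ℕ in atTop, H * √(x : ℝ) ≤ x := by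
  have h : Tendsto (fun x : ℕ => √(x : ℝ)) atTop atTop :=
    Real.tendsto_sqrt_atTop.comp tendsto_natCast_atTop_atTop
  filter_upwards [h.eventually_ge_atTop H] with x hx
  calc H * √(x : ℝ) ≤ √(x : ℝ) * √(x : ℝ) := by gcongr
    _ = x := Real.mul_self_sqrt (Nat.cast_nonneg x)

end Pool.Agent.Work.MP_82fd4a_nt.Z
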