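import Pool.Agent.Work.MP_82fd4a_nt.Z.Port1
import Pool.Agent.Work.MP_82fd4a_nt.SumI

/-! The linear part of the decomposition and the upper bounds, for shorter intervals. -/

set_option autoImplicit false
open Filter Topology Finset

namespace Pool.Agent.Work.MP_82fd4a_nt.Z

lemma si_typeIH {H : ℝ} (hH : 1 ≤ H) (K J : ℕ) : ∀ᶠ x : ℕ in atTop, ∀ (Λ M : ℝ) (S : Finset ℕ), Sized x K J Λ S M →
    ∀ (D E : Finset ℕ) (c f : ℕ → ℝ), (∀ d ∈ D, 1 ≤ d ∧ d * M ≤ (x : ℝ) ^ (1 / 2 + del)) →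
    (∀ e ∈ E, 1 ≤ e ∧ (e : ℝ) ≤ (x : ℝ) ^ del) → (∀ d, |c d| ≤ 1) → (∀ e, |f e| ≤ 2) →
    ∀ T : ℝ, Real.log x ^ 2 ≤ T → T ≤ H * √(x : ℝ) →
    |∑ p ∈ S ×ˢ tup K J Λ, tau p.1 * ∑ d ∈ D, c d * ∑ e ∈ E, f e *
        (siG x T ((p.1 * ∏ i, p.2 i) * d * e)
          - Gam x T / (((p.1 * ∏ i, p.2 i : ℕ) : ℝ) * d * e))|
      ≤ Gam x T * (x : ℝ) ^ (-del) := by
  filter_upwards [typeIH hH, si_tau_le 1, si_tau_le (K + J + 2), eventually_ge_atTop 1]
    with x hx h1 h2 hx1 Λ M S hS D E c f hD hE hc hf T hT hT'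
  have hdel : del = 1 / 4000 := rfl
  have hx1' : (1 : ℝ) ≤ x := by exact_mod_cast hx1
  have hx0 : (0 : ℝ) < x := by linarith
  obtain ⟨hM1, hM2, hS⟩ := hS
  have hM0 : 1 ≤ M := (Real.one_le_rpow hx1' (by norm_num)).trans hM1
  set P := S ×ˢ tup K J Λ with hP
  set φ : ℕ × (Ix K J → ℕ) → ℕ := fun p => p.1 * ∏ i, p.2 i with hφ
  set ψ : ℕ × ℕ → ℕ := fun u => u.1 * u.2 with hψ
  have hR : ∀ r ∈ (D ×ˢ E).image ψ, 1 ≤ r ∧ r * M ≤ (x : ℝ) ^ (1 / 2 + 2 * del) := by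
    intro r hr
    obtain ⟨u, hu, rfl⟩ := mem_image.1 hr
    obtain ⟨hu1, hu2⟩ := mem_product.1 hu
    refine ⟨Nat.mul_pos (hD _ hu1).1 (hE _ hu2).1, ?_⟩
    have h3 : (x : ℝ) ^ (1 / 2 + 2 * del) = (x : ℝ) ^ (1 / 2 + del) * (x : ℝ) ^ del := by
      rw [← Real.rpow_add hx0]; ring_nf
    rw [h3]
    calc ((ψ u : ℕ) : ℝ) * M = (u.1 * M) * u.2 := by simp only [hψ]; push_cast; ring
      _ ≤ _ := mul_le_mul (hD _ hu1).2 (hE _ hu2).2 (by positivity) (by positivity)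
  have hSm : ∀ m ∈ P.image φ, M ≤ m ∧ (m : ℝ) ≤ M * (x : ℝ) ^ del := by
    intro m hm
    obtain ⟨p, hp, rfl⟩ := mem_image.1 hm
    obtain ⟨hp1, hp2⟩ := mem_product.1 hp
    exact hS _ hp1 _ hp2
  have hxd : 0 ≤ (x : ℝ) ^ del := by positivity
  have key := hx M hM1 hM2 ((D ×ˢ E).image ψ) (P.image φ)
    (fun r => ∑ u ∈ D ×ˢ E with ψ u = r, c u.1 * f u.2)
    (fun m => ∑ p ∈ P with φ p = m, tau p.1) hR hSm ?_ ?_ T hT hT'
  · convert key using 2
    rw [sum_comm]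
    simp only [mul_comm (∑ u ∈ D ×ˢ E with ψ u = _, c u.1 * f u.2), mul_assoc]
    simp only [← mul_sum]
    rw [← si_regroup P φ (fun p => tau p.1)]
    refine sum_congr rfl fun p _ => ?_
    congr 1
    simp only [mul_comm _ (∑ u ∈ D ×ˢ E with ψ u = _, c u.1 * f u.2)]
    rw [← si_regroup (D ×ˢ E) ψ (fun u => c u.1 * f u.2), sum_product]
    refine sum_congr rfl fun d _ => ?_
    rw [mul_sum]
    refine sum_congr rfl fun e _ => ?_
    simp only [hψ, hφ, siG]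
    rw [mul_assoc (c d)]
    congr 3
    · refine sum_congr rfl fun n _ => ?_
      congr 1
      ring
    · push_cast
      ring
  · intro r
    by_cases hr : r ∈ (D ×ˢ E).image ψ
    · have h3 : r ≤ x := by
        have h4 := (hR r hr).2
        have h5 : (x : ℝ) ^ (1 / 2 + 2 * del) ≤ x ^ (1 : ℝ) :=
          Real.rpow_le_rpow_of_exponent_le hx1' (by rw [hdel]; norm_num)
        rw [Real.rpow_one] at h5
        have h6 : (r : ℝ) ≤ r * M := le_mul_of_one_le_right (by positivity) hM0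
        exact_mod_cast h6.trans (h4.trans h5)
      refine (abs_sum_le_sum_abs _ _).trans ?_
      have h4 : ∑ u ∈ D ×ˢ E with ψ u = r, |c u.1 * f u.2| ≤ ∑ u ∈ D ×ˢ E with ψ u = r, (2 : ℝ) := by
        refine sum_le_sum fun u _ => ?_
        rw [abs_mul]
        nlinarith [hc u.1, hf u.2, abs_nonneg (c u.1), abs_nonneg (f u.2)]
      refine h4.trans ?_
      rw [sum_const, nsmul_eq_mul]
      have h5 := si_card_pairs D E (fun d hd => (hD d hd).1) (fun e he => (hE e he).1) r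
      have h6 := h1 r h3
      rw [pow_one] at h6
      simp only [hψ]
      linarith
    · rw [filter_false_of_mem fun u hu h => hr (mem_image.2 ⟨u, hu, h⟩)]
      simpa using hxd
  · intro m
    by_cases hm : m ∈ P.image φ
    · have h3 : m ≤ x := by
        have h4 := (hSm m hm).2
        have h5 : (x : ℝ) ^ (1 / 5 + del) ≤ x ^ (1 : ℝ) :=
          Real.rpow_le_rpow_of_exponent_le hx1' (by rw [hdel]; norm_num)
        rw [Real.rpow_one, Real.rpow_add hx0] at h5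
        have h6 := mul_le_mul_of_nonneg_right hM2 hxd
        exact_mod_cast h4.trans (h6.trans h5)
      have hm0 : m ≠ 0 := by
        have : (1 : ℝ) ≤ m := hM0.trans (hSm m hm).1
        have : 1 ≤ m := by exact_mod_cast this
        omega
      rw [abs_of_nonneg (sum_nonneg fun p _ => tau_nonneg _)]
      have h4 : ∑ p ∈ P with φ p = m, tau p.1 ≤ ∑ p ∈ P with φ p = m, tau m := by
        refine sum_le_sum fun p hp => ?_
        unfold tau
        refine Nat.cast_le.2 (card_le_card (Nat.divisors_subset_of_dvd hm0 ?_))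
        rw [← (mem_filter.1 hp).2]
        exact dvd_mul_right _ _
      refine h4.trans ?_
      rw [sum_const, nsmul_eq_mul]
      have h5 := si_card_tup K J Λ S hm0
      have h6 := h2 m h3
      have h7 := mul_le_mul_of_nonneg_right h5 (tau_nonneg m)
      rw [← pow_succ] at h7
      have h8 : 0 ≤ tau m ^ (K + J + 2) := pow_nonneg (tau_nonneg m) _
      simp only [hφ, hP]
      linarith
    · rw [filter_false_of_mem fun u hu h => hm (mem_image.2 ⟨u, hu, h⟩)]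
      simpa using hxd

theorem sum_PhiH {ζ : ℝ} (hζ : 0 < ζ) : ∃ η₀ : ℝ, 0 < η₀ ∧ ∀ η : ℝ, 0 < η → η ≤ η₀ → ∀ K J : ℕ,
    ∀ H : ℝ, 1 ≤ H →
    ∀ᶠ x : ℕ in atTop, ∀ (Λ M b : ℝ) (y : ℕ) (S : Finset ℕ), Sized x K J Λ S M →
    (∀ d ∈ Icc 1 (2 * x), Rough ((x : ℝ) ^ η) d → (ty b d).sum < y →
      d * M ≤ (x : ℝ) ^ (1 / 2 + del)) →
    ∀ T T' : ℝ, Real.log x ^ 2 ≤ T → T ≤ H * √(x : ℝ) → Real.log x ^ 2 ≤ T' →
    T' ≤ H * √(x : ℝ) →
    |SS x T K J Λ S tau (fun n => rf ((x : ℝ) ^ η) n * Phi b y n) / Gam x T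
      - SS x T' K J Λ S tau (fun n => rf ((x : ℝ) ^ η) n * Phi b y n) / Gam x T'|
      ≤ ζ * WW K J Λ S tau / Real.log x + 4 * (x : ℝ) ^ (-del) := by
  obtain ⟨C, hC, hF⟩ := fund_lemma
  have hdel : 0 < del := by unfold del; norm_num
  have hdel1 : del ≤ 1 := by unfold del; norm_num
  refine ⟨min (del / 10) (ζ * del ^ 3 / (38 * C)), by positivity, fun η hη hη0 K J H hH => ?_⟩
  have hη1 : η ≤ del / 10 := hη0.trans (min_le_left _ _)
  have hη2 : η ≤ ζ * del ^ 3 / (38 * C) := hη0.trans (min_le_right _ _)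
  have hs : 10 ≤ del / η := by rw [le_div_iff₀ hη]; linarith
  have ht : Tendsto (fun x : ℕ => (x : ℝ) ^ η) atTop atTop :=
    (tendsto_rpow_atTop hη).comp tendsto_natCast_atTop_atTop
  have hl : Tendsto (fun x : ℕ => Real.log x) atTop atTop :=
    Real.tendsto_log_atTop.comp tendsto_natCast_atTop_atTop
  filter_upwards [ht.eventually (hF _ hs), si_typeIH hH K J, si_inv_rough hη (by linarith),
    eventually_ge_atTop 1, hl.eventually_ge_atTop 1, ev_le_self H]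
    with x hx hI hinv hx1 hL hsq Λ M b y S hS hd T T' hT1 hT2 hT1' hT2'
  obtain ⟨E, lam, err, hE, hlam, herr, hpt, hsum⟩ := hx
  have hx1' : (1 : ℝ) ≤ x := by exact_mod_cast hx1
  have hx0 : (0 : ℝ) < x := by linarith
  set z := (x : ℝ) ^ η with hz
  have hE' : ∀ e ∈ E, 1 ≤ e ∧ (e : ℝ) ≤ (x : ℝ) ^ del := by
    intro e he
    refine ⟨(hE e he).1, (hE e he).2.trans_eq ?_⟩
    rw [hz, ← Real.rpow_mul hx0.le]
    congr 1
    field_simp
  have hD : ∀ d ∈ siD x z b y, 1 ≤ d ∧ d * M ≤ (x : ℝ) ^ (1 / 2 + del) := by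
    intro d hd'
    obtain ⟨h1, h2, h3⟩ := mem_filter.1 hd'
    exact ⟨(mem_Icc.1 h1).1, hd d h1 h2 h3⟩
  have hB₁ := hinv (siD x z b y) fun d hd' => by
    obtain ⟨h1, h2, _⟩ := mem_filter.1 hd'
    exact ⟨(mem_Icc.1 h1).1, (mem_Icc.1 h1).2, h2⟩
  have hP : ∀ p ∈ S ×ˢ tup K J Λ, 0 < p.1 * ∏ i, p.2 i := by
    intro p hp
    obtain ⟨hp1, hp2⟩ := mem_product.1 hp
    have h1 := (hS.2.2 _ hp1 _ hp2).1
    have h2 : (0 : ℝ) < M := (Real.rpow_pos_of_pos hx0 _).trans_le hS.1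
    exact_mod_cast h2.trans_le h1
  have hlz : Real.log z = η * Real.log x := Real.log_rpow hx0 η
  have one : ∀ U : ℝ, Real.log x ^ 2 ≤ U → U ≤ H * √(x : ℝ) → _ := fun U hU1 hU2 =>
    si_one x U z b Λ y K J S E lam err
      (lt_of_lt_of_le (div_pos hx0 (by nlinarith)) (Gam_ge (by nlinarith) (hU2.trans hsq)))
      hP (fun e he => (hE e he).1) hpt
      (hI Λ M S hS _ E (fun d => (ArithmeticFunction.moebius d : ℝ)) lam hD hE'
        (fun d => by exact_mod_cast ArithmeticFunction.abs_moebius_le_one) hlam U hU1 hU2)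
      (hI Λ M S hS _ E (fun _ => 1) err hD hE' (fun _ => by simp) herr U hU1 hU2)
      hB₁ hsum (by rw [hlz]; positivity)
  have a1 := one T hT1 hT2
  have a2 := one T' hT1' hT2'
  have hW : 0 ≤ WW K J Λ S tau :=
    mul_nonneg (sum_nonneg fun s _ => div_nonneg (tau_nonneg s) (Nat.cast_nonneg s))
      (Psi_nonneg _ _ _)
  have hc : 2 * (19 / η * (C / ((del / η) ^ 3 * Real.log z))) ≤ ζ / Real.log x := by
    have h1 : 2 * (19 / η * (C / ((del / η) ^ 3 * Real.log z)))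
        = (η * (38 * C) / del ^ 3) / Real.log x := by
      rw [hlz]; field_simp; ring
    rw [h1]
    refine div_le_div_of_nonneg_right ?_ (by linarith)
    rw [le_div_iff₀ (by positivity)] at hη2
    rw [div_le_iff₀ (by positivity)]
    exact hη2
  have hc2 := mul_le_mul_of_nonneg_left hc hW
  have hc3 : WW K J Λ S tau * (ζ / Real.log x) = ζ * WW K J Λ S tau / Real.log x := by ring
  rw [abs_le] at a1 a2 ⊢
  constructor <;> linarith [a1.1, a1.2, a2.1, a2.2]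

theorem sum_roughH {η : ℝ} (hη : 0 < η) (hη1 : η ≤ 1 / 100) (H : ℝ) : ∀ᶠ x : ℕ in atTop,
    ∀ (K J : ℕ) (Λ M : ℝ) (S : Finset ℕ) (wt : ℕ → ℝ), Sized x K J Λ S M → (∀ s, 0 ≤ wt s) →
    ∀ T : ℝ, 1 ≤ T → T ≤ H * √(x : ℝ) →
    SS x T K J Λ S wt (rf ((x : ℝ) ^ η)) ≤ 2 * Gam x T * WW K J Λ S wt / (η * Real.log x) := by
  filter_upwards [su_ev 176 (by norm_num : (0 : ℝ) < 1 / 8), eventually_ge_atTop 2,
    ev_le_self H, su_ev H (show (0 : ℝ) < 1 / 100 by norm_num)]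
    with x hx hx2 hH hH' K J Λ M S wt hS hwt T hT hTx
  have hx1 : (1 : ℝ) < x := by exact_mod_cast hx2
  have hx0 : (0 : ℝ) < x := by linarith
  have hL : 0 < Real.log x := Real.log_pos hx1
  have hw : (1 : ℝ) < (x : ℝ) ^ η := Real.one_lt_rpow hx1 hη
  have hG := Gam_geH (by omega) hT hTx hH hH'
  have key := su_SS_le (T := T) (B := 2 * Gam x T / (η * Real.log x))
    (c := rf ((x : ℝ) ^ η)) (by omega) hS hwt fun m hm1 hm2 => by
      have hm := su_pos (by omega) hm1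
      have hm0 : (0 : ℝ) < m := by exact_mod_cast hm
      refine (sum_rf_gk x (by linarith) hm hw).trans ?_
      rw [Real.log_rpow hx0]
      have e1 : ((x : ℝ) ^ η) ^ 4 ≤ (x : ℝ) ^ (1 / 25 : ℝ) := by
        rw [← Real.rpow_natCast, ← Real.rpow_mul hx0.le]
        exact Real.rpow_le_rpow_of_exponent_le hx1.le (by push_cast; linarith)
      have e2 : Real.log x ≤ (x : ℝ) ^ (1 / 10 : ℝ) / (1 / 10) :=
        Real.log_le_rpow_div hx0.le (by norm_num)
      have e3 : (x : ℝ) ^ (1 / 25 : ℝ) * (x : ℝ) ^ (1 / 10 : ℝ) = (x : ℝ) ^ (7 / 50 : ℝ) := by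
        rw [← Real.rpow_add hx0]; norm_num
      have e4 : (1 : ℝ) ≤ (x : ℝ) ^ (7 / 50 : ℝ) := Real.one_le_rpow hx1.le (by norm_num)
      have e5 : (x : ℝ) ^ (49 / 100 : ℝ) =
          (x : ℝ) ^ (1 / 8 : ℝ) * (x : ℝ) ^ (7 / 50 : ℝ) * (x : ℝ) ^ (9 / 40 : ℝ) := by
        rw [← Real.rpow_add hx0, ← Real.rpow_add hx0]; norm_num
      have e6 : 22 * (x : ℝ) ^ (7 / 50 : ℝ) ≤ Gam x T / m := by
        rw [le_div_iff₀ hm0]
        refine le_trans ?_ hG
        rw [e5, le_div_iff₀ (by norm_num)]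
        calc 22 * (x : ℝ) ^ (7 / 50 : ℝ) * m * 8 = 176 * (x : ℝ) ^ (7 / 50 : ℝ) * m := by ring
          _ ≤ _ := by gcongr
      have e7 : ((x : ℝ) ^ η) ^ 4 * (η * Real.log x) ≤ 10 * (x : ℝ) ^ (7 / 50 : ℝ) := by
        have h1 : η * Real.log x ≤ 10 * (x : ℝ) ^ (1 / 10 : ℝ) := by
          have : η * Real.log x ≤ 1 * Real.log x := by gcongr; linarith
          linarith
        calc _ ≤ (x : ℝ) ^ (1 / 25 : ℝ) * (10 * (x : ℝ) ^ (1 / 10 : ℝ)) := by gcongr
          _ = _ := by rw [← e3]; ring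
      have hηL : 0 < η * Real.log x := mul_pos hη hL
      have e8 : 2 * Gam x T / (η * Real.log x) / m = 2 * (Gam x T / m) / (η * Real.log x) := by
        ring
      rw [e8, div_add' _ _ _ hηL.ne', div_le_div_iff_of_pos_right hηL]
      nlinarith
  calc _ ≤ _ := key
    _ = _ := by ring

theorem sum_not_sqfreeH {η : ℝ} (hη : 0 < η) (hη1 : η ≤ 1 / 100) (K J : ℕ) (H : ℝ) :
    ∀ᶠ x : ℕ in atTop,
    ∀ (Λ M : ℝ) (S : Finset ℕ), Sized x K J Λ S M → ∀ T : ℝ, 1 ≤ T → T ≤ H * √(x : ℝ) →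
    SS x T K J Λ S tau (fun n => if Squarefree n then 0 else rf ((x : ℝ) ^ η) n)
      ≤ Gam x T * (x : ℝ) ^ (-(η / 2)) := by
  filter_upwards [sum_sqfulH hη hη1 (K + J + 2) 1 H, su_ev 2 (by norm_num : (0 : ℝ) < 1 / 15),
    eventually_ge_atTop 1] with x hx hx2 hx1 Λ M S hS T hT hTx
  have hx0 : (0 : ℝ) < x := by exact_mod_cast hx1
  set c : ℕ → ℝ := fun n => if Squarefree n then 0 else rf ((x : ℝ) ^ η) n with hc
  have hc1 : ∀ n, c n ≤ 1 := fun n => by
    simp only [hc]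
    split_ifs
    · exact zero_le_one
    · exact rf_le_one _ _
  refine le_trans (le_of_eq ?_) (hx T hT hTx (fun N => if N ∈ Icc 1 (2 * x) then
    ∑ s ∈ S, ∑ π ∈ tup K J Λ, ∑ n ∈ Icc 1 (2 * x),
      (if s * (∏ i, π i) * n = N then tau s * c n else 0) else 0) (fun N => ?_) (fun N hN => ?_))
  · refine Eq.trans ?_ (sum_congr rfl fun N hN => by rw [if_pos hN]).symm
    unfold SS
    simp only [sum_mul]
    symm
    rw [sum_comm]
    refine sum_congr rfl fun s hs => ?_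
    rw [sum_comm]
    refine sum_congr rfl fun π hπ => ?_
    rw [sum_comm]
    refine sum_congr rfl fun n hn => ?_
    simp only [ite_mul, zero_mul]
    rw [sum_ite_eq]
    split_ifs with h
    · rfl
    · have hm := su_pos hx1 (su_size hx1 hS hs hπ).1
      have : gk x T (s * (∏ i, π i) * n) = 0 := by
        by_contra h0
        exact h (mem_Icc.2 ⟨Nat.mul_pos hm (mem_Icc.1 hn).1, (gk_ne_zero h0).2⟩)
      rw [this, mul_zero]
  · rw [one_mul]
    split_ifs with h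
    · exact su_count _ (by have := (mem_Icc.1 h).1; omega) hc1
    · exact pow_nonneg (tau_nonneg N) _
  · split_ifs at hN with h
    swap
    · exact absurd hN (lt_irrefl _)
    obtain ⟨s, hs, hN⟩ := exists_ne_zero_of_sum_ne_zero hN.ne'
    obtain ⟨π, hπ, hN⟩ := exists_ne_zero_of_sum_ne_zero hN
    obtain ⟨n, hn, hN⟩ := exists_ne_zero_of_sum_ne_zero hN
    have he : s * (∏ i, π i) * n = N := by
      by_contra h0
      exact hN (if_neg h0)
    rw [if_pos he] at hN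
    have hcn : c n ≠ 0 := right_ne_zero_of_mul hN
    have hsq : ¬ Squarefree n := fun h0 => hcn (by simp only [hc]; exact if_pos h0)
    have hr : Rough ((x : ℝ) ^ η) n := by
      by_contra h0
      exact hcn (by simp only [hc]; rw [if_neg hsq]; exact if_neg h0)
    rw [Nat.squarefree_iff_prime_squarefree] at hsq
    push Not at hsq
    obtain ⟨p, hp, hpn⟩ := hsq
    refine ⟨p, hp, hr p hp ((dvd_mul_right p p).trans hpn), ?_, ?_⟩
    · have h1 : p * p ≤ n := Nat.le_of_dvd (mem_Icc.1 hn).1 hpn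
      have h2 : s * (∏ i, π i) * (p * p) ≤ 2 * x :=
        (Nat.mul_le_mul_left _ h1).trans (he ▸ (mem_Icc.1 h).2)
      have h3 : ((s * ∏ i, π i : ℕ) : ℝ) * ((p : ℝ) * p) ≤ 2 * x := by exact_mod_cast h2
      have h4 := (su_size hx1 hS hs hπ).1
      have e1 : (x : ℝ) ^ (1 / 15 : ℝ) * x =
          (x : ℝ) ^ (1 / 6 : ℝ) * ((x : ℝ) ^ (9 / 20 : ℝ) * (x : ℝ) ^ (9 / 20 : ℝ)) := by
        rw [← Real.rpow_add hx0, ← Real.rpow_add hx0, ← Real.rpow_add_one hx0.ne']; norm_num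
      have h5 : (x : ℝ) ^ (1 / 6 : ℝ) * ((p : ℝ) * p) ≤
          (x : ℝ) ^ (1 / 6 : ℝ) * ((x : ℝ) ^ (9 / 20 : ℝ) * (x : ℝ) ^ (9 / 20 : ℝ)) := by
        rw [← e1]
        calc _ ≤ ((s * ∏ i, π i : ℕ) : ℝ) * ((p : ℝ) * p) := by gcongr
          _ ≤ 2 * x := h3
          _ ≤ _ := by gcongr
      have h6 := le_of_mul_le_mul_left h5 (Real.rpow_pos_of_pos hx0 _)
      exact (mul_self_le_mul_self_iff (Nat.cast_nonneg p) (by positivity)).2 h6
    · rw [← he, pow_two]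
      exact hpn.mul_left _

/-- if no product with a prime lies near `x` then the sum over primes is small -/
theorem sum_tailH (H : ℝ) :
    ∀ᶠ x : ℕ in atTop, ∀ (K J : ℕ) (Λ M : ℝ) (S : Finset ℕ), Sized x K J Λ S M →
    ∀ T D : ℝ, 2 ≤ T → T ≤ H * √(x : ℝ) →
    (∀ s ∈ S, ∀ π ∈ tup K J Λ, ∀ p : ℕ, p.Prime → x < 2 * (s * (∏ i, π i) * p) →
      D ≤ |((s * (∏ i, π i) * p : ℕ) : ℝ) - x|) →
    SS x T K J Λ S tau (fun n => if n.Prime then 1 else 0)
      ≤ 16000 * Real.exp (-(T * D / (4 * x))) * Gam x T * WW K J Λ S tau / Real.log x := by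
  filter_upwards [sum_roughH (η := 1 / 100) (by norm_num) le_rfl H,
    su_ev 2 (by norm_num : (0 : ℝ) < 153 / 200), eventually_ge_atTop 2, ev_le_self H]
    with x hx hx3 hx2 hH K J Λ M S hS T D hT hTx hD
  have hx1 : (1 : ℝ) < x := by exact_mod_cast hx2
  have hx0 : (0 : ℝ) < x := by linarith
  have hL : 0 < Real.log x := Real.log_pos hx1
  have hTx' : T ≤ x := hTx.trans hH
  have h1 := hx K J Λ M S tau hS tau_nonneg (T / 2) (by linarith) (by linarith)
  have h2 : Gam x (T / 2) ≤ 80 * Gam x T := by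
    have a1 := Gam_le (x := x) (T := T / 2) (by linarith) (by linarith)
    have a2 := Gam_ge (x := x) (T := T) (by linarith) hTx'
    have a3 : 5 * (x : ℝ) / (T / 2) = 80 * (x / (8 * T)) := by field_simp; norm_num
    linarith
  have h3 : SS x T K J Λ S tau (fun n => if n.Prime then 1 else 0) ≤
      Real.exp (-(T * D / (4 * x))) * SS x (T / 2) K J Λ S tau (rf ((x : ℝ) ^ (1 / 100 : ℝ))) := by
    unfold SS
    simp only [mul_sum]
    refine sum_le_sum fun s hs => sum_le_sum fun π hπ => sum_le_sum fun n _ => ?_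
    have hR : 0 ≤ Real.exp (-(T * D / (4 * x))) * (tau s * rf ((x : ℝ) ^ (1 / 100 : ℝ)) n *
        gk x (T / 2) (s * (∏ i, π i) * n)) :=
      mul_nonneg (Real.exp_pos _).le
        (mul_nonneg (mul_nonneg (tau_nonneg _) (rf_nonneg _ _)) (gk_nonneg _ _ _))
    by_cases hp : n.Prime
    swap
    · rw [if_neg hp, mul_zero, zero_mul]; exact hR
    by_cases h0 : gk x T (s * (∏ i, π i) * n) = 0
    · rw [h0, mul_zero]; exact hR
    have h4 := (gk_ne_zero h0).1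
    have h5 := gk_tail (x := x) (by omega) (T := T) (by linarith) (hD s hs π hπ n hp h4)
    have h6 : Rough ((x : ℝ) ^ (1 / 100 : ℝ)) n := by
      intro p hp' hpn
      obtain rfl := (Nat.prime_dvd_prime_iff_eq hp' hp).1 hpn
      have b1 : (x : ℝ) < 2 * (((s * ∏ i, π i : ℕ) : ℝ) * p) := by exact_mod_cast h4
      have b2 := (su_size (by omega) hS hs hπ).2
      have e1 : (x : ℝ) ^ (153 / 200 : ℝ) * ((x : ℝ) ^ (9 / 40 : ℝ) * (x : ℝ) ^ (1 / 100 : ℝ))
          = x := by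
        rw [← Real.rpow_add hx0, ← Real.rpow_add hx0]; norm_num
      by_contra hcon
      push Not at hcon
      have b3 : 2 * (((s * ∏ i, π i : ℕ) : ℝ) * p) ≤
          (x : ℝ) ^ (153 / 200 : ℝ) * ((x : ℝ) ^ (9 / 40 : ℝ) * (x : ℝ) ^ (1 / 100 : ℝ)) := by
        gcongr
      linarith
    have h7 : rf ((x : ℝ) ^ (1 / 100 : ℝ)) n = 1 := if_pos h6
    rw [if_pos hp, h7]
    calc _ ≤ tau s * 1 * (Real.exp (-(T * D / (4 * x))) * gk x (T / 2) (s * (∏ i, π i) * n)) :=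
          mul_le_mul_of_nonneg_left h5 (mul_nonneg (tau_nonneg _) zero_le_one)
      _ = _ := by ring
  have hW := su_WW_nonneg K J Λ S tau_nonneg
  calc _ ≤ _ := h3
    _ ≤ Real.exp (-(T * D / (4 * x))) *
          (2 * (80 * Gam x T) * WW K J Λ S tau / (1 / 100 * Real.log x)) := by
        refine mul_le_mul_of_nonneg_left (h1.trans ?_) (Real.exp_pos _).le
        gcongr
    _ = _ := by field_simp; ring

end Pool.Agent.Work.MP_82fd4a_nt.Z
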