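import Pool.Agent.Work.MP_82fd4a_nt.Z.Defs
import Pool.Agent.Work.MP_82fd4a_nt.QRep
import Pool.Agent.Work.MP_82fd4a_nt.QUp

/-! Replacing the divisor function by the number of divisors in a window of any position. -/

set_option autoImplicit false
open Filter Topology Finset

namespace Pool.Agent.Work.MP_82fd4a_nt.Z

/-- the summand of the form `QY` -/
noncomputable def qyF (x Y : ℕ) (T : ℝ) (K J : ℕ) (Λ : ℝ) (I : Finset (Ix K J))
    (D₁ D₂ : Finset ℕ) (a c : ℕ) : ℝ :=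
  ∑ π ∈ tup K J Λ, ∑ d ∈ D₁, ∑ e ∈ D₂,
    if Y < a * (∏ i ∈ I, π i) * d ∧ a * (∏ i ∈ I, π i) * d ≤ 2 * Y then
      gk x T (a * c * (∏ i, π i) * (d * e)) else 0

lemma qy_main {x Y K J : ℕ} {T Λ w b : ℝ} (i : Fin K) (j : ℕ) (σ σ' : Multiset ℕ) (s : ℕ) :
    ∑ a ∈ s.divisors, qyF x Y T K J Λ (part J i j) (Dt x w b σ) (Dt x w b σ') a (s / a)
      = ∑ π ∈ tup K J Λ, ∑ d ∈ Dt x w b σ, ∑ e ∈ Dt x w b σ',
        win s (π (Sum.inl i)) ((Y : ℝ) / ((d * ∏ t ∈ coarse K J j, π t : ℕ) : ℝ)) *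
          gk x T (s * (∏ i, π i) * (d * e)) := by
  unfold qyF
  rw [sum_comm]
  refine sum_congr rfl fun π hπ => ?_
  rw [sum_comm]
  refine sum_congr rfl fun d hd => ?_
  rw [sum_comm]
  refine sum_congr rfl fun e _ => ?_
  rw [← qr_win _ _ _ _ _ (prod_pos_of_mem_tup hπ _) (qr_mem_Dt.1 hd).1.1, qr_prod_part]
  refine sum_congr rfl fun a ha => ?_
  rw [Nat.mul_div_cancel' (Nat.dvd_of_mem_divisors ha)]

lemma qy_split {x Y K J : ℕ} {T Λ z w b : ℝ} (Typ Hi Lo : ℕ → Prop)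
    (hmul : ∀ a c, Smooth z a → Smooth z c → ¬ Hi a → ¬ Lo a → ¬ Hi c → ¬ Lo c → Typ (a * c))
    (i : Fin K) (j : ℕ) (σ σ' : Multiset ℕ) :
    |QY x Y T K J Λ (Sm x z fun _ => True) (Sm x z fun _ => True) (part J i j)
        (Dt x w b σ) (Dt x w b σ')
      - ∑ s ∈ Sm x z Typ, ∑ π ∈ tup K J Λ, ∑ d ∈ Dt x w b σ, ∑ e ∈ Dt x w b σ',
        win s (π (Sum.inl i)) ((Y : ℝ) / ((d * ∏ t ∈ coarse K J j, π t : ℕ) : ℝ)) *
          gk x T (s * (∏ i, π i) * (d * e))|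
      ≤ QY x Y T K J Λ (Sm x z Hi) (Sm x z fun _ => True) (part J i j) (Dt x w b σ) (Dt x w b σ')
        + QY x Y T K J Λ (Sm x z fun _ => True) (Sm x z Hi) (part J i j) (Dt x w b σ) (Dt x w b σ')
        + QY x Y T K J Λ (Sm x z Lo) (Sm x z fun _ => True) (part J i j) (Dt x w b σ) (Dt x w b σ')
        + QY x Y T K J Λ (Sm x z fun _ => True) (Sm x z Lo) (part J i j) (Dt x w b σ)
            (Dt x w b σ') := by
  rw [← sum_congr rfl fun s _ => qy_main i j σ σ' s]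
  refine qr_split Typ Hi Lo hmul (qyF x Y T K J Λ (part J i j) (Dt x w b σ) (Dt x w b σ')) ?_ ?_
  · intro a c
    refine sum_nonneg fun _ _ => sum_nonneg fun _ _ => sum_nonneg fun _ _ => ?_
    split_ifs
    · exact gk_nonneg _ _ _
    · exact le_rfl
  · intro a c hac
    refine sum_eq_zero fun π hπ => sum_eq_zero fun d hd => sum_eq_zero fun e he => ?_
    split_ifs
    · have h1 : a * c * (∏ i, π i) * (d * e) = ((∏ i, π i) * (d * e)) * (a * c) := by ring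
      rw [h1]
      exact qr_gk_zero T (Nat.mul_pos (prod_pos_of_mem_tup hπ _)
        (Nat.mul_pos (qr_mem_Dt.1 hd).1.1 (qr_mem_Dt.1 he).1.1)) hac
    · rfl

/-- summing the error forms over the types -/
lemma qy_sum {x Y K J y y' : ℕ} {T Λ w b : ℝ} (𝒯 : Finset (Multiset ℕ)) (jj : Multiset ℕ → ℕ)
    (h𝒯 : ∀ τ ∈ 𝒯, Good y y' τ ∧ jj τ ≤ J ∧ Dt x w b (sel y y' τ) ⊆ D0 x w ∧
      Dt x w b (τ - sel y y' τ) ⊆ D0 x w) (i : Fin K) (A₁ A₂ : Finset ℕ) :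
    ∑ τ ∈ 𝒯, QY x Y T K J Λ A₁ A₂ (part J i (jj τ)) (Dt x w b (sel y y' τ))
        (Dt x w b (τ - sel y y' τ))
      ≤ ∑ j ∈ range (J + 1), QY x Y T K J Λ A₁ A₂ (part J i j) (D0 x w) (D0 x w) := by
  rw [← sum_fiberwise_of_maps_to (s := 𝒯) (t := range (J + 1)) (g := jj)
    (fun τ hτ => mem_range.2 (Nat.lt_succ_of_le (h𝒯 τ hτ).2.1))]
  refine sum_le_sum fun j _ => ?_
  have h1 : ∀ τ ∈ 𝒯.filter (fun τ => jj τ = j), QY x Y T K J Λ A₁ A₂ (part J i (jj τ))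
      (Dt x w b (sel y y' τ)) (Dt x w b (τ - sel y y' τ)) = QY x Y T K J Λ A₁ A₂ (part J i j)
      (Dt x w b (sel y y' τ)) (Dt x w b (τ - sel y y' τ)) := fun τ hτ => by
    rw [(mem_filter.1 hτ).2]
  rw [sum_congr rfl h1]
  unfold QY
  rw [sum_comm]
  refine sum_le_sum fun a _ => ?_
  rw [sum_comm]
  refine sum_le_sum fun c _ => ?_
  rw [sum_comm]
  refine sum_le_sum fun π _ => ?_
  refine qr_disj _ (fun τ hτ => ?_) _ fun d e => ?_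
  · have h := h𝒯 τ (mem_filter.1 hτ).1
    exact ⟨h.1, h.2.2⟩
  · split_ifs
    · exact gk_nonneg _ _ _
    · exact le_rfl

theorem QY_replace {x Y K J k y y' : ℕ} {T Λ z w b κ : ℝ} (hκ : 0 ≤ κ)
    (Typ Hi Lo : ℕ → Prop) (err : ℕ → ℝ) (herr : ∀ s, 0 ≤ err s)
    (hmul : ∀ a c, Smooth z a → Smooth z c → ¬ Hi a → ¬ Lo a → ¬ Hi c → ¬ Lo c → Typ (a * c))
    (𝒯 : Finset (Multiset ℕ)) (jj : Multiset ℕ → ℕ)
    (h𝒯 : ∀ τ ∈ 𝒯, Good y y' τ ∧ τ.card ≤ k ∧ jj τ ≤ J ∧ Dt x w b (sel y y' τ) ⊆ D0 x w ∧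
      Dt x w b (τ - sel y y' τ) ⊆ D0 x w)
    (hcov : ∀ s ∈ Sm x z Typ, ∀ π ∈ tup K J Λ, ∀ n ∈ Icc 1 (2 * x), Rough w n →
      x < 2 * (s * (∏ i, π i) * n) → s * (∏ i, π i) * n ≤ 2 * x → Good y y' (ty b n) →
      ty b n ∈ 𝒯)
    (hequi : ∀ s ∈ Sm x z Typ, ∀ π ∈ tup K J Λ, ∀ τ ∈ 𝒯, ∀ d ∈ Dt x w b (sel y y' τ),
      |∑ i : Fin K, win s (π (Sum.inl i))
          ((Y : ℝ) / ((d * ∏ t ∈ coarse K J (jj τ), π t : ℕ) : ℝ)) - κ * tau s|
        ≤ κ * tau s * err s) :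
    |κ * SS x T K J Λ (Sm x z Typ) tau (fun n => rf w n * Gd b y y' n)
      - ∑ τ ∈ 𝒯, aco y y' τ * ∑ i : Fin K,
          QY x Y T K J Λ (Sm x z fun _ => True) (Sm x z fun _ => True) (part J i (jj τ))
            (Dt x w b (sel y y' τ)) (Dt x w b (τ - sel y y' τ))|
      ≤ 4 ^ k * κ * SS x T K J Λ (Sm x z Typ) (fun s => tau s * err s) (rf w)
        + 2 ^ k * ∑ i : Fin K, ∑ j ∈ range (J + 1),
          (QY x Y T K J Λ (Sm x z Hi) (Sm x z fun _ => True) (part J i j) (D0 x w) (D0 x w)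
          + QY x Y T K J Λ (Sm x z fun _ => True) (Sm x z Hi) (part J i j) (D0 x w) (D0 x w)
          + QY x Y T K J Λ (Sm x z Lo) (Sm x z fun _ => True) (part J i j) (D0 x w) (D0 x w)
          + QY x Y T K J Λ (Sm x z fun _ => True) (Sm x z Lo) (part J i j) (D0 x w) (D0 x w)) := by
  let W : ℕ → (Ix K J → ℕ) → Fin K → Multiset ℕ → ℕ → ℝ := fun s π i τ d =>
    win s (π (Sum.inl i)) ((Y : ℝ) / ((d * ∏ t ∈ coarse K J (jj τ), π t : ℕ) : ℝ))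
  let M : ℕ → (Ix K J → ℕ) → Fin K → Multiset ℕ → ℝ := fun s π i τ =>
    ∑ d ∈ Dt x w b (sel y y' τ), ∑ e ∈ Dt x w b (τ - sel y y' τ),
      W s π i τ d * gk x T (s * (∏ i, π i) * (d * e))
  -- first part
  have hA : |κ * SS x T K J Λ (Sm x z Typ) tau (fun n => rf w n * Gd b y y' n)
      - ∑ τ ∈ 𝒯, aco y y' τ * ∑ i, ∑ s ∈ Sm x z Typ, ∑ π ∈ tup K J Λ, M s π i τ|
      ≤ 4 ^ k * κ * SS x T K J Λ (Sm x z Typ) (fun s => tau s * err s) (rf w) := by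
    have e1 : ∑ τ ∈ 𝒯, aco y y' τ * ∑ i, ∑ s ∈ Sm x z Typ, ∑ π ∈ tup K J Λ, M s π i τ
        = ∑ s ∈ Sm x z Typ, ∑ π ∈ tup K J Λ, ∑ τ ∈ 𝒯, aco y y' τ * ∑ i, M s π i τ := by
      have e2 : ∀ τ ∈ 𝒯, aco y y' τ * ∑ i, ∑ s ∈ Sm x z Typ, ∑ π ∈ tup K J Λ, M s π i τ
          = ∑ s ∈ Sm x z Typ, ∑ π ∈ tup K J Λ, aco y y' τ * ∑ i, M s π i τ := by
        intro τ _
        rw [sum_comm, mul_sum]
        refine sum_congr rfl fun s _ => ?_
        rw [sum_comm, mul_sum]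
      rw [sum_congr rfl e2, sum_comm]
      exact sum_congr rfl fun s _ => sum_comm
    rw [e1]
    unfold SS
    rw [mul_sum, mul_sum, ← sum_sub_distrib]
    refine (abs_sum_le_sum_abs _ _).trans (sum_le_sum fun s hs => ?_)
    rw [mul_sum, mul_sum, ← sum_sub_distrib]
    refine (abs_sum_le_sum_abs _ _).trans (sum_le_sum fun π hπ => ?_)
    have hq : 1 ≤ s * ∏ i, π i := Nat.mul_pos (qr_mem_Sm.1 hs).1.1 (prod_pos_of_mem_tup hπ _)
    have hE : 0 ≤ κ * tau s * err s := mul_nonneg (mul_nonneg hκ (tau_nonneg s)) (herr s)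
    have h := qr_point (T := T) (t := κ * tau s) hE 𝒯 (fun τ hτ => ⟨(h𝒯 τ hτ).1, (h𝒯 τ hτ).2.1⟩)
      hq (hcov s hs π hπ) (W s π) (hequi s hs π hπ)
    have e3 : κ * ∑ n ∈ Icc 1 (2 * x), tau s * (rf w n * Gd b y y' n) * gk x T (s * (∏ i, π i) * n)
        = κ * tau s * ∑ n ∈ Icc 1 (2 * x), rf w n * Gd b y y' n * gk x T (s * (∏ i, π i) * n) := by
      rw [mul_assoc, mul_sum (a := tau s)]
      congr 1
      exact sum_congr rfl fun n _ => by ring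
    have e4 : 4 ^ k * κ * ∑ n ∈ Icc 1 (2 * x), tau s * err s * rf w n * gk x T (s * (∏ i, π i) * n)
        = 4 ^ k * (κ * tau s * err s) *
          ∑ n ∈ Icc 1 (2 * x), rf w n * gk x T (s * (∏ i, π i) * n) := by
      rw [mul_sum, mul_sum]
      exact sum_congr rfl fun n _ => by ring
    beta_reduce
    rw [e3, e4]
    exact h
  -- second part
  have hB : |∑ τ ∈ 𝒯, aco y y' τ * ∑ i, ∑ s ∈ Sm x z Typ, ∑ π ∈ tup K J Λ, M s π i τ
      - ∑ τ ∈ 𝒯, aco y y' τ * ∑ i : Fin K,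
          QY x Y T K J Λ (Sm x z fun _ => True) (Sm x z fun _ => True) (part J i (jj τ))
            (Dt x w b (sel y y' τ)) (Dt x w b (τ - sel y y' τ))|
      ≤ 2 ^ k * ∑ τ ∈ 𝒯, ∑ i : Fin K,
          (QY x Y T K J Λ (Sm x z Hi) (Sm x z fun _ => True) (part J i (jj τ))
            (Dt x w b (sel y y' τ)) (Dt x w b (τ - sel y y' τ))
          + QY x Y T K J Λ (Sm x z fun _ => True) (Sm x z Hi) (part J i (jj τ))
            (Dt x w b (sel y y' τ)) (Dt x w b (τ - sel y y' τ))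
          + QY x Y T K J Λ (Sm x z Lo) (Sm x z fun _ => True) (part J i (jj τ))
            (Dt x w b (sel y y' τ)) (Dt x w b (τ - sel y y' τ))
          + QY x Y T K J Λ (Sm x z fun _ => True) (Sm x z Lo) (part J i (jj τ))
            (Dt x w b (sel y y' τ)) (Dt x w b (τ - sel y y' τ))) := by
    rw [← sum_sub_distrib, mul_sum]
    refine (abs_sum_le_sum_abs _ _).trans (sum_le_sum fun τ hτ => ?_)
    rw [← mul_sub, abs_mul, ← sum_sub_distrib]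
    refine mul_le_mul ((abs_aco_le y y' τ).trans
      (pow_le_pow_right₀ (by norm_num) (h𝒯 τ hτ).2.1)) ?_ (abs_nonneg _) (by positivity)
    refine (abs_sum_le_sum_abs _ _).trans (sum_le_sum fun i _ => ?_)
    rw [abs_sub_comm]
    exact qy_split Typ Hi Lo hmul i (jj τ) _ _
  refine (abs_sub_le _ _ _).trans (add_le_add hA (hB.trans ?_))
  refine mul_le_mul_of_nonneg_left ?_ (by positivity)
  rw [sum_comm]
  refine sum_le_sum fun i _ => ?_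
  simp only [sum_add_distrib]
  have h𝒯' : ∀ τ ∈ 𝒯, Good y y' τ ∧ jj τ ≤ J ∧ Dt x w b (sel y y' τ) ⊆ D0 x w ∧
      Dt x w b (τ - sel y y' τ) ⊆ D0 x w := fun τ hτ => ⟨(h𝒯 τ hτ).1, (h𝒯 τ hτ).2.2⟩
  exact add_le_add (add_le_add (add_le_add (qy_sum 𝒯 jj h𝒯' i _ _) (qy_sum 𝒯 jj h𝒯' i _ _))
    (qy_sum 𝒯 jj h𝒯' i _ _)) (qy_sum 𝒯 jj h𝒯' i _ _)

theorem QY_long {η : ℝ} (hη : 0 < η) (hη1 : η ≤ 1 / 100) : ∀ᶠ x : ℕ in atTop,
    ∀ (Y K J : ℕ) (Λ : ℝ) (A₁ A₂ : Finset ℕ) (I : Finset (Ix K J)), (∀ s ∈ A₁, 1 ≤ s) →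
    (∀ s ∈ A₂, 1 ≤ s) →
    QY x Y (Real.log x ^ 2) K J Λ A₁ A₂ I (D0 x ((x : ℝ) ^ η)) (D0 x ((x : ℝ) ^ η))
      ≤ 4 * (∑ s ∈ A₁, (s : ℝ)⁻¹) * (∑ s ∈ A₂, (s : ℝ)⁻¹) * Psi K J Λ *
        Gam x (Real.log x ^ 2) / (η * Real.log x) ^ 2 := by
  filter_upwards [qup_log, eventually_gt_atTop 1] with x ⟨hL, hx⟩ hx1 Y K J Λ A₁ A₂ I h1 h2
  have hx1' : (1 : ℝ) < x := by exact_mod_cast hx1
  have hx0 : (0 : ℝ) < x := by linarith
  have hw : 1 < (x : ℝ) ^ η := Real.one_lt_rpow hx1' hη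
  have hlw : Real.log ((x : ℝ) ^ η) = η * Real.log x := Real.log_rpow hx0 η
  have hw4 : ((x : ℝ) ^ η) ^ 4 ≤ (x : ℝ) ^ (1 / 25 : ℝ) := by
    rw [← Real.rpow_natCast, ← Real.rpow_mul hx0.le]
    exact Real.rpow_le_rpow_of_exponent_le hx1'.le (by push_cast; linarith)
  have hp1 : 1 ≤ (x : ℝ) ^ (1 / 25 : ℝ) := Real.one_le_rpow hx1'.le (by norm_num)
  have hp2 : (x : ℝ) ^ (3 / 10 : ℝ) ≤ x := by
    conv_rhs => rw [← Real.rpow_one x]
    exact Real.rpow_le_rpow_of_exponent_le hx1'.le (by norm_num)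
  obtain ⟨L, hLe⟩ : ∃ L, L = Real.log x := ⟨_, rfl⟩
  rw [← hLe] at hL hx hlw ⊢
  obtain ⟨P, hP⟩ : ∃ P, P = (x : ℝ) ^ (1 / 25 : ℝ) := ⟨_, rfl⟩
  rw [← hP] at hx hw4 hp1
  obtain ⟨w, hwe⟩ : ∃ w, w = (x : ℝ) ^ η := ⟨_, rfl⟩
  rw [← hwe] at hw hlw hw4 ⊢
  have hL0 : 0 < L := by linarith
  have hL2 : 1 ≤ L ^ 2 := one_le_pow₀ hL
  have hL3 : L ^ 2 ≤ L ^ 3 := pow_le_pow_right₀ hL (by norm_num)
  have hlL : Real.log w ≤ L := by rw [hlw]; nlinarith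
  have hl := Real.log_pos hw
  have hwL : w ^ 4 * Real.log w ≤ P * L := by gcongr
  have hLP : L ^ 3 ≤ L ^ 3 * P := le_mul_of_one_le_right (by positivity) hp1
  have hTx : L ^ 2 ≤ x := by linarith
  have hG := Gam_ge hL2 hTx
  have hG0 : 0 ≤ Gam x (L ^ 2) := sum_nonneg fun n _ => gk_nonneg _ _ _
  have hPL : 1 ≤ P * L := one_le_mul_of_one_le_of_one_le hp1 hL
  have hPL3 : P * L ≤ L ^ 3 * P := by nlinarith
  have hA : 2 * w ^ 4 * Real.log w ≤ (x : ℝ) ^ (3 / 10 : ℝ) := by nlinarith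
  have hB : (2 + 2 * w ^ 4 * Real.log w) * (2 * x) ≤ Gam x (L ^ 2) * (x : ℝ) ^ (3 / 10 : ℝ) := by
    calc (2 + 2 * w ^ 4 * Real.log w) * (2 * x) ≤ (4 * (P * L)) * (2 * x) := by
          gcongr
          linarith
      _ = x / (8 * L ^ 2) * (64 * L ^ 3 * P) := by field_simp; ring
      _ ≤ _ := by gcongr
  have key : ∀ a ∈ A₁, ∀ b ∈ A₂, ∀ π ∈ tup K J Λ,
      (∑ d ∈ D0 x w, ∑ e ∈ D0 x w,
        if Y < a * (∏ i ∈ I, π i) * d ∧ a * (∏ i ∈ I, π i) * d ≤ 2 * Y then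
          gk x (L ^ 2) (a * b * (∏ i, π i) * (d * e)) else 0) ≤
        (a : ℝ)⁻¹ * (b : ℝ)⁻¹ * ((∏ i, π i : ℕ) : ℝ)⁻¹ *
          (4 * Gam x (L ^ 2) / Real.log w ^ 2) := by
    intro a ha b hb π hπ
    have ha0 : 0 < a := h1 a ha
    have hb0 : 0 < b := h2 b hb
    have hI := prod_pos_of_mem_tup hπ I
    have hU := prod_pos_of_mem_tup hπ univ
    have hW := qup_window hw hA Y (Nat.mul_pos ha0 hI)
    generalize ∏ i ∈ I, π i = u at *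
    generalize ∏ i, π i = U at *
    have ha' : (0 : ℝ) < a := by exact_mod_cast ha0
    have hb' : (0 : ℝ) < b := by exact_mod_cast hb0
    have hU' : (0 : ℝ) < U := by exact_mod_cast hU
    calc _ ≤ ∑ d ∈ D0 x w, (2 * Gam x (L ^ 2) / (a * b * U * Real.log w)) *
          (if Y < a * u * d ∧ a * u * d ≤ 2 * Y then (d : ℝ)⁻¹ else 0) := by
          refine sum_le_sum fun d hd => ?_
          have hd0 : 0 < d := (qup_mem.1 hd).1.1
          have hd' : (0 : ℝ) < d := by exact_mod_cast hd0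
          split_ifs
          · have := qup_inner (by positivity : 0 ≤ L ^ 2) hw
              (show 0 < a * b * U * d by positivity) hB (by omega)
            simp only [← mul_assoc]
            refine this.trans (le_of_eq ?_)
            push_cast
            field_simp
          · simp
      _ = (2 * Gam x (L ^ 2) / (a * b * U * Real.log w)) * ∑ d ∈ D0 x w,
          (if Y < a * u * d ∧ a * u * d ≤ 2 * Y then (d : ℝ)⁻¹ else 0) := by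
          rw [mul_sum]
      _ ≤ (2 * Gam x (L ^ 2) / (a * b * U * Real.log w)) * (2 / Real.log w) := by gcongr
      _ = _ := by field_simp; ring
  calc QY x Y (L ^ 2) K J Λ A₁ A₂ I (D0 x w) (D0 x w)
      ≤ ∑ a ∈ A₁, ∑ b ∈ A₂, ∑ π ∈ tup K J Λ, (a : ℝ)⁻¹ * (b : ℝ)⁻¹ * ((∏ i, π i : ℕ) : ℝ)⁻¹ *
          (4 * Gam x (L ^ 2) / Real.log w ^ 2) :=
        sum_le_sum fun a ha => sum_le_sum fun b hb => sum_le_sum fun π hπ => key a ha b hb π hπ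
    _ = (∑ s ∈ A₁, (s : ℝ)⁻¹) * (∑ s ∈ A₂, (s : ℝ)⁻¹) * Psi K J Λ *
          (4 * Gam x (L ^ 2) / Real.log w ^ 2) := by
        simp only [Psi, ← sum_mul, ← mul_sum]
    _ = _ := by rw [hlw]; ring

end Pool.Agent.Work.MP_82fd4a_nt.Z
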