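import Pool.Agent.Work.MP_82fd4a_nt.Z.QBil
import Pool.Agent.Work.MP_82fd4a_nt.Z.QRep
import Pool.Agent.Work.MP_82fd4a_nt.Z.Port2
import Pool.Agent.Work.MP_82fd4a_nt.SumII

/-! The bilinear part of the decomposition, for shorter intervals. -/

set_option autoImplicit false
open Filter Topology Finset

namespace Pool.Agent.Work.MP_82fd4a_nt.Z

theorem sum_GdY {η ζ : ℝ} (hη : 0 < η) (hη1 : η ≤ 1 / 100) (hζ : 0 < ζ) (k : ℕ) :
    ∃ K : ℕ, 1 ≤ K ∧ ∀ a : ℝ, 0 < a → a ≤ η → ∀ J : ℕ, (J + 1) * a ≤ 1 → ∀ N : ℕ,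
    ∀ H : ℝ, 1 ≤ H → ∃ D : ℝ, 1 ≤ D ∧ ∀ᶠ x : ℕ in atTop, ∃ S : Finset ℕ,
      (∀ s ∈ S, 1 ≤ s ∧ Real.log s ≤ a * Real.log x / 8) ∧
      0 < WW K J (a * Real.log x) S tau ∧ 1 ≤ WW K J (a * Real.log x) S tau / Real.log x ∧
      ∀ Y : ℕ, Win D x Y → ∀ (M b : ℝ) (y y' : ℕ) (𝒯 : Finset (Multiset ℕ)) (jj : Multiset ℕ → ℕ), 𝒯.card ≤ N →
      Sized x K J (a * Real.log x) S M →
      (∀ τ ∈ 𝒯, Good y y' τ ∧ τ.card ≤ k ∧ jj τ ≤ J ∧
        Dt x ((x : ℝ) ^ η) b (sel y y' τ) ⊆ D0 x ((x : ℝ) ^ η) ∧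
        Dt x ((x : ℝ) ^ η) b (τ - sel y y' τ) ⊆ D0 x ((x : ℝ) ^ η)) →
      (∀ s ∈ S, ∀ π ∈ tup K J (a * Real.log x), ∀ n ∈ Icc 1 (2 * x), Rough ((x : ℝ) ^ η) n →
        x < 2 * (s * (∏ i, π i) * n) → s * (∏ i, π i) * n ≤ 2 * x → Good y y' (ty b n) →
        ty b n ∈ 𝒯) →
      (∀ π ∈ tup K J (a * Real.log x), ∀ τ ∈ 𝒯, ∀ d ∈ Dt x ((x : ℝ) ^ η) b (sel y y' τ),
        5 * (a * Real.log x) / 4 ≤
          Real.log ((Y : ℝ) / ((d * ∏ t ∈ coarse K J (jj τ), π t : ℕ) : ℝ)) ∧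
        Real.log ((Y : ℝ) / ((d * ∏ t ∈ coarse K J (jj τ), π t : ℕ) : ℝ))
          ≤ 15 * (a * Real.log x) / 8) →
      ∀ T : ℝ, Real.log x ^ 2 ≤ T → T ≤ H * √(x : ℝ) →
      |SS x T K J (a * Real.log x) S tau (fun n => rf ((x : ℝ) ^ η) n * Gd b y y' n) / Gam x T
        - SS x (Real.log x ^ 2) K J (a * Real.log x) S tau
            (fun n => rf ((x : ℝ) ^ η) n * Gd b y y' n) / Gam x (Real.log x ^ 2)|
        ≤ ζ * WW K J (a * Real.log x) S tau / Real.log x := by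
  set ε : ℝ := min (1 / 4) (ζ * η ^ 2 / (288 * 4 ^ k * Real.exp 73)) with hεdef
  have hε : 0 < ε := lt_min (by norm_num) (by positivity)
  have hε1 : ε ≤ 1 / 4 := min_le_left _ _
  have hε2 : ε * (288 * 4 ^ k * Real.exp 73) ≤ ζ * η ^ 2 :=
    (le_div_iff₀ (by positivity)).1 (min_le_right _ _)
  obtain ⟨A, hA, K, hK, hD⟩ := divEq hε
  refine ⟨K, hK, fun a ha haη J hJ N H' hH' => ?_⟩
  obtain ⟨c, hc, hΨ⟩ := Psi_ge hK J
  have hA0 : 0 < A := by linarith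
  set ρ : ℝ := a / A with hρdef
  have hρ : 0 < ρ := by positivity
  have hρa : ρ * A = a := by rw [hρdef]; field_simp
  have hρ2 : ρ ≤ a / 2 := by nlinarith
  set e : ℝ := ζ * ρ ^ 2 * c / (8 * (16 + 2 * N) * 2 ^ k) with hedef
  have he : 0 < e := by positivity
  obtain ⟨D, hD1, hCmp⟩ := QY_compare hρ K J H' he
  obtain ⟨ε', hε', hSp⟩ := QY_sparse hρ K J hH' hD1 he
  obtain ⟨R, hR, hD'⟩ := hD (min ε' (1 / 4)) (lt_min hε' (by norm_num))
  replace hCmp := hCmp (ρ / R) (by positivity)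
  refine ⟨D, hD1, ?_⟩
  have hL : Tendsto (fun x : ℕ => Real.log x) atTop atTop :=
    Real.tendsto_log_atTop.comp tendsto_natCast_atTop_atTop
  filter_upwards [(hL.const_mul_atTop hρ).eventually hD', (hL.const_mul_atTop ha).eventually hΨ,
    hSp, hCmp, QY_long hη hη1, sum_roughH hη hη1 H', ev_sq_le 1 one_pos, ev_le_self H',
    hL.eventually_ge_atTop 2, (hL.const_mul_atTop hρ).eventually_ge_atTop 1,
    hL.eventually_ge_atTop (4 / (ρ ^ 2 * c)), eventually_ge_atTop 1]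
    with x hDx hΨx hSpx hCx hLg hRg hT0 hHx hL1 hZ1 hLc hx1
  obtain ⟨Typ, Hi, Lo, err, H⟩ := hDx
  replace hT0 : Real.log x ^ 2 ≤ H' * √(x : ℝ) :=
    (hT0.trans ((div_one _).le.trans (sqrt_cast_le x))).trans
      (le_mul_of_one_le_left (Real.sqrt_nonneg _) hH')
  set L := Real.log x with hLdef
  set Z := ρ * L with hZdef
  have hx0 : (0 : ℝ) < x := by exact_mod_cast hx1
  have hx1' : (1 : ℝ) ≤ x := by exact_mod_cast hx1
  have hL0 : 0 < L := by linarith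
  have hAZ : A * Z = a * L := by rw [hZdef, ← hρa]; ring
  have hz : (x : ℝ) ^ ρ = Real.exp Z := by
    rw [Real.rpow_def_of_pos hx0, hZdef, mul_comm]
  have hzw : Real.exp Z ≤ (x : ℝ) ^ η := by
    rw [← hz]; exact Real.rpow_le_rpow_of_exponent_le hx1' (by linarith)
  have hzR : (x : ℝ) ^ (ρ / R) ≤ Real.exp Z := by
    rw [← hz]; exact Real.rpow_le_rpow_of_exponent_le hx1' (div_le_self hρ.le hR)
  have hlz : Real.log (Real.exp Z) ≤ a * L / 2 := by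
    rw [Real.log_exp, hZdef]; nlinarith
  have hZL : Z ≤ L := by rw [hZdef]; nlinarith
  set z := Real.exp Z with hzdef
  set w := (x : ℝ) ^ η with hwdef
  set Ψ := Psi K J (a * L) with hΨdef
  have hΨ0 : 0 < Ψ := by linarith
  have hW : Z ^ 2 / 4 ≤ ∑ s ∈ Sm x z Typ, tau s / s := by
    refine typ_mass H hε1 (min_le_right _ _) (by linarith) ?_
    have : z ^ 2 ≤ x := by
      rw [hzdef, ← Real.exp_nat_mul, ← Real.exp_log hx0]
      refine Real.exp_le_exp.2 ?_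
      push_cast
      rw [hZdef]; nlinarith
    linarith
  set P : ℝ := Z ^ 2 * Ψ / (4 * L) with hPdef
  have hPW : P ≤ WW K J (a * L) (Sm x z Typ) tau / L := by
    rw [hPdef, WW, show Z ^ 2 * Ψ / (4 * L) = Z ^ 2 / 4 * Ψ / L by ring]
    gcongr
  have hP1 : ρ ^ 2 * c * L / 4 ≤ P := by
    rw [hPdef, hZdef, show (ρ * L) ^ 2 * Ψ / (4 * L) = ρ ^ 2 * Ψ * L / 4 by field_simp]
    gcongr
  have hP2 : 1 ≤ P := by
    refine le_trans ?_ hP1
    rw [div_le_iff₀ (by positivity)] at hLc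
    linarith
  refine ⟨Sm x z Typ, fun s hs => ⟨(mem_Sm.1 hs).1.1, hAZ ▸ H.size s (mem_Sm.1 hs).2.2⟩,
    ?_, hP2.trans hPW, ?_⟩
  · by_contra hc
    have : WW K J (a * L) (Sm x z Typ) tau / L ≤ 0 :=
      div_nonpos_of_nonpos_of_nonneg (not_lt.1 hc) hL0.le
    linarith
  intro Y hY M b y y' 𝒯 jj hN hSz h𝒯 hcov hwin
  set κ : ℝ := K * Real.log 2 / (a * L) with hκdef
  have hK0 : (0 : ℝ) < K := by exact_mod_cast hK
  have hl2 : (1 / 2 : ℝ) ≤ Real.log 2 := by linarith [Real.log_two_gt_d9]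
  have hκ : 0 < κ := by positivity
  have hκ1 : (K : ℝ) ≤ κ * (2 * (a * L)) := by
    rw [hκdef, show K * Real.log 2 / (a * L) * (2 * (a * L)) = K * (2 * Real.log 2) by field_simp]
    nlinarith
  have hκ2 : (K : ℝ) * (J + 1) ≤ κ * (2 * L) := by
    calc (K : ℝ) * (J + 1) ≤ κ * (2 * (a * L)) * (J + 1) := by gcongr
      _ = κ * (2 * L) * ((J + 1) * a) := by ring
      _ ≤ κ * (2 * L) * 1 := by gcongr
      _ = _ := mul_one _
  have hκ3 : (K : ℝ) ≤ κ * (2 * L) := by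
    refine le_trans ?_ hκ2
    have : (0 : ℝ) ≤ J := by positivity
    nlinarith
  have hequi : ∀ s ∈ Sm x z Typ, ∀ π ∈ tup K J (a * L), ∀ τ ∈ 𝒯,
      ∀ d ∈ Dt x w b (sel y y' τ), |∑ i : Fin K, win s (π (Sum.inl i))
        ((Y : ℝ) / ((d * ∏ t ∈ coarse K J (jj τ), π t : ℕ) : ℝ)) - κ * tau s|
        ≤ κ * tau s * err s := by
    intro s hs π hπ τ hτ d hd
    have h1 := hwin π hπ τ hτ d hd
    have h2 := H.equi s (mem_Sm.1 hs).2.1 (mem_Sm.1 hs).2.2 (fun i => π (Sum.inl i))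
      (fun i => by
        rw [hAZ]
        have := mem_Pr.1 (mem_tup.1 hπ (Sum.inl i))
        exact ⟨this.2.1.le, this.2.2⟩)
      ((Y : ℝ) / ((d * ∏ t ∈ coarse K J (jj τ), π t : ℕ) : ℝ))
      (div_pos (by exact_mod_cast hY.pos hx1) (by
        exact_mod_cast Nat.mul_pos (mem_Icc.1 (mem_filter.1 hd).1).1 (prod_pos_of_mem_tup hπ _)))
      (by rw [hAZ]; exact h1.1) (by rw [hAZ]; exact h1.2)
    rwa [hAZ] at h2
  have hD0z : ∀ d ∈ D0 x w, 1 ≤ d ∧ Rough z d := fun d hd =>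
    ⟨(mem_Icc.1 (mem_filter.1 hd).1).1,
      fun p hp hpd => hzw.trans_lt ((mem_filter.1 hd).2.1 p hp hpd)⟩
  have hD0s : D0 x w ⊆ D0 x z := fun d hd =>
    mem_filter.2 ⟨(mem_filter.1 hd).1, (hD0z d hd).2, (mem_filter.1 hd).2.2⟩
  have hinv : ∀ p : ℕ, p.Prime → (p : ℝ) ≤ (x : ℝ) ^ (ρ / R) → ∀ s, Hi (p * s) ↔ Hi s := by
    intro p hp h1
    refine H.inv p hp ?_
    have h2 : (0 : ℝ) < p := by exact_mod_cast hp.pos
    have h3 := Real.log_le_log h2 h1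
    rw [Real.log_rpow hx0] at h3
    rw [hZdef]
    calc _ ≤ _ := h3
      _ = _ := by ring
  have hall : ∑ s ∈ Sm x z fun _ => True, (s : ℝ)⁻¹ ≤ Real.exp 73 * Z := by
    refine (sum_inv_smooth z _ fun s hs => (mem_Sm.1 hs).2.1).trans ?_
    have h1 : 2 ≤ z := by linarith [Real.add_one_le_exp Z]
    have := VV_le h1
    rwa [hzdef, Real.log_exp] at this
  have hhi := H.hi (Sm x z Hi) fun s hs => (mem_Sm.1 hs).2
  have hlo : ∑ s ∈ Sm x z Lo, (s : ℝ)⁻¹ ≤ ε' * L :=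
    (H.lo (Sm x z Lo) fun s hs => (mem_Sm.1 hs).2).trans
      (mul_le_mul (min_le_left _ _) hZL (by linarith) hε'.le)
  have hL4 : 2 ≤ L ^ 2 := by nlinarith
  have hL2 : 1 ≤ L ^ 2 := by linarith
  have hΓ : ∀ T, L ^ 2 ≤ T → T ≤ H' * √(x : ℝ) → 0 < Gam x T := fun T h1 h2 =>
    Gam_pos (hL2.trans h1) (h2.trans hHx)
  set Mn : ℝ → ℝ := fun T => ∑ τ ∈ 𝒯, aco y y' τ * ∑ i : Fin K,
    QY x Y T K J (a * L) (Sm x z fun _ => True) (Sm x z fun _ => True) (part J i (jj τ))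
      (Dt x w b (sel y y' τ)) (Dt x w b (τ - sel y y' τ)) with hMn
  set β : ℝ := 4 * (ε * Z) * (Real.exp 73 * Z) * Ψ / (η * L) ^ 2 with hβ
  have hlong : ∀ (A₁ A₂ : Finset ℕ) (I : Finset (Ix K J)), (∀ s ∈ A₁, 1 ≤ s) → (∀ s ∈ A₂, 1 ≤ s) →
      (∑ s ∈ A₁, (s : ℝ)⁻¹) * (∑ s ∈ A₂, (s : ℝ)⁻¹) ≤ (ε * Z) * (Real.exp 73 * Z) →
      QY x Y (L ^ 2) K J (a * L) A₁ A₂ I (D0 x w) (D0 x w) / Gam x (L ^ 2) ≤ β := by
    intro A₁ A₂ I h1 h2 h3
    have h4 := hΓ _ le_rfl hT0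
    rw [div_le_iff₀ h4]
    refine (hLg Y K J (a * L) A₁ A₂ I h1 h2).trans ?_
    calc _ = 4 * ((∑ s ∈ A₁, (s : ℝ)⁻¹) * (∑ s ∈ A₂, (s : ℝ)⁻¹)) * Ψ / (η * L) ^ 2 *
          Gam x (L ^ 2) := by ring
      _ ≤ 4 * ((ε * Z) * (Real.exp 73 * Z)) * Ψ / (η * L) ^ 2 * Gam x (L ^ 2) := by gcongr
      _ = _ := by rw [hβ]; ring
  have hn : ∀ U : ℕ → Prop, 0 ≤ ∑ s ∈ Sm x z U, (s : ℝ)⁻¹ :=
    fun U => sum_nonneg fun _ _ => by positivity
  have h1s : ∀ U : ℕ → Prop, ∀ s ∈ Sm x z U, 1 ≤ s := fun U s hs => (mem_Sm.1 hs).1.1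
  have hsm : ∀ U : ℕ → Prop, ∀ s ∈ Sm x z U, Smooth z s := fun U s hs => (mem_Sm.1 hs).2.1
  have key : ∀ T, L ^ 2 ≤ T → T ≤ H' * √(x : ℝ) →
      |SS x T K J (a * L) (Sm x z Typ) tau (fun n => rf w n * Gd b y y' n) / Gam x T
        - Mn T / Gam x T / κ| ≤ ζ * P / 4 + 8 * 2 ^ k * L * e := by
    intro T h1 h2
    have hG := hΓ T h1 h2
    have r1 := QY_replace (Y := Y) (T := T) hκ.le Typ Hi Lo err H.err_nonneg H.mul 𝒯 jj h𝒯 hcov hequi
    have r2 := hRg K J (a * L) M (Sm x z Typ) (fun s => tau s * err s) hSz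
      (fun s => mul_nonneg (tau_nonneg s) (H.err_nonneg s)) T (hL2.trans h1) h2
    have r3 : WW K J (a * L) (Sm x z Typ) (fun s => tau s * err s) ≤ ε * Z ^ 2 * Ψ :=
      mul_le_mul_of_nonneg_right (H.mean _ fun s hs => (mem_Sm.1 hs).2) hΨ0.le
    have r4 : ∀ (i : Fin K) (j : ℕ),
        QY x Y T K J (a * L) (Sm x z Hi) (Sm x z fun _ => True) (part J i j) (D0 x w) (D0 x w)
        + QY x Y T K J (a * L) (Sm x z fun _ => True) (Sm x z Hi) (part J i j) (D0 x w) (D0 x w)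
        + QY x Y T K J (a * L) (Sm x z Lo) (Sm x z fun _ => True) (part J i j) (D0 x w) (D0 x w)
        + QY x Y T K J (a * L) (Sm x z fun _ => True) (Sm x z Lo) (part J i j) (D0 x w) (D0 x w)
        ≤ (4 * e + 2 * β) * Gam x T := by
      intro i j
      have a1 := (abs_le.1 (hCx Y hY (a * L) z _ (fun _ => True) (part J i j) _ _ hz.le hzR hlz
        (h1s Hi) hD0z hD0z (fun _ _ _ _ => Iff.rfl) T (L ^ 2) (hL4.trans h1) h2 hL4 hT0)).2
      have a2 := (abs_le.1 (hCx Y hY (a * L) z _ Hi (part J i j) _ _ hz.le hzR hlz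
        (h1s fun _ => True) hD0z hD0z hinv T (L ^ 2) (hL4.trans h1) h2 hL4 hT0)).2
      have a3 := hlong _ _ (part J i j) (h1s Hi) (h1s fun _ => True)
        (mul_le_mul hhi hall (hn _) (by positivity))
      have a4 := hlong _ _ (part J i j) (h1s fun _ => True) (h1s Hi)
        (by rw [mul_comm]; exact mul_le_mul hhi hall (hn _) (by positivity))
      have a5 := hSpx Y hY (a * L) z _ _ (part J i j) _ _ hz.le hlz hD0s hD0s (hsm Lo)
        (hsm fun _ => True) (Or.inl hlo) T (hL4.trans h1) h2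
      have a6 := hSpx Y hY (a * L) z _ _ (part J i j) _ _ hz.le hlz hD0s hD0s (hsm fun _ => True)
        (hsm Lo) (Or.inr hlo) T (hL4.trans h1) h2
      have a7 := (div_le_iff₀ hG).1 ((sub_le_iff_le_add.1 a1).trans (add_le_add le_rfl a3))
      have a8 := (div_le_iff₀ hG).1 ((sub_le_iff_le_add.1 a2).trans (add_le_add le_rfl a4))
      linarith only [a5, a6, a7, a8]
    have r5 := sum_le_card_nsmul (univ : Finset (Fin K)) _ _ fun i _ =>
      sum_le_card_nsmul (range (J + 1)) _ _ fun j _ => r4 i j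
    rw [card_univ, Fintype.card_fin, card_range, nsmul_eq_mul, nsmul_eq_mul] at r5
    push_cast at r5
    have hβ0 : 0 ≤ β := by positivity
    have r6 : (K : ℝ) * ((J + 1) * ((4 * e + 2 * β) * Gam x T))
        ≤ κ * (2 * L) * ((4 * e + 2 * β) * Gam x T) := by
      rw [← mul_assoc]; gcongr
    have r7 : 2 * Gam x T * WW K J (a * L) (Sm x z Typ) (fun s => tau s * err s) / (η * L)
        ≤ 2 * Gam x T * (ε * Z ^ 2 * Ψ) / (η * L) := by gcongr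
    have r8 : |κ * SS x T K J (a * L) (Sm x z Typ) tau (fun n => rf w n * Gd b y y' n) - Mn T|
        ≤ 4 ^ k * κ * (2 * Gam x T * (ε * Z ^ 2 * Ψ) / (η * L))
          + 2 ^ k * (κ * (2 * L) * ((4 * e + 2 * β) * Gam x T)) :=
      r1.trans (add_le_add (mul_le_mul_of_nonneg_left (r2.trans r7) (by positivity))
        (mul_le_mul_of_nonneg_left (r5.trans r6) (by positivity)))
    have e1 : SS x T K J (a * L) (Sm x z Typ) tau (fun n => rf w n * Gd b y y' n) / Gam x T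
        - Mn T / Gam x T / κ = (κ * SS x T K J (a * L) (Sm x z Typ) tau
          (fun n => rf w n * Gd b y y' n) - Mn T) / (κ * Gam x T) := by field_simp
    rw [e1, abs_div, abs_of_pos (mul_pos hκ hG), div_le_iff₀ (mul_pos hκ hG)]
    refine r8.trans ?_
    have e2 : 4 ^ k * κ * (2 * Gam x T * (ε * Z ^ 2 * Ψ) / (η * L))
          + 2 ^ k * (κ * (2 * L) * ((4 * e + 2 * β) * Gam x T))
        = ((8 * 4 ^ k * η + 64 * 2 ^ k * Real.exp 73) * ε / η ^ 2 * P + 8 * 2 ^ k * L * e) *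
          (κ * Gam x T) := by
      rw [hβ, hPdef]; field_simp; ring
    rw [e2]
    refine mul_le_mul_of_nonneg_right (add_le_add ?_ le_rfl) (mul_pos hκ hG).le
    have b1 : (2 : ℝ) ^ k ≤ 4 ^ k := pow_le_pow_left₀ (by norm_num) (by norm_num) k
    have b2 : η ≤ Real.exp 73 := by linarith [Real.add_one_le_exp 73]
    have b3 : 8 * 4 ^ k * η + 64 * 2 ^ k * Real.exp 73 ≤ 72 * 4 ^ k * Real.exp 73 := by
      have c1 : (4 : ℝ) ^ k * η ≤ 4 ^ k * Real.exp 73 := by gcongr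
      have c2 : (2 : ℝ) ^ k * Real.exp 73 ≤ 4 ^ k * Real.exp 73 := by gcongr
      linarith only [c1, c2]
    have b4 : (8 * 4 ^ k * η + 64 * 2 ^ k * Real.exp 73) * ε / η ^ 2 ≤ ζ / 4 := by
      rw [div_le_iff₀ (by positivity)]
      have := mul_le_mul_of_nonneg_right b3 hε.le
      linarith only [this, hε2]
    calc _ ≤ ζ / 4 * P := mul_le_mul_of_nonneg_right b4 (by linarith)
      _ = _ := by ring
  intro T h1 h2
  have hG := hΓ T h1 h2
  have hG0 := hΓ _ le_rfl hT0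
  have m1 : |Mn T / Gam x T - Mn (L ^ 2) / Gam x (L ^ 2)| ≤ N * (2 ^ k * (K * e)) := by
    simp only [hMn]
    rw [sum_div, sum_div, ← sum_sub_distrib]
    refine (abs_sum_le_sum_abs _ _).trans ?_
    refine (sum_le_card_nsmul _ _ (2 ^ k * (K * e)) fun τ hτ => ?_).trans ?_
    · rw [mul_div_assoc, mul_div_assoc, ← mul_sub, abs_mul, sum_div, sum_div, ← sum_sub_distrib]
      obtain ⟨_, t2, _, t4, t5⟩ := h𝒯 τ hτ
      refine mul_le_mul ((abs_aco_le _ _ _).trans (pow_le_pow_right₀ (by norm_num) t2))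
        ((abs_sum_le_sum_abs _ _).trans ?_) (abs_nonneg _) (by positivity)
      have := sum_le_card_nsmul (univ : Finset (Fin K)) _ _ fun i _ =>
        hCx Y hY (a * L) z _ (fun _ => True) (part J i (jj τ)) _ _ hz.le hzR hlz
          (h1s fun _ => True) (fun d hd => hD0z d (t4 hd)) (fun d hd => hD0z d (t5 hd))
          (fun _ _ _ _ => Iff.rfl) T (L ^ 2) (hL4.trans h1) h2 hL4 hT0
      rwa [card_univ, Fintype.card_fin, nsmul_eq_mul] at this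
    · rw [nsmul_eq_mul]
      gcongr
  have m2 : |Mn T / Gam x T / κ - Mn (L ^ 2) / Gam x (L ^ 2) / κ| ≤ 2 * N * 2 ^ k * L * e := by
    rw [← sub_div, abs_div, abs_of_pos hκ, div_le_iff₀ hκ]
    refine m1.trans ?_
    calc (N : ℝ) * (2 ^ k * (K * e)) ≤ N * (2 ^ k * (κ * (2 * L) * e)) := by gcongr
      _ = _ := by ring
  have m3 : (16 + 2 * N) * 2 ^ k * L * e ≤ ζ * P / 2 := by
    have : (16 + 2 * N) * 2 ^ k * L * e = ζ * (ρ ^ 2 * c * L / 4) / 2 := by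
      rw [hedef]; field_simp; ring
    rw [this]; gcongr
  have m4 : ζ * P ≤ ζ * WW K J (a * L) (Sm x z Typ) tau / L := by
    rw [mul_div_assoc]; gcongr
  have k1 := abs_le.1 (key T h1 h2)
  have k2 := abs_le.1 (key _ le_rfl hT0)
  have k3 := abs_le.1 m2
  rw [abs_le]
  constructor <;> linarith only [k1.1, k1.2, k2.1, k2.2, k3.1, k3.2, m3, m4]

end Pool.Agent.Work.MP_82fd4a_nt.Z
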