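import Pool.Agent.Work.MP_82fd4a_nt.Z.Defs
import Pool.Agent.Work.MP_ca0f09_nt.Construct

/-! Two point correlations of complex families. -/

set_option autoImplicit false
open Filter Topology Finset

namespace Pool.Agent.Work.MP_82fd4a_nt.Z

open Pool.Agent.Work.MP_ca0f09_nt

theorem Det_fill {h : ℕ} {ε C Q₀ ε' : ℝ} (σ : Sys h 1 ε C Q₀) (hε' : 0 < ε') (hQ : 2 ≤ Q₀)
    {s : Finset ℕ} (hs : s ∈ σ.Ed.image Prod.snd) {M : ℕ} {F G : ℕ → ℂ} (hF : ∀ n, ‖F n‖ ≤ 1)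
    (hc : ∃ c : ℂ, ‖c‖ ≤ 1 ∧ ∀ m, G (pr s * m) = c * G m)
    (hfree : ∑ m ∈ range (cd M (pr s)), ‖∑ p ∈ σ.fib s, ((1 / (p : ℝ) : ℝ) : ℂ) * G (m + h * p)‖ ≤
      ε' * cd M (pr s) / Real.log (σ.D / pr s)) :
    |∑ n ∈ range M, ind (pr s) n *
        ∑ p ∈ σ.fib s, (1 / (p : ℝ)) * (F n * G (n + h * (p * pr s))).re| ≤
      M * ε' * (1 / (pr s * Real.log (σ.D / pr s))) + ε' / Real.log (σ.D / pr s) := by
  obtain ⟨τ, hτ, rfl⟩ := mem_image.1 hs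
  obtain ⟨c, hc, hinv⟩ := hc
  have he : 0 < pr τ.2 := prod_primes_pos (σ.prime2 hτ)
  have he' : (0 : ℝ) < pr τ.2 := by exact_mod_cast he
  have hlog : 0 < Real.log (σ.D / pr τ.2) := Real.log_pos (by linarith [σ.hQ τ hτ])
  rw [sum_ind_mul he]
  have hX := cd_le (M := M) he
  refine (abs_sum_le_sum_abs _ _).trans ((sum_le_sum fun m _ => ?_).trans (hfree.trans ?_))
  · have e : ∑ p ∈ σ.fib τ.2, (1 / (p : ℝ)) *
        (F (pr τ.2 * m) * G (pr τ.2 * m + h * (p * pr τ.2))).re = (F (pr τ.2 * m) * c *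
          ∑ p ∈ σ.fib τ.2, ((1 / (p : ℝ) : ℝ) : ℂ) * G (m + h * p)).re := by
      rw [mul_sum, Complex.re_sum]
      refine sum_congr rfl fun p _ => ?_
      rw [show pr τ.2 * m + h * (p * pr τ.2) = pr τ.2 * (m + h * p) by ring, hinv,
        ← Complex.re_ofReal_mul]
      congr 1
      ring
    rw [e]
    refine (Complex.abs_re_le_norm _).trans ?_
    rw [norm_mul, norm_mul]
    exact mul_le_of_le_one_left (norm_nonneg _) (mul_le_one₀ (hF _) (norm_nonneg _) hc)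
  · calc _ ≤ ε' * (M / pr τ.2 + 1) / Real.log (σ.D / pr τ.2) := by gcongr
      _ = _ := by field_simp

theorem Det_free {h : ℕ} {ε C Q₀ ε' : ℝ} (σ : Sys h 1 ε C Q₀) (hε1 : ε ≤ 1) {τ : ℕ × Finset ℕ}
    (hτ : τ ∈ σ.Ed) (hQ2 : (2 : ℝ) ≤ σ.D / pr τ.2) {g : ℕ → ℝ} {N M k : ℕ}
    (hN : ∀ T : Finset ℕ, (∀ p ∈ T, p.Prime ∧ (σ.D : ℝ) / pr τ.2 ≤ p ∧
      (p : ℝ) ≤ 2 * (σ.D / pr τ.2)) → ∀ c : ℕ → ℝ, (∀ p, |c p| ≤ 1) → ∀ X : ℕ, N ≤ X →
      X ≤ σ.D * k * N → ∑ m ∈ range X, |∑ p ∈ T, c p * g (m + h * p)| ≤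
        ε' * X * (σ.D / pr τ.2) / Real.log (σ.D / pr τ.2)) (m1 : N ≤ M) (m2 : M ≤ k * N) :
    ∑ m ∈ range (cd (σ.D * M) (pr τ.2)), |∑ p ∈ σ.fib τ.2, (1 / (p : ℝ)) * g (m + h * p)| ≤
      ε' * cd (σ.D * M) (pr τ.2) / Real.log (σ.D / pr τ.2) := by
  have he : 0 < pr τ.2 := prod_primes_pos (σ.prime2 hτ)
  have he' : (0 : ℝ) < pr τ.2 := by exact_mod_cast he
  have heD : pr τ.2 ≤ σ.D := by
    rw [le_div_iff₀ he'] at hQ2
    exact_mod_cast (show (pr τ.2 : ℝ) ≤ σ.D by linarith)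
  set Q : ℝ := σ.D / pr τ.2
  have hQ0 : 0 < Q := by linarith
  have h1 := hN (σ.fib τ.2) (fun p hp => σ.fib_bounds hε1 hp)
    (fun p => if p ∈ σ.fib τ.2 then Q / p else 0) (fun p => by
      split_ifs with hp
      · have h1 := (σ.fib_bounds hε1 hp).2.1
        rw [abs_of_nonneg (by positivity), div_le_one (by linarith)]
        exact h1
      · simp) (cd (σ.D * M) (pr τ.2)) (m1.trans (by
        by_contra hlt
        have h2 := le_cd (M := σ.D * M) he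
        have h3 := Nat.mul_lt_mul_of_le_of_lt heD (not_le.1 hlt) (by omega)
        omega)) (le_trans (by
        by_contra hlt
        have h2 := (lt_cd he).1 (not_le.1 hlt)
        have h3 : σ.D * M ≤ pr τ.2 * (σ.D * M) := Nat.le_mul_of_pos_left _ he
        omega) ((Nat.mul_le_mul_left σ.D m2).trans_eq (mul_assoc _ _ _).symm))
  have h2 : ∀ m : ℕ, |∑ p ∈ σ.fib τ.2, (if p ∈ σ.fib τ.2 then Q / p else 0) * g (m + h * p)| =
      Q * |∑ p ∈ σ.fib τ.2, (1 / (p : ℝ)) * g (m + h * p)| := fun m => by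
    rw [← abs_of_pos hQ0, ← abs_mul, abs_of_pos hQ0, mul_sum]
    congr 1
    refine sum_congr rfl fun p hp => ?_
    rw [if_pos hp]
    ring
  simp only [h2] at h1
  rw [← mul_sum] at h1
  exact le_of_mul_le_mul_left (h1.trans_eq (by ring)) hQ0

theorem detC {h : ℕ} {ε C Q₀ : ℝ} (σ : Sys h 1 ε C Q₀) (hh : 1 ≤ h) (hε : 0 < ε) (hε1 : ε ≤ 1)
    (hC : 0 < C) (hQ : 2 ≤ Q₀) :
    ∃ C₀ : ℝ, ∀ N : ℕ, ∀ F G : ℕ → ℂ, (∀ n, ‖F n‖ ≤ 1) → (∀ n, ‖G n‖ ≤ 1) →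
      (∀ τ ∈ σ.Ed, ∀ m k, F (τ.1 * pr τ.2 * m) * G (τ.1 * pr τ.2 * k) = F m * G k) →
      (∀ s ∈ σ.Ed.image Prod.snd, ∃ c : ℂ, ‖c‖ ≤ 1 ∧ ∀ m, G (pr s * m) = c * G m) →
      (∀ s ∈ σ.Ed.image Prod.snd, ∑ m ∈ range (cd (σ.D * N) (pr s)),
        ‖∑ p ∈ σ.fib s, ((1 / (p : ℝ) : ℝ) : ℂ) * G (m + h * p)‖ ≤
          ε / C * cd (σ.D * N) (pr s) / Real.log (σ.D / pr s)) →
      |(∑ n ∈ range N, F n * G (n + h)).re| ≤ (192 * (2 * h + 1) + 16) * ε * N + C₀ := by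
  obtain ⟨C₀, h0⟩ := σ.s1_sub_s2 hh hε1
  obtain ⟨C₁, h1⟩ := exists_fin_bound σ.Ed _ fun τ hτ => σ.s1_edge hε hτ
  have hD : (0 : ℝ) < σ.D := by exact_mod_cast σ.hD
  have htot : 0 < σ.tot := σ.hTot
  have hw : σ.D * σ.tot ≤ ∑ τ ∈ σ.Ed, σ.w τ.2 := by
    unfold Sys.tot
    rw [mul_sum]
    refine sum_le_sum fun τ hτ => ?_
    have h3 : (σ.D : ℝ) ≤ τ.1 * pr τ.2 := by exact_mod_cast (σ.hEd τ hτ).2.2.1
    rw [← mul_div_assoc, div_le_iff₀ (by linarith), mul_comm]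
    exact mul_le_mul_of_nonneg_left h3 (σ.hw _)
  set Sw := ∑ τ ∈ σ.Ed, σ.w τ.2 with hSw
  have hSw0 : 0 < Sw := lt_of_lt_of_le (by positivity) hw
  set C₂ := ∑ s ∈ σ.Ed.image Prod.snd, σ.w s * (ε / C / Real.log (σ.D / pr s)) with hC₂
  refine ⟨(2 * C₀ + ∑ τ ∈ σ.Ed, σ.w τ.2 * C₁ τ + C₂) / Sw, fun N F G hF hG inv1 inv2 hfree => ?_⟩
  have k0 := h0 (fun z => (F z.toNat).re) (fun z => (G z.toNat).re)
    (fun _ => (Complex.abs_re_le_norm _).trans (hF _))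
    (fun _ => (Complex.abs_re_le_norm _).trans (hG _)) (σ.D * N)
  have k0' := h0 (fun z => (F z.toNat).im) (fun z => (G z.toNat).im)
    (fun _ => (Complex.abs_im_le_norm _).trans (hF _))
    (fun _ => (Complex.abs_im_le_norm _).trans (hG _)) (σ.D * N)
  have b1 : ∀ n k, |(F n * G k).re| ≤ 1 := fun n k => (Complex.abs_re_le_norm _).trans (by
    rw [norm_mul]
    exact mul_le_one₀ (hF _) (norm_nonneg _) (hG _))
  rw [Complex.re_sum]
  set A := ∑ n ∈ range N, (F n * G (n + h)).re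
  have k1 : |∑ n ∈ range (σ.D * N), σ.s1 (fun z => (F z.toNat).re) (fun z => (G z.toNat).re) n -
      ∑ n ∈ range (σ.D * N), σ.s1 (fun z => (F z.toNat).im) (fun z => (G z.toNat).im) n - Sw * A| ≤
      Sw * (5 * ε * N) + ∑ τ ∈ σ.Ed, σ.w τ.2 * C₁ τ := by
    unfold Sys.s1
    rw [sum_comm, sum_comm (s := range _), hSw, sum_mul, sum_mul, ← sum_sub_distrib,
      ← sum_sub_distrib, ← sum_add_distrib]
    refine (abs_sum_le_sum_abs _ _).trans (sum_le_sum fun τ hτ => ?_)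
    rw [← mul_sum, ← mul_sum, ← mul_sub, ← mul_sub, abs_mul, abs_of_nonneg (σ.hw _), ← mul_add]
    refine mul_le_mul_of_nonneg_left (le_trans (le_of_eq ?_) (h1 τ hτ N
      (fun n => (F n * G (n + h)).re) (fun n => (F n * G (n + Sys.lg h τ)).re) (fun _ => b1 _ _)
      (fun _ => b1 _ _) fun m _ _ => by
        rw [← inv1 τ hτ m (m + h), mul_add, mul_comm _ h]
        rfl)) (σ.hw _)
    congr 2
    rw [← sum_sub_distrib]
    refine sum_congr rfl fun n _ => ?_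
    simp only [σ.ind_mul_ind hτ, ← Nat.cast_add, Int.toNat_natCast, Complex.mul_re]
    ring
  have k2 : |∑ n ∈ range (σ.D * N), σ.s2 (fun z => (F z.toNat).re) (fun z => (G z.toNat).re) n -
      ∑ n ∈ range (σ.D * N), σ.s2 (fun z => (F z.toNat).im) (fun z => (G z.toNat).im) n| ≤
      (σ.D * N : ℕ) * (ε * σ.tot) + C₂ := by
    have e1 : ∑ n ∈ range (σ.D * N), σ.s2 (fun z => (F z.toNat).re) (fun z => (G z.toNat).re) n -
        ∑ n ∈ range (σ.D * N), σ.s2 (fun z => (F z.toNat).im) (fun z => (G z.toNat).im) n =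
        ∑ s ∈ σ.Ed.image Prod.snd, σ.w s * ∑ n ∈ range (σ.D * N), ind (pr s) n *
          ∑ p ∈ σ.fib s, (1 / (p : ℝ)) * (F n * G (n + h * (p * pr s))).re := by
      simp only [mul_sum]
      rw [sum_comm, ← sum_sub_distrib]
      refine sum_congr rfl fun n _ => ?_
      unfold Sys.s2
      rw [← sum_sub_distrib, ← sum_fiberwise_of_maps_to (g := Prod.snd)
        (t := σ.Ed.image Prod.snd) (fun τ hτ => mem_image_of_mem _ hτ)]
      refine sum_congr rfl fun s _ => ?_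
      rw [σ.sum_fib]
      refine sum_congr rfl fun p _ => ?_
      simp only [Sys.lg]
      rw [← Nat.cast_add, Int.toNat_natCast, Int.toNat_natCast, Complex.mul_re]
      ring
    rw [e1]
    refine (abs_sum_le_sum_abs _ _).trans ((sum_le_sum fun s hs =>
      (le_of_eq (by rw [abs_mul, abs_of_nonneg (σ.hw s)])).trans
        (mul_le_mul_of_nonneg_left (Det_fill σ (div_pos hε hC) hQ hs hF (inv2 s hs) (hfree s hs))
          (σ.hw s))).trans ?_)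
    simp only [mul_add, mul_left_comm (σ.w _) (_ * (ε / C))]
    simp only [mul_one_div]
    rw [sum_add_distrib, ← mul_sum]
    have k3 := mul_le_mul_of_nonneg_left σ.free
      (by positivity : (0 : ℝ) ≤ ((σ.D * N : ℕ) : ℝ) * (ε / C))
    have e4 : ((σ.D * N : ℕ) : ℝ) * (ε / C) * (C * σ.tot) = ((σ.D * N : ℕ) : ℝ) * (ε * σ.tot) := by
      field_simp
    change _ ≤ ((σ.D * N : ℕ) : ℝ) * (ε / C) * (C * σ.tot) at k3
    linarith
  have k3 : Sw * |A| ≤ (192 * (2 * h + 1) + 9) * ε * N * (σ.D * σ.tot) + Sw * (5 * ε * N) +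
      (2 * C₀ + ∑ τ ∈ σ.Ed, σ.w τ.2 * C₁ τ + C₂) := by
    rw [← abs_of_pos hSw0, ← abs_mul, abs_of_pos hSw0]
    have l0 := abs_le.1 k0
    have l0' := abs_le.1 k0'
    have l1 := abs_le.1 k1
    have l2 := abs_le.1 k2
    push_cast at l0 l0' l2
    rw [abs_le]
    constructor <;> linarith [l0.1, l0.2, l0'.1, l0'.2, l1.1, l1.2, l2.1, l2.2]
  have k4 := mul_le_mul_of_nonneg_left hw
    (by positivity : (0 : ℝ) ≤ (192 * (2 * h + 1) + 9) * ε * N)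
  have k5 : 0 ≤ Sw * (ε * N) := by positivity
  rw [← sub_le_iff_le_add', le_div_iff₀ hSw0]
  linarith

theorem transferC (h : ℕ) (hh : 1 ≤ h) (F G : ℕ → ℕ → ℂ) (hF : ∀ N n, ‖F N n‖ ≤ 1)
    (hG : ∀ N n, ‖G N n‖ ≤ 1)
    (inv1 : ∀ d : ℕ, 0 < d → ∀ᶠ N : ℕ in atTop, ∀ m k,
      F N (d * m) * G N (d * k) = F N m * G N k)
    (inv2 : ∀ d : ℕ, 0 < d → ∀ᶠ N : ℕ in atTop, ∃ c : ℂ, ‖c‖ ≤ 1 ∧
      ∀ m, G N (d * m) = c * G N m)
    (hre : FreeFam fun N n => (G N n).re) (him : FreeFam fun N n => (G N n).im)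
    (k : ℕ) {ε : ℝ} (hε : 0 < ε) : ∀ᶠ N : ℕ in atTop, ∀ M : ℕ, N ≤ M → M ≤ k * N →
      ‖∑ n ∈ range M, F N n * G N (n + h)‖ ≤ ε * N := by
  set κ : ℝ := (192 * (2 * h + 1) + 16) * (k + 1) with hκ
  have hκ0 : 0 < κ := by positivity
  set η : ℝ := min 1 (ε / (4 * κ)) with hη
  have η0 : 0 < η := lt_min one_pos (by positivity)
  have η1 : η ≤ 1 := min_le_left _ _
  have η2 : κ * η ≤ ε / 4 :=
    (mul_le_mul_of_nonneg_left (min_le_right _ _) hκ0.le).trans_eq (by field_simp)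
  obtain ⟨C, hC, hσ⟩ := exists_sys h 1 hh le_rfl η η0 η1
  obtain ⟨Q₁, hQ₁⟩ := hre h hh (η / C / 2) (by positivity)
  obtain ⟨Q₂, hQ₂⟩ := him h hh (η / C / 2) (by positivity)
  obtain ⟨σ⟩ := hσ (max (max Q₁ Q₂) 2)
  obtain ⟨C₀, hdet⟩ := detC σ hh η0 η1 hC (le_max_right _ _)
  have e1 := (Finset.eventually_all σ.Ed).2 fun τ hτ =>
    inv1 (τ.1 * pr τ.2) (σ.hD.trans (σ.hEd τ hτ).2.2.1)
  have e2 := (Finset.eventually_all (σ.Ed.image Prod.snd)).2 fun s hs => inv2 (pr s) (by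
    obtain ⟨τ, hτ, rfl⟩ := mem_image.1 hs
    exact prod_primes_pos (σ.prime2 hτ))
  have e3 : ∀ᶠ N : ℕ in atTop, ∀ s ∈ σ.Ed.image Prod.snd, ∀ M, N ≤ M → M ≤ k * N →
      ∑ m ∈ range (cd (σ.D * M) (pr s)),
        ‖∑ p ∈ σ.fib s, ((1 / (p : ℝ) : ℝ) : ℂ) * G N (m + h * p)‖ ≤
          η / C * cd (σ.D * M) (pr s) / Real.log (σ.D / pr s) := by
    refine (Finset.eventually_all _).2 fun s hs => ?_
    obtain ⟨τ, hτ, rfl⟩ := mem_image.1 hs
    have hQ := σ.hQ τ hτ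
    have q2 := (le_max_right _ _).trans hQ
    filter_upwards [hQ₁ _ ((le_max_left _ _).trans ((le_max_left _ _).trans hQ)) (σ.D * k),
      hQ₂ _ ((le_max_right _ _).trans ((le_max_left _ _).trans hQ)) (σ.D * k)] with N n1 n2 M m1 m2
    have a1 := Det_free (g := fun n => (G N n).re) σ η1 hτ q2 n1 m1 m2
    have a2 := Det_free (g := fun n => (G N n).im) σ η1 hτ q2 n2 m1 m2
    refine (sum_le_sum fun m _ => Complex.norm_le_abs_re_add_abs_im _).trans ?_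
    simp only [Complex.re_sum, Complex.im_sum, Complex.re_ofReal_mul, Complex.im_ofReal_mul]
    rw [sum_add_distrib]
    exact (add_le_add a1 a2).trans_eq (by ring)
  filter_upwards [e1, e2, e3, tendsto_natCast_atTop_atTop.eventually_ge_atTop (4 * C₀ / ε)]
    with N n1 n2 n3 n4 M m1 m2
  have h1 := hdet M (F N) (G N) (hF N) (hG N) n1 n2 fun s hs => n3 s hs M m1 m2
  have h2 := hdet M (fun n => -Complex.I * F N n) (G N) (fun n => by simpa using hF N n) (hG N)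
    (fun τ hτ m j => by rw [mul_assoc, n1 τ hτ, mul_assoc]) n2 fun s hs => n3 s hs M m1 m2
  simp only [mul_assoc (-Complex.I), ← mul_sum] at h2
  rw [neg_mul, Complex.neg_re, Complex.I_mul_re, neg_neg] at h2
  have h3 : (M : ℝ) ≤ (k + 1) * N := by exact_mod_cast m2.trans (by nlinarith)
  have h4 := mul_le_mul_of_nonneg_left h3 (by positivity : (0 : ℝ) ≤ (192 * (2 * h + 1) + 16) * η)
  have h5 := mul_le_mul_of_nonneg_right η2 (Nat.cast_nonneg (α := ℝ) N)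
  rw [div_le_iff₀ hε] at n4
  rw [hκ] at h5
  linarith [Complex.norm_le_abs_re_add_abs_im (∑ n ∈ range M, F N n * G N (n + h))]

end Pool.Agent.Work.MP_82fd4a_nt.Z
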