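import Pool.Agent.Work.MP_82fd4a_nt.Z.Defs

/-! A trigonometric majorant of bounded degree. -/

set_option autoImplicit false
open Filter Topology Finset

namespace Pool.Agent.Work.MP_82fd4a_nt.Z

open Pool.Agent.Lib.MR

lemma Major_ce0 : ce 0 = 1 := by simp [ce]

lemma Major_pow (a : ℝ) (r : ℕ) : ce (r * a) = ce a ^ r := by
  induction r with
  | zero => simp [Major_ce0]
  | succ r ih => rw [Nat.cast_succ, add_mul, one_mul, ce_add, ih, pow_succ]

lemma Major_rho {R : ℕ} (hR : 1 ≤ R) : 0 ≤ 1 - 1 / (R : ℝ) ∧ 1 - 1 / (R : ℝ) ≤ 1 :=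
  ⟨sub_nonneg.2 ((div_le_one (by exact_mod_cast hR)).2 (by exact_mod_cast hR)),
    sub_le_self _ (by positivity)⟩

lemma Major_sq (R : ℕ) (θ : ℝ) : ((‖gs R θ‖ ^ 2 : ℝ) : ℂ) = ∑ r ∈ range R, ∑ r' ∈ range R,
    (((1 - 1 / (R : ℝ)) ^ r * (1 - 1 / (R : ℝ)) ^ r' : ℝ) : ℂ) *
      ce (2 * Real.pi * ((r : ℝ) - r') * θ) := by
  rw [Complex.ofReal_pow, ← Complex.mul_conj', gs, map_sum, sum_mul_sum]
  refine sum_congr rfl fun r _ => sum_congr rfl fun r' _ => ?_
  rw [map_mul, conj_ce, Complex.conj_ofReal, mul_mul_mul_comm, ← ce_add, ← Complex.ofReal_mul]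
  congr 2
  ring

theorem gs_lower {R : ℕ} (hR : 1 ≤ R) (θ : ℝ) (k : ℤ) :
    (R : ℝ) ^ 2 / (4 * (1 + 2 * Real.pi * R * |θ - k|) ^ 2) ≤ ‖gs R θ‖ ^ 2 := by
  have R0 : (0 : ℝ) < R := by exact_mod_cast hR
  obtain ⟨ρ0, ρ1⟩ := Major_rho hR
  obtain ⟨z, hz⟩ : ∃ z : ℂ, z = ((1 - 1 / (R : ℝ) : ℝ) : ℂ) * ce (2 * Real.pi * θ) := ⟨_, rfl⟩
  have e : (1 - z) * gs R θ = 1 - z ^ R := by
    rw [← mul_neg_geom_sum, gs]
    refine congrArg _ (sum_congr rfl fun r _ => ?_)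
    rw [hz, mul_pow, ← Major_pow, Complex.ofReal_pow]
    congr 2
    ring
  have h1 : 1 / 2 ≤ ‖1 - z ^ R‖ := by
    have a := norm_sub_norm_le 1 (z ^ R)
    have b : (1 - 1 / (R : ℝ)) ^ R ≤ Real.exp (-1) :=
      Real.one_sub_div_pow_le_exp_neg (by exact_mod_cast hR)
    have c : Real.exp (-1) ≤ 1 / 2 := by
      rw [Real.exp_neg, ← one_div]
      exact one_div_le_one_div_of_le two_pos (by linarith [Real.add_one_le_exp 1])
    rw [norm_one, norm_pow, hz, norm_mul, norm_ce, mul_one, Complex.norm_real,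
      Real.norm_of_nonneg ρ0, ← hz] at a
    linarith
  have h2 : ‖1 - z‖ ≤ 1 / R + 2 * Real.pi * |θ - k| := by
    have a : ce (2 * Real.pi * k) = 1 := by
      rw [ce, ← Complex.exp_int_mul_two_pi_mul_I k]
      congr 1
      push_cast
      ring
    have b : 1 - z = ((1 / (R : ℝ) : ℝ) : ℂ) + ((1 - 1 / (R : ℝ) : ℝ) : ℂ) *
        (ce (2 * Real.pi * k) - ce (2 * Real.pi * θ)) := by
      rw [hz, a]
      push_cast
      ring
    have c := norm_ce_sub (2 * Real.pi * k) (2 * Real.pi * θ)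
    rw [← mul_sub, abs_mul, abs_sub_comm, abs_of_pos Real.two_pi_pos] at c
    rw [b]
    refine (norm_add_le _ _).trans (add_le_add ?_ ?_)
    · rw [Complex.norm_real, Real.norm_of_nonneg (by positivity)]
    · rw [norm_mul, Complex.norm_real, Real.norm_of_nonneg ρ0]
      exact (mul_le_of_le_one_left (norm_nonneg _) ρ1).trans c
  rw [← e, norm_mul] at h1
  have h3 : (R : ℝ) / (2 * (1 + 2 * Real.pi * R * |θ - k|)) ≤ ‖gs R θ‖ := by
    rw [div_le_iff₀ (by positivity)]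
    have a := mul_le_mul_of_nonneg_left
      (h1.trans (mul_le_mul_of_nonneg_right h2 (norm_nonneg _))) (by positivity : (0 : ℝ) ≤ 2 * R)
    refine le_of_eq_of_le (by ring) (a.trans_eq ?_)
    field_simp
  refine le_of_eq_of_le ?_ (pow_le_pow_left₀ (by positivity) h3 2)
  rw [div_pow, mul_pow]
  norm_num

theorem major {x N : ℕ} {T : ℝ} (hT : 2 ≤ T) (hTx : T ≤ x) (hN : 1 ≤ N) :
    ∃ R : ℕ, 1 ≤ R ∧ (R : ℝ) ≤ 1 + T * N / x ∧ ∀ u : ℕ, N < u →
      ∑ b ∈ Icc 1 (2 * x), gk x T (u * b)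
        ≤ 1300 * (x / (T * N)) * (‖gs R (x / u)‖ ^ 2 / R) := by
  have T0 : 0 < T := by linarith
  have x0 : (0 : ℝ) < x := by linarith
  have N0 : (0 : ℝ) < N := by exact_mod_cast hN
  obtain ⟨R, hR, h1, h2⟩ : ∃ R : ℕ, 1 ≤ R ∧ T * N ≤ 102 * R * x ∧
      (R = 1 ∨ 51 * R * x ≤ T * N) := by
    have a := (div_lt_iff₀ (by positivity)).1 (Nat.lt_floor_add_one (T * N / (51 * x)))
    have b := (le_div_iff₀ (by positivity)).1
      (Nat.floor_le (by positivity : 0 ≤ T * N / (51 * x)))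
    rcases Nat.eq_zero_or_pos ⌊T * N / (51 * x)⌋₊ with e | e
    · rw [e] at a
      exact ⟨1, le_rfl, by push_cast at a ⊢; linarith, .inl rfl⟩
    · have c : (1 : ℝ) ≤ ⌊T * N / (51 * x)⌋₊ := by exact_mod_cast e
      exact ⟨_, e, by nlinarith, .inr (by linarith)⟩
  have R1 : (1 : ℝ) ≤ R := by exact_mod_cast hR
  refine ⟨R, hR, ?_, fun u hu => ?_⟩
  · rcases h2 with rfl | h2
    · exact_mod_cast le_add_of_nonneg_right (by positivity : 0 ≤ T * N / x)
    · exact le_add_of_nonneg_of_le zero_le_one ((le_div_iff₀ x0).2 (by nlinarith))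
  have Nu : (N : ℝ) ≤ u := by exact_mod_cast hu.le
  have u0 : (0 : ℝ) < u := by linarith
  obtain ⟨d, hd⟩ : ∃ d : ℝ, d = |(x : ℝ) / u - round ((x : ℝ) / u)| := ⟨_, rfl⟩
  have d0 : 0 ≤ d := hd ▸ abs_nonneg _
  have h3 : ∑ b ∈ Icc 1 (2 * x), gk x T (u * b) ≤
      Real.exp (-(T * (u * d) / (4 * x))) * ∑ b ∈ Icc 1 (2 * x), gk x (T / 2) (u * b) := by
    rw [mul_sum]
    refine sum_le_sum fun b _ => gk_tail (by exact_mod_cast x0) T0.le ?_
    have a := mul_le_mul_of_nonneg_left (round_le ((x : ℝ) / u) b) u0.le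
    rw [← hd] at a
    refine a.trans_eq ?_
    rw [abs_sub_comm, ← abs_of_pos u0, ← abs_mul, abs_of_pos u0]
    congr 1
    push_cast
    field_simp
  have h4 : ∑ b ∈ Icc 1 (2 * x), gk x (T / 2) (u * b) ≤ 325 * R * (x / (T * N)) := by
    have a := (abs_le.1 (sum_gk_mul x (half_pos T0).le (q := u) (by omega))).2
    have b : Gam x (T / 2) / u ≤ 10 * (x / (T * N)) :=
      (div_le_div₀ (by positivity) (Gam_le (half_pos T0) (by linarith)) N0 Nu).trans_eq
        (by field_simp; ring)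
    have c : 1 ≤ 102 * R * (x / (T * N)) := by
      rw [← mul_div_assoc]
      exact (one_le_div (by positivity)).2 h1
    have : 0 ≤ (x : ℝ) / (T * N) := by positivity
    nlinarith
  have h5 : Real.exp (-(T * (u * d) / (4 * x))) ≤ 4 * ‖gs R (x / u)‖ ^ 2 / R ^ 2 := by
    rcases h2 with rfl | h2
    · have : gs 1 (x / u) = 1 := by simp [gs, Major_ce0]
      rw [this]
      refine (Real.exp_le_one_iff.2 (neg_nonpos.2 (by positivity))).trans (by norm_num)
    have a := gs_lower hR (x / u) (round ((x : ℝ) / u))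
    rw [← hd, div_le_iff₀ (by positivity)] at a
    have b : 2 * Real.pi * R * d ≤ T * (u * d) / (4 * x) / 2 := by
      rw [div_div, le_div_iff₀ (by positivity)]
      have p : 16 * Real.pi * (R * x) ≤ 51 * (R * x) :=
        mul_le_mul_of_nonneg_right (by linarith [Real.pi_lt_d2]) (by positivity)
      have q := mul_le_mul_of_nonneg_right
        (p.trans ((le_of_eq_of_le (by ring) h2).trans (mul_le_mul_of_nonneg_left Nu T0.le))) d0
      linarith
    have c : (1 + 2 * Real.pi * R * d) ^ 2 ≤ Real.exp (T * (u * d) / (4 * x)) := by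
      rw [← add_halves (T * (u * d) / (4 * x)), Real.exp_add, ← sq]
      exact pow_le_pow_left₀ (by positivity)
        (by linarith [Real.add_one_le_exp (T * (u * d) / (4 * x) / 2)]) 2
    rw [Real.exp_neg, le_div_iff₀ (by positivity), inv_mul_le_iff₀ (Real.exp_pos _)]
    nlinarith [mul_le_mul_of_nonneg_left c (sq_nonneg ‖gs R (x / u)‖)]
  refine h3.trans ((mul_le_mul h5 h4 (sum_nonneg fun _ _ => gk_nonneg _ _ _)
    (by positivity)).trans_eq ?_)
  field_simp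
  ring

theorem quad_le (I : Finset ℕ) (f θ : ℕ → ℝ) {R : ℕ} (hR : 1 ≤ R) {E₀ E : ℝ} (hE : 0 ≤ E)
    (h0 : |∑ u ∈ I, f u| ≤ E₀)
    (h : ∀ r < R, ∀ r' < R, r ≠ r' →
      ‖∑ u ∈ I, (f u : ℂ) * ce (2 * Real.pi * ((r : ℝ) - r') * θ u)‖ ≤ E) :
    |∑ u ∈ I, f u * (‖gs R (θ u)‖ ^ 2 / R)| ≤ E₀ + R * E := by
  have R0 : (0 : ℝ) < R := by exact_mod_cast hR
  obtain ⟨ρ0, ρ1⟩ := Major_rho hR
  have e : ((∑ u ∈ I, f u * ‖gs R (θ u)‖ ^ 2 : ℝ) : ℂ) = ∑ r ∈ range R, ∑ r' ∈ range R,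
      (((1 - 1 / (R : ℝ)) ^ r * (1 - 1 / (R : ℝ)) ^ r' : ℝ) : ℂ) *
        ∑ u ∈ I, (f u : ℂ) * ce (2 * Real.pi * ((r : ℝ) - r') * θ u) := by
    simp only [Complex.ofReal_sum, Complex.ofReal_mul (f _), Major_sq, mul_sum]
    rw [sum_comm]
    refine sum_congr rfl fun r _ => ?_
    rw [sum_comm]
    exact sum_congr rfl fun r' _ => sum_congr rfl fun u _ => mul_left_comm _ _ _
  have b : |∑ u ∈ I, f u * ‖gs R (θ u)‖ ^ 2| ≤
      ∑ r ∈ range R, ∑ r' ∈ range R, ((if r = r' then E₀ else 0) + E) := by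
    rw [← Real.norm_eq_abs, ← Complex.norm_real, e]
    refine norm_sum_le_of_le _ fun r hr => norm_sum_le_of_le _ fun r' hr' => ?_
    rw [norm_mul]
    refine (mul_le_of_le_one_left (norm_nonneg _) ?_).trans ?_
    · rw [Complex.norm_real, Real.norm_of_nonneg (by positivity)]
      exact mul_le_one₀ (pow_le_one₀ ρ0 ρ1) (by positivity) (pow_le_one₀ ρ0 ρ1)
    split_ifs with a
    · simp only [a, sub_self, mul_zero, zero_mul, Major_ce0, mul_one]
      rw [← Complex.ofReal_sum, Complex.norm_real]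
      exact le_add_of_le_of_nonneg h0 hE
    · rw [zero_add]
      exact h r (mem_range.1 hr) r' (mem_range.1 hr') a
  simp only [← mul_div_assoc]
  rw [← sum_div, abs_div, abs_of_pos R0, div_le_iff₀' R0]
  refine b.trans_eq ((sum_congr (g := fun _ => E₀ + R * E) rfl fun r hr => ?_).trans ?_)
  · rw [sum_add_distrib, sum_ite_eq, if_pos hr, sum_const, card_range, nsmul_eq_mul]
  · rw [sum_const, card_range, nsmul_eq_mul]

end Pool.Agent.Work.MP_82fd4a_nt.Z
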