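import Pool.Agent.Work.MP_82fd4a_nt.Z.Defs
import Pool.Agent.Work.MP_82fd4a_nt.ExpSum

/-! Reciprocal phases. -/

set_option autoImplicit false
open Filter Topology Finset

namespace Pool.Agent.Work.MP_82fd4a_nt.Z

open Pool.Agent.Lib.MR

/-- summation by parts against a monotone phase -/
theorem abel_phase (z : ℕ → ℂ) (φ : ℕ → ℝ) {a b : ℕ} (hab : a ≤ b) (c : ℝ) {E V : ℝ} (hV : 0 ≤ V)
    (hφ : ∀ n, a < n → n < b → φ (n + 1) ≤ φ n) (h0 : ∀ n, a < n → n ≤ b → 0 ≤ φ n ∧ φ n ≤ V)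
    (hz : ∀ M, a ≤ M → M ≤ b → ‖∑ n ∈ Ioc a M, z n‖ ≤ E) :
    ‖∑ n ∈ Ioc a b, z n * ce (c * φ n)‖ ≤ (1 + |c| * V) * E := by
  have hE : 0 ≤ E := (norm_nonneg _).trans (hz a le_rfl hab)
  rcases hab.eq_or_lt with rfl | hab'
  · rw [Finset.Ioc_self, sum_empty, norm_zero]
    positivity
  have key : ∀ M, a + 1 ≤ M → M ≤ b → ‖∑ n ∈ Ioc a M, z n * ce (c * φ n) -
      (∑ n ∈ Ioc a M, z n) * ce (c * φ M)‖ ≤ |c| * (φ (a + 1) - φ M) * E := by
    intro M hM
    induction M, hM using Nat.le_induction with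
    | base => simp
    | succ M hM ih =>
      intro hb
      have e : ∑ n ∈ Ioc a (M + 1), z n * ce (c * φ n) -
          (∑ n ∈ Ioc a (M + 1), z n) * ce (c * φ (M + 1)) =
          (∑ n ∈ Ioc a M, z n * ce (c * φ n) - (∑ n ∈ Ioc a M, z n) * ce (c * φ M)) +
            (∑ n ∈ Ioc a M, z n) * (ce (c * φ M) - ce (c * φ (M + 1))) := by
        rw [sum_Ioc_succ_top (by omega), sum_Ioc_succ_top (by omega)]
        ring
      have h1 := norm_ce_sub (c * φ M) (c * φ (M + 1))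
      rw [← mul_sub, abs_mul, abs_of_nonneg (sub_nonneg.2 (hφ M hM hb))] at h1
      have h2 := mul_le_mul (hz M (by omega) (by omega)) h1 (norm_nonneg _) hE
      rw [e]
      refine (norm_add_le _ _).trans ?_
      rw [norm_mul]
      linarith [ih (by omega)]
  have h1 := key b hab' le_rfl
  have h2 := norm_sub_norm_le (∑ n ∈ Ioc a b, z n * ce (c * φ n))
    ((∑ n ∈ Ioc a b, z n) * ce (c * φ b))
  rw [norm_mul, norm_ce, mul_one] at h2
  have h3 : |c| * (φ (a + 1) - φ b) * E ≤ |c| * V * E := by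
    gcongr
    linarith [(h0 (a + 1) (by omega) hab').2, (h0 b hab' le_rfl).1]
  linarith [hz b hab le_rfl]

lemma Phase_log {j d : ℝ} (hj : 0 < j) (hd : 0 < d) :
    (Real.log (j + d) - Real.log j) / d ≤ 1 / j ∧
      1 / (j + d) ≤ (Real.log (j + d) - Real.log j) / d := by
  have h0 : 0 < (j + d) / j := by positivity
  rw [← Real.log_div (by positivity) hj.ne', div_le_iff₀ hd, le_div_iff₀ hd]
  constructor
  · refine (Real.log_le_sub_one_of_pos h0).trans_eq ?_
    field_simp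
    ring
  · refine le_of_eq_of_le ?_ (Real.one_sub_inv_le_log_of_pos h0)
    field_simp
    ring

lemma Phase_anti {u j d : ℝ} (hu : 0 < u) (hj : u ≤ j) (hd : 0 < d) :
    (Real.log (j + d) - Real.log j) / d - (Real.log (j + 1 + d) - Real.log (j + 1)) / d ≤
      1 / u - 1 / (u + 1) := by
  have j0 : 0 < j := hu.trans_le hj
  have h0 : 0 < (j + d) * (j + 1) / (j * (j + 1 + d)) := by positivity
  have h1 := Real.log_le_sub_one_of_pos h0
  rw [Real.log_div (by positivity) (by positivity), Real.log_mul (by positivity) (by positivity),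
    Real.log_mul (by positivity) (by positivity),
    show (j + d) * (j + 1) / (j * (j + 1 + d)) - 1 = 1 / (j * (j + 1 + d)) * d by
      field_simp; ring] at h1
  have h2 : 1 / (j * (j + 1 + d)) ≤ 1 / (u * (u + 1)) :=
    one_div_le_one_div_of_le (by positivity) (by nlinarith)
  rw [← sub_div, div_le_iff₀ hd, show 1 / u - 1 / (u + 1) = 1 / (u * (u + 1)) by
    field_simp; ring]
  linarith [mul_le_mul_of_nonneg_right h2 hd.le]

/-- a reciprocal phase is a twist of the two point correlation -/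
theorem corr_recip (w : ℕ → ℝ) {N i δ l : ℕ} (hδ : 1 ≤ δ) (hl : i + δ ≤ l) (hlN : l < N)
    (c : ℝ) {E : ℝ}
    (h : ∀ M, N ≤ M → M ≤ 11 * N → ‖∑ n ∈ range M,
      (starRingEnd ℂ) ((w n : ℂ) * nz (c / δ) n) * ((w (n + δ) : ℂ) * nz (c / δ) (n + δ))‖ ≤ E) :
    ‖∑ u ∈ Ioc N (9 * N), ((w (u + i) * w (u + i + δ) : ℝ) : ℂ) * ce (c / u)‖
      ≤ (1 + |c| * (l / (N : ℝ) ^ 2)) * (2 * E) := by
  obtain ⟨Z, hZ⟩ : ∃ Z : ℕ → ℂ, ∀ n, Z n = (starRingEnd ℂ) ((w n : ℂ) * nz (c / δ) n) *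
    ((w (n + δ) : ℂ) * nz (c / δ) (n + δ)) := ⟨_, fun _ => rfl⟩
  simp only [← hZ] at h
  have d1 : (1 : ℝ) ≤ δ := by exact_mod_cast hδ
  have N0 : (0 : ℝ) < N := by exact_mod_cast (by omega : 0 < N)
  have i0 : (0 : ℝ) ≤ i := Nat.cast_nonneg i
  have hl' : (i : ℝ) + δ ≤ l := by exact_mod_cast hl
  have ps : ∀ M, N ≤ M → ∑ u ∈ Ioc N M, Z (u + i) =
      ∑ n ∈ range (M + i + 1), Z n - ∑ n ∈ range (N + i + 1), Z n := fun M hM => by
    induction M, hM using Nat.le_induction with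
    | base => simp
    | succ M hM ih =>
      rw [sum_Ioc_succ_top hM, ih, Nat.add_right_comm M 1 i, sum_range_succ _ (M + i + 1)]
      ring
  have key := abel_phase (fun u => Z (u + i))
    (fun u => 1 / u - (Real.log (u + i + δ) - Real.log (u + i)) / δ) (a := N) (b := 9 * N)
    (by omega) c (E := 2 * E) (V := l / (N : ℝ) ^ 2) (by positivity) (fun n hn _ => ?_)
    (fun n hn _ => ?_) fun M h1 h2 => ?_
  · refine le_of_eq_of_le (congrArg norm (sum_congr rfl fun u hu => ?_)) key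
    have u0 : u ≠ 0 := by have := (mem_Ioc.1 hu).1; omega
    have e : ∀ n : ℕ, nit n (c / δ) = ce (c / δ * Real.log n) := fun _ => rfl
    rw [hZ, nz_of_ne _ (by omega), nz_of_ne _ (by omega), e, e, map_mul, Complex.conj_ofReal,
      conj_ce, show c / (u : ℝ) = -(c / δ * Real.log (u + i : ℕ)) +
        c / δ * Real.log (u + i + δ : ℕ) +
        c * (1 / u - (Real.log (u + i + δ) - Real.log (u + i)) / δ) by push_cast; ring,
      ce_add, ce_add]
    push_cast
    ring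
  · have n0 : (0 : ℝ) < n := N0.trans (by exact_mod_cast hn)
    push_cast
    have := Phase_anti n0 (by linarith : (n : ℝ) ≤ n + i) (by linarith : (0 : ℝ) < δ)
    rw [show (n : ℝ) + 1 + i = n + i + 1 by ring]
    linarith
  · have n1 : (N : ℝ) ≤ n := by exact_mod_cast hn.le
    have n0 : (0 : ℝ) < n := N0.trans_le n1
    obtain ⟨k1, k2⟩ := Phase_log (by linarith : (0 : ℝ) < n + i) (by linarith : (0 : ℝ) < δ)
    have k3 : 1 / ((n : ℝ) + i) ≤ 1 / n := by gcongr; linarith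
    have k4 : 1 / (n : ℝ) - 1 / (n + i + δ) ≤ l / (N : ℝ) ^ 2 := by
      rw [show 1 / (n : ℝ) - 1 / (n + i + δ) = (i + δ) / (n * (n + i + δ)) by field_simp; ring, sq]
      gcongr
      linarith
    constructor <;> linarith
  · rw [ps M h1]
    linarith [norm_sub_le (∑ n ∈ range (M + i + 1), Z n) (∑ n ∈ range (N + i + 1), Z n),
      h (M + i + 1) (by omega) (by omega), h (N + i + 1) (by omega) (by omega)]

/-- pure reciprocal phases cancel -/
theorem recip_sum {a b ε : ℝ} (ha : 0 < a) (hε : 0 < ε) : ∀ᶠ N : ℕ in atTop, ∀ c : ℝ,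
    a * (N : ℝ) ^ 2 ≤ |c| → |c| ≤ b * (N : ℝ) ^ 2 →
    ‖∑ u ∈ Ioc N (9 * N), ce (c / u)‖ ≤ ε * N := by
  obtain ⟨η, η0, η1, η2⟩ : ∃ η : ℝ, 0 < η ∧ η ≤ 1 ∧ 64 * η ≤ ε :=
    ⟨min 1 (ε / 64), by positivity, min_le_left _ _, by linarith [min_le_right 1 (ε / 64)]⟩
  obtain ⟨H0, h0⟩ := exists_nat_ge (max 1 (1000 / (16 * a * η ^ 2)))
  obtain ⟨H, h1⟩ := exists_nat_ge (max 1 (H0 / η ^ 2))
  filter_upwards [eventually_ge_atTop 3, eventually_ge_atTop H,
    tendsto_natCast_atTop_atTop.eventually_ge_atTop (H * |b| : ℝ)] with N n3 nH nb c c0 c1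
  have N3 : (3 : ℝ) ≤ N := by exact_mod_cast n3
  have key := es_recip c (a * (N : ℝ) ^ 2) (|b| * (N : ℝ) ^ 2) N (10 * N) η (N + 1) (8 * N) H H0
    (by linarith) (by push_cast; linarith) (by push_cast; linarith) (by positivity) c0
    (c1.trans (by gcongr; exact le_abs_self b)) (by exact_mod_cast le_of_max_le_left h0)
    (by exact_mod_cast le_of_max_le_left h1) (by omega) η0 η1 ?_ ?_ ?_
  · have e : ∑ u ∈ Ioc N (9 * N), ce (c / u) =
        ∑ k ∈ range (8 * N), ce (c / (((N + 1 : ℕ) : ℝ) + k)) := by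
      rw [← Finset.Ico_add_one_add_one_eq_Ioc, sum_Ico_eq_sum_range,
        show 9 * N + 1 - (N + 1) = 8 * N by omega]
      simp only [Nat.cast_add]
    rw [e]
    refine key.trans ?_
    push_cast
    nlinarith
  · rw [show (H : ℝ) * (2 * (|b| * (N : ℝ) ^ 2) / (N : ℝ) ^ 3) = 2 * (H * |b|) / N by
      field_simp, div_le_iff₀ (by linarith)]
    nlinarith [Real.pi_gt_three]
  · have := (div_le_iff₀ (by positivity)).1 (le_of_max_le_right h1)
    linarith
  · have := (div_le_iff₀ (by positivity)).1 (le_of_max_le_right h0)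
    rw [show η ^ 2 * (8 * N : ℕ) * H0 * (2 * (a * (N : ℝ) ^ 2) / (10 * N) ^ 3) =
      H0 * (16 * a * η ^ 2) / 1000 by push_cast; field_simp; ring]
    linarith

end Pool.Agent.Work.MP_82fd4a_nt.Z
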