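import Pool.Agent.Work.MP_82fd4a_nt.Z.Defs
import Pool.Agent.Work.MP_82fd4a_nt.TypeI
import Pool.Agent.Work.MP_82fd4a_nt.SumU

/-! The level of distribution and the squarefull integers, for shorter intervals. -/

set_option autoImplicit false
open Filter Topology Finset

namespace Pool.Agent.Work.MP_82fd4a_nt.Z

lemma Gam_geH {x : ℕ} (hx : 1 ≤ x) {T H : ℝ} (hT : 1 ≤ T) (hTx : T ≤ H * √(x : ℝ))
    (h1 : H * √(x : ℝ) ≤ x) (h2 : H ≤ (x : ℝ) ^ (1 / 100 : ℝ)) :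
    (x : ℝ) ^ (49 / 100 : ℝ) / 8 ≤ Gam x T := by
  have hx0 : (0 : ℝ) < x := by exact_mod_cast hx
  refine le_trans ?_ (Gam_ge hT (hTx.trans h1))
  rw [div_le_div_iff₀ (by norm_num) (by linarith)]
  have e : (x : ℝ) ^ (49 / 100 : ℝ) * ((x : ℝ) ^ (1 / 100 : ℝ) * √(x : ℝ)) = x := by
    rw [Real.sqrt_eq_rpow, ← Real.rpow_add hx0, ← Real.rpow_add hx0]; norm_num
  have h3 : T ≤ (x : ℝ) ^ (1 / 100 : ℝ) * √(x : ℝ) :=
    hTx.trans (mul_le_mul_of_nonneg_right h2 (Real.sqrt_nonneg _))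
  have h4 := mul_le_mul_of_nonneg_left h3 (show 0 ≤ (x : ℝ) ^ (49 / 100 : ℝ) by positivity)
  linarith

theorem sum_sqfulH {η : ℝ} (hη : 0 < η) (hη1 : η ≤ 1 / 100) (k : ℕ) (C H : ℝ) :
    ∀ᶠ x : ℕ in atTop, ∀ T : ℝ, 1 ≤ T → T ≤ H * √(x : ℝ) → ∀ c : ℕ → ℝ, (∀ n, c n ≤ C * tau n ^ k) →
      (∀ n, 0 < c n → ∃ p : ℕ, p.Prime ∧ (x : ℝ) ^ η < p ∧ (p : ℝ) ≤ (x : ℝ) ^ (9 / 20 : ℝ) ∧
        p ^ 2 ∣ n) →
      ∑ n ∈ Icc 1 (2 * x), c n * gk x T n ≤ Gam x T * (x : ℝ) ^ (-(η / 2)) := by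
  obtain ⟨C0, hC0, hτ⟩ := Lib.ANT.exists_card_divisors_le (η / 8 / (k + 1)) (by positivity)
  have hB : 0 ≤ |C| * C0 ^ k * 2 := by positivity
  filter_upwards [((tendsto_rpow_atTop (show 0 < η / 8 by positivity)).comp
    tendsto_natCast_atTop_atTop).eventually_ge_atTop (18 * (|C| * C0 ^ k * 2)),
    eventually_ge_atTop 1, ev_le_self H, su_ev H (show (0 : ℝ) < 1 / 100 by norm_num)]
    with x hu hx hH hH' T hT hTx c hc hp
  simp only [Function.comp] at hu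
  have hx1 : (1 : ℝ) ≤ x := by exact_mod_cast hx
  have hx0 : (0 : ℝ) < x := by linarith
  have hG : (x : ℝ) ^ (49 / 100 : ℝ) / 8 ≤ Gam x T := Gam_geH hx hT hTx hH hH' 
  have hu1 : 1 ≤ (x : ℝ) ^ (η / 8) := Real.one_le_rpow hx1 (by positivity)
  have hy1 : 1 ≤ (x : ℝ) ^ η := Real.one_le_rpow hx1 hη.le
  have hcB : ∀ n ∈ Icc 1 (2 * x), c n ≤ |C| * C0 ^ k * 2 * (x : ℝ) ^ (η / 8) := fun n hn => by
    rw [mem_Icc] at hn
    have n1 : (1 : ℝ) ≤ n := by exact_mod_cast hn.1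
    have n2 : (n : ℝ) ≤ 2 * x := by exact_mod_cast hn.2
    have b1 : tau n ^ k ≤ (C0 * (n : ℝ) ^ (η / 8 / (k + 1))) ^ k :=
      pow_le_pow_left₀ (tau_nonneg n) (hτ n) k
    have b2 : ((n : ℝ) ^ (η / 8 / (k + 1))) ^ k ≤ 2 * (x : ℝ) ^ (η / 8) := by
      rw [← Real.rpow_mul_natCast (by linarith)]
      have e1 : η / 8 / (k + 1) * k ≤ η / 8 := by
        rw [div_mul_eq_mul_div, div_le_iff₀ (by positivity)]
        nlinarith
      refine (Real.rpow_le_rpow_of_exponent_le n1 e1).trans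
        ((Real.rpow_le_rpow (by linarith) n2 (by positivity)).trans ?_)
      rw [Real.mul_rpow zero_le_two hx0.le]
      refine mul_le_mul_of_nonneg_right ?_ (by positivity)
      simpa using Real.rpow_le_rpow_of_exponent_le one_le_two (show η / 8 ≤ 1 by linarith)
    rw [mul_pow] at b1
    calc c n ≤ |C| * tau n ^ k :=
          (hc n).trans (mul_le_mul_of_nonneg_right (le_abs_self C) (pow_nonneg (tau_nonneg n) k))
      _ ≤ |C| * (C0 ^ k * (2 * (x : ℝ) ^ (η / 8))) :=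
          mul_le_mul_of_nonneg_left (b1.trans (mul_le_mul_of_nonneg_left b2 (by positivity)))
            (abs_nonneg C)
      _ = _ := by ring
  generalize |C| * C0 ^ k * 2 = B at *
  set P := Ioc ⌊(x : ℝ) ^ η⌋₊ ⌊(x : ℝ) ^ (9 / 20 : ℝ)⌋₊ with hP
  have s1 : ∑ n ∈ Icc 1 (2 * x), c n * gk x T n ≤ B * (x : ℝ) ^ (η / 8) *
      ∑ p ∈ P, ∑ n ∈ Icc 1 (2 * x), (if p ^ 2 ∣ n then 1 else 0) * gk x T n := by
    rw [sum_comm, mul_sum]
    refine sum_le_sum fun n hn => ?_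
    rw [← sum_mul, ← mul_assoc]
    refine mul_le_mul_of_nonneg_right ?_ (gk_nonneg _ _ _)
    have h0 : ∀ p ∈ P, (0 : ℝ) ≤ if p ^ 2 ∣ n then 1 else 0 := fun p _ => by
      split_ifs <;> norm_num
    rcases le_or_gt (c n) 0 with h | h
    · exact h.trans (mul_nonneg (by positivity) (sum_nonneg h0))
    · obtain ⟨p, -, p1, p2, p3⟩ := hp n h
      have := single_le_sum h0 (a := p)
        (mem_Ioc.2 ⟨(Nat.floor_lt (by positivity)).2 p1, Nat.le_floor p2⟩)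
      simp only [if_pos p3] at this
      exact (hcB n hn).trans (le_mul_of_one_le_right (by positivity) this)
  have f1 : (1 : ℝ) ≤ ⌊(x : ℝ) ^ η⌋₊ := by exact_mod_cast Nat.le_floor (by simpa using hy1)
  have f2 : (x : ℝ) ^ η < ⌊(x : ℝ) ^ η⌋₊ + 1 := Nat.lt_floor_add_one _
  have f0 : ⌊(x : ℝ) ^ η⌋₊ ≠ 0 := by
    intro h
    rw [h] at f1
    norm_num at f1
  have s2 : ∑ p ∈ P, ∑ n ∈ Icc 1 (2 * x), (if p ^ 2 ∣ n then 1 else 0) * gk x T n ≤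
      ∑ p ∈ P, (Gam x T * ((p : ℝ) ^ 2)⁻¹ + 2) := by
    refine sum_le_sum fun p hp => ?_
    have hp0 : 0 < p ^ 2 := pow_pos (by rw [mem_Ioc] at hp; omega) 2
    have := (abs_le.1 (sum_gk_mul x (by linarith : 0 ≤ T) hp0)).2
    rw [ker_dvd x T hp0, div_eq_mul_inv] at this
    push_cast at this
    linarith
  have s3 : ∑ p ∈ P, ((p : ℝ) ^ 2)⁻¹ ≤ 2 / (x : ℝ) ^ η := by
    have t1 : ((⌊(x : ℝ) ^ η⌋₊ : ℕ) : ℝ)⁻¹ ≤ 2 / (x : ℝ) ^ η := by
      rw [inv_eq_one_div, div_le_div_iff₀ (by linarith) (by linarith)]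
      linarith
    rcases le_total ⌊(x : ℝ) ^ η⌋₊ ⌊(x : ℝ) ^ (9 / 20 : ℝ)⌋₊ with h | h
    · refine (sum_Ioc_inv_sq_le_sub f0 h).trans (le_trans ?_ t1)
      exact sub_le_self _ (by positivity)
    · rw [hP, Ioc_eq_empty (not_lt.2 h), sum_empty]
      positivity
  have s4 : (#P : ℝ) ≤ 8 * Gam x T / (x : ℝ) ^ η := by
    have t1 : (#P : ℝ) ≤ (x : ℝ) ^ (9 / 20 : ℝ) := by
      refine le_trans ?_ (Nat.floor_le (by positivity))
      rw [hP, Nat.card_Ioc]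
      exact_mod_cast Nat.sub_le _ _
    have t2 : (x : ℝ) ^ (9 / 20 : ℝ) * (x : ℝ) ^ η ≤ (x : ℝ) ^ (49 / 100 : ℝ) := by
      rw [← Real.rpow_add hx0]
      exact Real.rpow_le_rpow_of_exponent_le hx1 (by linarith)
    rw [le_div_iff₀ (by linarith)]
    nlinarith
  rw [sum_add_distrib, ← mul_sum, sum_const, nsmul_eq_mul] at s2
  have hG0 : 0 ≤ Gam x T := le_trans (by positivity) hG
  have s5 : Gam x T * ∑ p ∈ P, ((p : ℝ) ^ 2)⁻¹ + #P * 2 ≤ 18 * Gam x T / (x : ℝ) ^ η := by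
    have := mul_le_mul_of_nonneg_left s3 hG0
    simp only [div_eq_mul_inv] at this s4 ⊢
    linarith
  have e1 : (x : ℝ) ^ η = ((x : ℝ) ^ (η / 8)) ^ 8 := by
    rw [← Real.rpow_mul_natCast hx0.le]
    congr 1
    push_cast
    ring
  have e2 : (x : ℝ) ^ (-(η / 2)) = (((x : ℝ) ^ (η / 8)) ^ 4)⁻¹ := by
    rw [Real.rpow_neg hx0.le, ← Real.rpow_mul_natCast hx0.le]
    congr 2
    push_cast
    ring
  refine s1.trans ((mul_le_mul_of_nonneg_left (s2.trans s5) (by positivity)).trans ?_)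
  rw [e1, e2]
  generalize (x : ℝ) ^ (η / 8) = u at *
  have hu3 : 18 * B ≤ u ^ 3 := hu.trans (le_self_pow₀ hu1 (by norm_num))
  have e3 : B * u * (18 * Gam x T / u ^ 8) = Gam x T * (u ^ 4)⁻¹ * (18 * B / u ^ 3) := by
    field_simp
  rw [e3]
  exact mul_le_of_le_one_right (by positivity) ((div_le_one (by positivity)).2 hu3)

lemma ti_coreH (x : ℕ) {u M T H : ℝ} (hH : 1 ≤ H) (huH : 1000 * H ^ 2 ≤ u) (hx : (x : ℝ) = u ^ 4000) (hM : 1 ≤ M)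
    (hT : 1 ≤ T) (hT' : T ≤ H * u ^ 2000) (R S : Finset ℕ) (a b : ℕ → ℝ)
    (hR : ∀ r ∈ R, 1 ≤ r ∧ r * M ≤ u ^ 2002) (hS : ∀ m ∈ S, M ≤ m ∧ (m : ℝ) ≤ M * u)
    (ha : ∀ r, |a r| ≤ u) (hb : ∀ m, |b m| ≤ u)
    (hF : ∀ α : ℝ, ‖∑ n ∈ Icc 1 (2 * x), (gk x T n : ℂ) *
      Complex.exp (2 * Real.pi * Complex.I * (α * n))‖ * Real.sin (Real.pi * α) ^ 2 ≤ 40 * T / x)
    (hE : ∀ y : ℝ, (x : ℝ) / 2 ≤ y → y ≤ 2 * u ^ 4010 →
      ‖∑ r ∈ R.filter (fun r : ℕ => ¬ r * M ≤ u ^ 1995), ∑ m ∈ S,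
        ((a r * b m / (r * m) : ℝ) : ℂ) *
        Complex.exp (2 * Real.pi * Complex.I * ((y / (r * m) : ℝ) : ℂ))‖ ≤ (u ^ 13)⁻¹) :
    |∑ r ∈ R, ∑ m ∈ S, a r * b m *
        (∑ n ∈ Icc 1 (2 * x), gk x T (r * m * n) - Gam x T / (r * m))| ≤ Gam x T * u⁻¹ := by
  have hH2 : 1 ≤ H ^ 2 := one_le_pow₀ hH
  have hHH : H ≤ H ^ 2 := by nlinarith
  have hu : 1000 ≤ u := by linarith
  have hu0 : 0 < u := by linarith
  have hu1 : 1 ≤ u := by linarith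
  have hM0 : 0 < M := by linarith
  have hT0 : 0 < T := by linarith
  obtain ⟨v, hv⟩ : ∃ v, v = u ^ 1995 := ⟨_, rfl⟩
  have hv0 : 0 < v := by rw [hv]; positivity
  have e2000 : u ^ 2000 = v * u ^ 5 := by rw [hv, ← pow_add]
  have e2002 : u ^ 2002 = v * u ^ 7 := by rw [hv, ← pow_add]
  have e4000 : (x : ℝ) = v * u ^ 5 * (v * u ^ 5) := by rw [hx, ← e2000, ← pow_add]
  have e4010 : u ^ 4010 = x * u ^ 10 := by rw [hx, ← pow_add]
  have hvu : 2 * u ^ 10 < v := by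
    have h1 : u ^ 11 ≤ u ^ 1995 := pow_le_pow_right₀ hu1 (by norm_num)
    have h2 : 0 < u ^ 10 := by positivity
    rw [← hv, pow_succ] at h1
    nlinarith
  rw [e2000] at hT'
  simp only [e2002] at hR
  rw [← hv, e4010] at hE
  clear e2000 e2002 e4010 hv hx
  have hw1 : H ≤ v * u ^ 5 := by
    have h1 : u ≤ u ^ 10 := le_self_pow₀ hu1 (by norm_num)
    have h2 : 1 ≤ u ^ 5 := one_le_pow₀ hu1
    nlinarith
  have hw0 : 0 < v * u ^ 5 := by positivity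
  have hTx : T ≤ x := by
    rw [e4000]
    exact hT'.trans (mul_le_mul_of_nonneg_right hw1 hw0.le)
  have hG : v * u ^ 5 / (8 * H) ≤ Gam x T := by
    refine le_trans ?_ (Gam_ge hT hTx)
    rw [div_le_div_iff₀ (by positivity) (by positivity), e4000]
    nlinarith [mul_le_mul_of_nonneg_left hT' hw0.le]
  have hG0 : 0 ≤ Gam x T := le_trans (by positivity) hG
  have hS1 : ∀ m ∈ S, 1 ≤ m ∧ (m : ℝ) ≤ M * u := fun m hm =>
    ⟨by exact_mod_cast hM.trans (hS m hm).1, (hS m hm).2⟩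
  set A := ⌊u ^ 10⌋₊ with hA
  have hA1 : (A : ℝ) ≤ u ^ 10 := Nat.floor_le (by positivity)
  have hA2 : u ^ 10 < (A : ℝ) + 1 := Nat.lt_floor_add_one _
  set R2 := R.filter (fun r : ℕ => ¬ r * M ≤ v) with hR2
  have p1 := ti_triv (R.filter (fun r : ℕ => r * M ≤ v)) S a b
    (fun r m => ∑ n ∈ Icc 1 (2 * x), gk x T (r * m * n) - Gam x T / (r * m)) hu0.le
    (E := 2) (Y := v / M) (Z := M * u) (by norm_num) (by positivity) (by positivity)
    (fun r hr => ⟨(hR r (mem_filter.1 hr).1).1, (le_div_iff₀ hM0).2 (mem_filter.1 hr).2⟩)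
    hS1 ha hb (fun r hr m hm => by
      have h1 := sum_gk_mul x hT0.le
        (Nat.mul_pos (hR r (mem_filter.1 hr).1).1 (hS1 m hm).1)
      rwa [Nat.cast_mul] at h1)
  have p2 := ti_triv R2 S a b
    (fun r m => ∑ n ∈ Icc 1 (2 * x), gk x T (r * m * n) - Gam x T / (r * m) -
      2 / (r * m) * ∑ k ∈ Icc 1 A, tiC x T ((k : ℝ) / (r * m))) hu0.le
    (E := 40 * H * (u ^ 7)⁻¹) (Y := v * u ^ 7 / M) (Z := M * u) (by positivity) (by positivity)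
    (by positivity)
    (fun r hr => ⟨(hR r (mem_filter.1 hr).1).1, (le_div_iff₀ hM0).2 (hR r (mem_filter.1 hr).1).2⟩)
    hS1 ha hb (fun r hr m hm => by
      obtain ⟨hr1, hr2⟩ := mem_filter.1 hr
      have hr0 : (0 : ℝ) ≤ r := Nat.cast_nonneg r
      have h2 : v < r * m := (not_le.1 hr2).trans_le (mul_le_mul_of_nonneg_left (hS m hm).1 hr0)
      have h3 : (r : ℝ) * m ≤ v * u ^ 7 * u :=
        (mul_le_mul_of_nonneg_left (hS m hm).2 hr0).trans (by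
          rw [← mul_assoc]; exact mul_le_mul_of_nonneg_right (hR r hr1).2 hu0.le)
      have h4 : 2 * A < r * m := by
        have : (2 : ℝ) * A < r * m := by linarith
        exact_mod_cast this
      have h1 := ti_split x T h4 hF
      rw [Nat.cast_mul] at h1
      refine h1.trans ?_
      calc 40 * T / x * (r * m) / (A + 1)
          ≤ 40 * (H * (v * u ^ 5)) / x * (v * u ^ 7 * u) / u ^ 10 := by gcongr
        _ = 40 * H * (u ^ 7)⁻¹ := by rw [e4000]; field_simp)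
  have p3 : |∑ r ∈ R2, ∑ m ∈ S, a r * b m *
      (2 / (r * m) * ∑ k ∈ Icc 1 A, tiC x T ((k : ℝ) / (r * m)))| ≤
      u ^ 10 * (2 * (Gam x T * (u ^ 13)⁻¹)) := by
    have h1 : ∑ r ∈ R2, ∑ m ∈ S, a r * b m *
        (2 / (r * m) * ∑ k ∈ Icc 1 A, tiC x T ((k : ℝ) / (r * m))) = ∑ k ∈ Icc 1 A,
        2 * ∑ r ∈ R2, ∑ m ∈ S, a r * b m / (r * m) * tiC x T ((k : ℝ) / (r * m)) := by
      simp only [mul_sum]
      rw [sum_comm (s := Icc 1 A)]
      refine sum_congr rfl fun r _ => ?_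
      rw [sum_comm (s := Icc 1 A)]
      refine sum_congr rfl fun m _ => sum_congr rfl fun k _ => ?_
      ring
    rw [h1]
    refine (abs_sum_le_sum_abs _ _).trans ?_
    have h2 : ∀ k ∈ Icc 1 A, |2 * ∑ r ∈ R2, ∑ m ∈ S, a r * b m / (r * m) *
        tiC x T ((k : ℝ) / (r * m))| ≤ 2 * (Gam x T * (u ^ 13)⁻¹) := by
      intro k hk
      rw [mem_Icc] at hk
      rw [abs_mul, abs_two]
      refine mul_le_mul_of_nonneg_left (ti_small x T R2 S a b hk.1 ?_ hE) (by norm_num)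
      have h3 : (k : ℝ) ≤ u ^ 10 := le_trans (by exact_mod_cast hk.2) hA1
      rw [mul_assoc]
      gcongr
    refine (sum_le_card_nsmul _ _ _ h2).trans ?_
    rw [nsmul_eq_mul, Nat.card_Icc, Nat.add_sub_cancel]
    exact mul_le_mul_of_nonneg_right hA1 (by positivity)
  have hsplit : ∑ r ∈ R2, ∑ m ∈ S, a r * b m *
        (∑ n ∈ Icc 1 (2 * x), gk x T (r * m * n) - Gam x T / (r * m)) =
      ∑ r ∈ R2, ∑ m ∈ S, a r * b m *
        (∑ n ∈ Icc 1 (2 * x), gk x T (r * m * n) - Gam x T / (r * m) -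
          2 / (r * m) * ∑ k ∈ Icc 1 A, tiC x T ((k : ℝ) / (r * m))) +
      ∑ r ∈ R2, ∑ m ∈ S, a r * b m *
        (2 / (r * m) * ∑ k ∈ Icc 1 A, tiC x T ((k : ℝ) / (r * m))) := by
    rw [← sum_add_distrib]
    refine sum_congr rfl fun r _ => ?_
    rw [← sum_add_distrib]
    refine sum_congr rfl fun m _ => ?_
    ring
  rw [← sum_filter_add_sum_filter_not R (fun r : ℕ => r * M ≤ v), ← hR2, hsplit]
  refine (abs_add_le _ _).trans ((add_le_add p1 ((abs_add_le _ _).trans (add_le_add p2 p3))).trans ?_)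
  have q1 : v / M * (M * u * (u * u * 2)) = 2 * (v * u ^ 3) := by field_simp
  have q2 : v * u ^ 7 / M * (M * u * (u * u * (40 * H * (u ^ 7)⁻¹))) = 40 * H * (v * u ^ 3) := by
    field_simp
  have q3 : u ^ 10 * (2 * (Gam x T * (u ^ 13)⁻¹)) = 2 / u ^ 2 * (Gam x T * u⁻¹) := by
    field_simp
  have q4 : v * u ^ 3 * u / (8 * H) ≤ Gam x T * u⁻¹ := by
    rw [← div_eq_mul_inv (Gam x T), le_div_iff₀ hu0]
    refine le_trans (le_of_eq ?_) hG
    ring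
  have q5 : 2 / u ^ 2 ≤ 1 / 2 := by
    rw [div_le_div_iff₀ (by positivity) (by norm_num)]
    nlinarith
  have q6 : 0 ≤ Gam x T * u⁻¹ := by positivity
  have q7 : 0 ≤ v * u ^ 3 := by positivity
  rw [q1, q2, q3]
  have q8 : 125 * H * (v * u ^ 3) ≤ Gam x T * u⁻¹ := by
    refine le_trans ?_ q4
    rw [le_div_iff₀ (by positivity)]
    nlinarith [mul_le_mul_of_nonneg_left huH q7]
  nlinarith [mul_le_mul_of_nonneg_right q5 q6, mul_le_mul_of_nonneg_left hH q7]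

theorem typeIH {H : ℝ} (hH : 1 ≤ H) : ∀ᶠ x : ℕ in atTop, ∀ M : ℝ, (x : ℝ) ^ (1 / 6 : ℝ) ≤ M →
    M ≤ (x : ℝ) ^ (1 / 5 : ℝ) → ∀ (R S : Finset ℕ) (a b : ℕ → ℝ),
    (∀ r ∈ R, 1 ≤ r ∧ r * M ≤ (x : ℝ) ^ (1 / 2 + 2 * del)) →
    (∀ m ∈ S, M ≤ m ∧ (m : ℝ) ≤ M * (x : ℝ) ^ del) →
    (∀ r, |a r| ≤ (x : ℝ) ^ del) → (∀ m, |b m| ≤ (x : ℝ) ^ del) →
    ∀ T : ℝ, Real.log x ^ 2 ≤ T → T ≤ H * √(x : ℝ) →
    |∑ r ∈ R, ∑ m ∈ S, a r * b m *
        (∑ n ∈ Icc 1 (2 * x), gk x T (r * m * n) - Gam x T / (r * m))|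
      ≤ Gam x T * (x : ℝ) ^ (-del) := by
  have hdel : 0 < del := by norm_num [del]
  have t1 : Tendsto (fun x : ℕ => (x : ℝ) ^ del) atTop atTop :=
    (tendsto_rpow_atTop hdel).comp tendsto_natCast_atTop_atTop
  have t2 : Tendsto (fun x : ℕ => Real.log x) atTop atTop :=
    Real.tendsto_log_atTop.comp tendsto_natCast_atTop_atTop
  filter_upwards [bil_exp, fourier_gk, t1.eventually_ge_atTop (1000 * H ^ 2), t2.eventually_ge_atTop 1,
    eventually_ge_atTop 1, ev_le_self H] with x hE hF hu hL hx hHx M hM hM' R S a b hR hS ha hb T hT hT'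
  have hx1 : (1 : ℝ) ≤ x := by exact_mod_cast hx
  have hx0 : (0 : ℝ) ≤ x := by linarith
  have hp : ∀ (k : ℕ) (c : ℝ), c = del * k → (x : ℝ) ^ c = ((x : ℝ) ^ del) ^ k := by
    intro k c h
    rw [h, Real.rpow_mul_natCast hx0]
  have e1 := hp 4000 1 (by norm_num [del])
  have e2 := hp 2000 (1 / 2) (by norm_num [del])
  have e3 := hp 2002 (1 / 2 + 2 * del) (by norm_num [del])
  have e4 := hp 1995 (1 / 2 - 5 * del) (by norm_num [del])
  have e5 := hp 4010 (1 + 10 * del) (by norm_num [del])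
  have e6 := hp 13 (13 * del) (by norm_num [del])
  rw [Real.rpow_one] at e1
  rw [← Real.sqrt_eq_rpow] at e2
  have hT1 : 1 ≤ T := le_trans (by nlinarith) hT
  have hTx : T ≤ x := hT'.trans hHx
  rw [Real.rpow_neg hx0]
  refine ti_coreH x hH hu e1 ((Real.one_le_rpow hx1 (by norm_num)).trans hM) hT1 (e2 ▸ hT') R S a b
    (e3 ▸ hR) hS ha hb (hF T hT hTx) fun y hy hy' => ?_
  rw [← e6, ← Real.rpow_neg hx0]
  refine hE M hM hM' _ S a b (fun r hr => ?_) hS ha hb y hy (e5 ▸ hy')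
  obtain ⟨h1, h2⟩ := mem_filter.1 hr
  exact ⟨e4 ▸ not_le.1 h2, (hR r h1).2⟩

end Pool.Agent.Work.MP_82fd4a_nt.Z
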