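import Pool.Agent.Work.MP_82fd4a_nt.Z.TypeII
import Pool.Agent.Work.MP_82fd4a_nt.QBil

/-! The sums over factorisations with a window are bilinear forms. -/

set_option autoImplicit false
open Filter Topology Finset

namespace Pool.Agent.Work.MP_82fd4a_nt.Z

lemma qy_support {x : ℕ} {T : ℝ} {m n : ℕ} (hm : 1 ≤ m) (hn : n ∉ Icc 1 (2 * x)) :
    gk x T (m * n) = 0 := by
  by_contra h
  obtain ⟨h1, h2⟩ := gk_ne_zero h
  refine hn (mem_Icc.2 ⟨?_, (Nat.le_mul_of_pos_left n hm).trans h2⟩)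
  rcases Nat.eq_zero_or_pos n with rfl | h0
  · simp at h1
  · exact h0

lemma qy_Bil {ρ σ : Type} (x Y : ℕ) (T : ℝ) (A₁ A₂ : Finset ℕ) (R₁ : Finset ρ)
    (R₂ : Finset σ) (r₁ : ρ → ℕ) (r₂ : σ → ℕ) (h₁ : ∀ t ∈ R₁, 0 < r₁ t) (h₂ : ∀ t ∈ R₂, 0 < r₂ t) :
    BilY x Y T (qbRep (· ∈ A₁) R₁ r₁) (qbRep (· ∈ A₂) R₂ r₂)
      = ∑ a ∈ A₁, ∑ b ∈ A₂, ∑ t ∈ R₁, ∑ u ∈ R₂,
        if Y < a * r₁ t ∧ a * r₁ t ≤ 2 * Y then gk x T (a * r₁ t * (b * r₂ u)) else 0 := by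
  unfold BilY
  have e1 : ∀ m ∈ Ioc Y (2 * Y), ∑ n ∈ Icc 1 (2 * x),
      qbRep (· ∈ A₁) R₁ r₁ m * qbRep (· ∈ A₂) R₂ r₂ n * gk x T (m * n)
      = qbRep (· ∈ A₁) R₁ r₁ m * ∑ b ∈ A₂, ∑ u ∈ R₂, gk x T (m * (b * r₂ u)) := by
    intro m hm
    simp only [mul_assoc]
    rw [← mul_sum, qb_sum_rep A₂ R₂ r₂ h₂]
    congr 1
    refine sum_congr rfl fun b _ => sum_congr rfl fun u _ => ?_
    split_ifs with h
    · rfl
    · exact (qy_support (by have := (mem_Ioc.1 hm).1; omega) h).symm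
  rw [sum_congr rfl e1, qb_sum_rep A₁ R₁ r₁ h₁]
  refine sum_congr rfl fun a _ => ?_
  rw [sum_comm (s := A₂)]
  refine sum_congr rfl fun t _ => ?_
  simp only [mem_Ioc]
  split_ifs with h
  · rfl
  · simp

lemma qy_QY (x Y : ℕ) (T : ℝ) {K J : ℕ} {Λ z : ℝ} (hz : 1 ≤ z)
    (hΛ : Real.log z ≤ Λ / 2) (A₁ A₂ : Finset ℕ) (I : Finset (Ix K J)) {D₁ D₂ : Finset ℕ}
    (h₁ : ∀ d ∈ D₁, 1 ≤ d ∧ Rough z d) (h₂ : ∀ d ∈ D₂, 1 ≤ d ∧ Rough z d) :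
    QY x Y T K J Λ A₁ A₂ I D₁ D₂ = BilY x Y T (qbRep (· ∈ A₁) (qbTup K J Λ I ×ˢ D₁) qbR)
      (qbRep (· ∈ A₂) (qbTup K J Λ Iᶜ ×ˢ D₂) qbR) := by
  rw [qy_Bil x Y T A₁ A₂ _ _ _ _ (fun t ht => (qb_R_spec hz hΛ h₁ ht).1)
    (fun t ht => (qb_R_spec hz hΛ h₂ ht).1)]
  unfold QY
  refine sum_congr rfl fun a _ => sum_congr rfl fun b _ => ?_
  have e := qb_sum_tup K J Λ I fun P P' => ∑ d ∈ D₁, ∑ e ∈ D₂,
    if Y < a * P * d ∧ a * P * d ≤ 2 * Y then gk x T (a * b * (P * P') * (d * e)) else 0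
  simp only [prod_mul_prod_compl] at e
  rw [e, sum_product]
  refine sum_congr rfl fun π _ => ?_
  rw [sum_comm]
  refine sum_congr rfl fun d _ => ?_
  rw [sum_product]
  refine sum_congr rfl fun π' _ => sum_congr rfl fun e _ => ?_
  simp only [qbR, ← mul_assoc]
  congr 2
  ring

lemma qy_congr {x Y : ℕ} (T : ℝ) {B A A' : ℕ → ℝ} (hA : ∀ n ≤ 2 * x, A n = A' n) :
    BilY x Y T B A = BilY x Y T B A' := by
  unfold BilY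
  refine sum_congr rfl fun a _ => sum_congr rfl fun b hb => ?_
  rw [hA b (mem_Icc.1 hb).2]

lemma qy_le_pow {η : ℝ} (hη : 0 < η) {x n : ℕ} (hx : 2 ≤ x) (hn : n ≤ 2 * x) :
    (n : ℝ) ≤ ((x : ℝ) ^ η) ^ ⌈2 / η⌉₊ := by
  refine le_trans ?_ (MP_51e72e_nt.LT.sq_le_pow hη (by omega))
  have : n ≤ x ^ 2 := hn.trans (by rw [sq]; exact Nat.mul_le_mul_right x hx)
  exact_mod_cast this

theorem QY_compare {ρ : ℝ} (hρ : 0 < ρ) (K J : ℕ) (H : ℝ) {ε : ℝ} (hε : 0 < ε) :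
    ∃ D : ℝ, 1 ≤ D ∧ ∀ η : ℝ, 0 < η → ∀ᶠ x : ℕ in atTop, ∀ Y : ℕ, Win D x Y →
    ∀ (Λ z : ℝ) (A₁ : Finset ℕ) (U₂ : ℕ → Prop) (I : Finset (Ix K J)) (D₁ D₂ : Finset ℕ),
    (x : ℝ) ^ ρ ≤ z → (x : ℝ) ^ η ≤ z → Real.log z ≤ Λ / 2 → (∀ s ∈ A₁, 1 ≤ s) →
    (∀ d ∈ D₁, 1 ≤ d ∧ Rough z d) → (∀ d ∈ D₂, 1 ≤ d ∧ Rough z d) →
    (∀ p : ℕ, p.Prime → (p : ℝ) ≤ (x : ℝ) ^ η → ∀ s, (U₂ (p * s) ↔ U₂ s)) →
    ∀ T T' : ℝ, 2 ≤ T → T ≤ H * √(x : ℝ) → 2 ≤ T' → T' ≤ H * √(x : ℝ) →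
    |QY x Y T K J Λ A₁ (Sm x z U₂) I D₁ D₂ / Gam x T
      - QY x Y T' K J Λ A₁ (Sm x z U₂) I D₁ D₂ / Gam x T'| ≤ ε := by
  obtain ⟨D, h1, HH⟩ := typeIIY ((2 ^ ⌈2 / ρ⌉₊) ^ (K + J + 1)) H hε
  refine ⟨D, h1, fun η hη => ?_⟩
  filter_upwards [HH η hη, eventually_ge_atTop 2] with x HH hx
  intro Y hY Λ z A₁ U₂ I D₁ D₂ hz hz' hΛ hA₁ hD₁ hD₂ hU T T' t1 t2 t3 t4
  have hx1 : (1 : ℝ) ≤ x := by exact_mod_cast (by omega : 1 ≤ x)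
  have hy : 1 ≤ (x : ℝ) ^ ρ := Real.one_le_rpow hx1 hρ.le
  have hz1 : 1 ≤ z := hy.trans hz
  have e : ∀ T : ℝ, QY x Y T K J Λ A₁ (Sm x z U₂) I D₁ D₂ =
      BilY x Y T (qbRep (· ∈ A₁) (qbTup K J Λ I ×ˢ D₁) qbR)
        (qbRep (fun a => Smooth z a ∧ U₂ a) (qbTup K J Λ Iᶜ ×ˢ D₂) qbR) := fun T => by
    rw [qy_QY x Y T hz1 hΛ _ _ I hD₁ hD₂]
    exact qy_congr T (fun n hn => qb_rep_Sm U₂ (fun t ht => (qb_R_spec hz1 hΛ hD₂ ht).1) hn)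
  rw [e, e]
  refine HH Y hY _ _ (fun n hn => ?_) (fun n hn => ?_) (fun p hp hpx n => ?_) T T' t1 t2 t3 t4
  · rw [abs_of_nonneg (qbRep_nonneg _ _ _ _)]
    exact qb_rep_le hy hz hΛ (fun a ha => by have := hA₁ a ha; omega) I hD₁ (qy_le_pow hρ hx hn)
  · rw [abs_of_nonneg (qbRep_nonneg _ _ _ _)]
    exact qb_rep_le hy hz hΛ (fun a ha => ha.1.1) Iᶜ hD₂ (qy_le_pow hρ hx hn)
  · exact qb_rep_mul (fun t ht => (qb_R_spec hz1 hΛ hD₂ ht).2) hp (hpx.trans hz')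
      (fun s => hU p hp hpx s) n

lemma qy_le_sq {ρ : Type} (U : ℕ → Prop) (R : Finset ρ) (r : ρ → ℕ) (n : ℕ) :
    qbRep U R r n ≤ qbRep U R r n ^ 2 := by
  unfold qbRep
  exact_mod_cast Nat.le_self_pow two_ne_zero _

/-- the first variable is sparse -/
lemma bil_sparse1 {x Y : ℕ} (hY : 1 ≤ Y) {T C S : ℝ} (hT : 0 ≤ T) {B A : ℕ → ℝ}
    (hB : ∀ n, 0 ≤ B n) (hA : ∀ n ≤ 2 * x, A n ≤ C) (hC : 0 ≤ C)
    (hS : ∑ b ∈ Icc 1 (2 * Y), B b ≤ S) : BilY x Y T B A ≤ C * S * (Gam x T / Y + 2) := by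
  have hY0 : (0 : ℝ) < Y := by exact_mod_cast hY
  have hG : 0 ≤ Gam x T := sum_nonneg fun _ _ => gk_nonneg _ _ _
  have h1 : ∀ b ∈ Ioc Y (2 * Y), ∑ a ∈ Icc 1 (2 * x), B b * A a * gk x T (b * a)
      ≤ B b * (C * (Gam x T / Y + 2)) := by
    intro b hb
    have b1 := (mem_Ioc.1 hb).1
    have b2 : (Y : ℝ) ≤ b := by exact_mod_cast b1.le
    have h2 := (abs_le.1 (sum_gk_mul x hT (q := b) (by omega))).2
    have h3 : Gam x T / b ≤ Gam x T / Y := by gcongr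
    calc _ ≤ ∑ a ∈ Icc 1 (2 * x), B b * C * gk x T (b * a) := sum_le_sum fun a ha =>
          mul_le_mul_of_nonneg_right (mul_le_mul_of_nonneg_left (hA a (mem_Icc.1 ha).2) (hB b))
            (gk_nonneg _ _ _)
      _ = B b * (C * ∑ a ∈ Icc 1 (2 * x), gk x T (b * a)) := by rw [← mul_sum, mul_assoc]
      _ ≤ _ := mul_le_mul_of_nonneg_left (mul_le_mul_of_nonneg_left (by linarith) hC) (hB b)
  refine (sum_le_sum h1).trans ?_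
  rw [← sum_mul]
  have h4 : ∑ b ∈ Ioc Y (2 * Y), B b ≤ S := le_trans (sum_le_sum_of_subset_of_nonneg
    (fun b hb => by have := mem_Ioc.1 hb; exact mem_Icc.2 ⟨by omega, this.2⟩)
    fun _ _ _ => hB _) hS
  calc _ ≤ S * (C * (Gam x T / Y + 2)) := by gcongr
    _ = _ := by ring

/-- the second variable is sparse -/
lemma bil_sparse2 {x Y : ℕ} (hY : 1 ≤ Y) (hYx : Y ≤ x) {T C S : ℝ} (hT : 0 ≤ T) {B A : ℕ → ℝ}
    (hA : ∀ n, 0 ≤ A n) (hB : ∀ n ≤ 2 * x, B n ≤ C) (hC : 0 ≤ C)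
    (hS : ∑ a ∈ Icc 1 (2 * x / Y), A a ≤ S) :
    BilY x Y T B A ≤ C * S * (4 * Y * Gam x T / x + 2) := by
  have hY0 : (0 : ℝ) < Y := by exact_mod_cast hY
  have hx0 : (0 : ℝ) < x := by exact_mod_cast (by omega : 0 < x)
  have hG : 0 ≤ Gam x T := sum_nonneg fun _ _ => gk_nonneg _ _ _
  unfold BilY
  rw [sum_comm]
  have h1 : ∀ a ∈ Icc 1 (2 * x), ∑ b ∈ Ioc Y (2 * Y), B b * A a * gk x T (b * a)
      ≤ (if a ≤ 2 * x / Y then A a else 0) * (C * (4 * Y * Gam x T / x + 2)) := by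
    intro a ha
    have a1 := (mem_Icc.1 ha).1
    by_cases h0 : ∃ b ∈ Ioc Y (2 * Y), gk x T (b * a) ≠ 0
    · obtain ⟨b, hb, hg⟩ := h0
      obtain ⟨g1, g2⟩ := gk_ne_zero hg
      obtain ⟨b1, b2⟩ := mem_Ioc.1 hb
      have c1 : a ≤ 2 * x / Y := (Nat.le_div_iff_mul_le hY).2 (by nlinarith)
      have c2 : (x : ℝ) ≤ 4 * Y * a := by exact_mod_cast (by nlinarith : x ≤ 4 * Y * a)
      have a0 : (0 : ℝ) < a := by exact_mod_cast a1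
      have h2 := (abs_le.1 (sum_gk_mul x hT (q := a) a1)).2
      have h3 : Gam x T / a ≤ 4 * Y * Gam x T / x := by
        rw [div_le_div_iff₀ a0 hx0]
        nlinarith
      rw [if_pos c1]
      calc _ ≤ ∑ b ∈ Ioc Y (2 * Y), A a * C * gk x T (a * b) := sum_le_sum fun b hb => by
            rw [mul_comm b a, mul_comm (B b)]
            exact mul_le_mul_of_nonneg_right (mul_le_mul_of_nonneg_left
              (hB b ((mem_Ioc.1 hb).2.trans (by omega))) (hA a)) (gk_nonneg _ _ _)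
        _ = A a * (C * ∑ b ∈ Ioc Y (2 * Y), gk x T (a * b)) := by rw [← mul_sum, mul_assoc]
        _ ≤ A a * (C * ∑ b ∈ Icc 1 (2 * x), gk x T (a * b)) := by
            refine mul_le_mul_of_nonneg_left (mul_le_mul_of_nonneg_left
              (sum_le_sum_of_subset_of_nonneg (fun b hb => ?_) fun _ _ _ => gk_nonneg _ _ _) hC)
              (hA a)
            have := mem_Ioc.1 hb
            exact mem_Icc.2 ⟨by omega, by omega⟩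
        _ ≤ _ := mul_le_mul_of_nonneg_left (mul_le_mul_of_nonneg_left (by linarith) hC) (hA a)
    · push Not at h0
      rw [sum_eq_zero fun b hb => by rw [h0 b hb, mul_zero]]
      refine mul_nonneg ?_ (by positivity)
      split_ifs
      exacts [hA a, le_rfl]
  refine (sum_le_sum h1).trans ?_
  rw [← sum_mul, ← sum_filter]
  have h4 : ∑ a ∈ (Icc 1 (2 * x)).filter (fun a => a ≤ 2 * x / Y), A a ≤ S :=
    le_trans (sum_le_sum_of_subset_of_nonneg (fun a ha => by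
      obtain ⟨a1, a2⟩ := mem_filter.1 ha
      exact mem_Icc.2 ⟨(mem_Icc.1 a1).1, a2⟩) fun _ _ _ => hA _) hS
  calc _ ≤ S * (C * (4 * Y * Gam x T / x + 2)) := by gcongr
    _ = _ := by ring

lemma Win.pos {D : ℝ} {x Y : ℕ} (h : Win D x Y) (hx : 1 ≤ x) : 1 ≤ Y := by
  rcases Nat.eq_zero_or_pos Y with rfl | h0
  · have h1 := h.1
    have h2 : (0 : ℝ) < √(x : ℝ) := Real.sqrt_pos.2 (by exact_mod_cast hx)
    rw [Nat.cast_zero, mul_zero] at h1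
    linarith
  · exact h0

lemma Win.le {D : ℝ} (hD : 1 ≤ D) {x Y : ℕ} (h : Win D x Y) : (Y : ℝ) ≤ √(x : ℝ) :=
  (le_mul_of_one_le_left (Nat.cast_nonneg Y) hD).trans h.2

theorem QY_sparse {η : ℝ} (hη : 0 < η) (K J : ℕ) {H D : ℝ} (hH : 1 ≤ H) (hD1 : 1 ≤ D) {ε : ℝ}
    (hε : 0 < ε) : ∃ ε' : ℝ, 0 < ε' ∧ ∀ᶠ x : ℕ in atTop, ∀ Y : ℕ, Win D x Y →
    ∀ (Λ z : ℝ) (A₁ A₂ : Finset ℕ) (I : Finset (Ix K J)) (D₁ D₂ : Finset ℕ),
    (x : ℝ) ^ η ≤ z → Real.log z ≤ Λ / 2 → D₁ ⊆ D0 x z → D₂ ⊆ D0 x z →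
    (∀ s ∈ A₁, Smooth z s) → (∀ s ∈ A₂, Smooth z s) →
    (∑ s ∈ A₁, (s : ℝ)⁻¹ ≤ ε' * Real.log x ∨ ∑ s ∈ A₂, (s : ℝ)⁻¹ ≤ ε' * Real.log x) →
    ∀ T : ℝ, 2 ≤ T → T ≤ H * √(x : ℝ) → QY x Y T K J Λ A₁ A₂ I D₁ D₂ ≤ ε * Gam x T := by
  obtain ⟨C, hC⟩ : ∃ C : ℝ, C = (2 ^ ⌈2 / η⌉₊) ^ (K + J + 1) := ⟨_, rfl⟩
  have hC0 : 0 < C := by rw [hC]; positivity
  obtain ⟨θ, hθ⟩ : ∃ θ : ℝ, θ = min η (1 / 100) := ⟨_, rfl⟩
  have hθ0 : 0 < θ := by rw [hθ]; positivity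
  have hθ1 : θ ≤ η := hθ ▸ min_le_left _ _
  have hθ2 : θ ≤ 1 / 100 := hθ ▸ min_le_right _ _
  obtain ⟨γ, hγ⟩ : ∃ γ : ℝ, γ = ε / (200 * C * (H * D)) := ⟨_, rfl⟩
  have hHD : 1 ≤ H * D := one_le_mul_of_one_le_of_one_le hH hD1
  have hγ0 : 0 < γ := by rw [hγ]; positivity
  refine ⟨γ * θ / (2 * C ^ 2), by positivity, ?_⟩
  filter_upwards [eventually_ge_atTop 2, ev_le_self H] with x hx hHx
  intro Y hY Λ z A₁ A₂ I D₁ D₂ hz hΛ hD₁ hD₂ hA₁ hA₂ hs T t1 t2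
  have hx1 : (1 : ℝ) < x := by exact_mod_cast (by omega : 1 < x)
  have hx0 : (0 : ℝ) < x := by linarith
  have hy : 1 ≤ (x : ℝ) ^ η := Real.one_le_rpow hx1.le hη.le
  have hz1 : 1 ≤ z := hy.trans hz
  have hL : 0 < Real.log x := Real.log_pos hx1
  have hY1 := hY.pos (by omega)
  have hY0 : (0 : ℝ) < Y := by exact_mod_cast hY1
  have hYs := hY.le hD1
  have hss : √(x : ℝ) * √(x : ℝ) = x := Real.mul_self_sqrt hx0.le
  have hs0 : 0 < √(x : ℝ) := Real.sqrt_pos.2 hx0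
  have hYx : Y ≤ x := by exact_mod_cast hYs.trans (Real.sqrt_le_self_iff.2 (Or.inr hx1.le))
  have hD : ∀ {D : Finset ℕ}, D ⊆ D0 x z → ∀ d ∈ D, 1 ≤ d ∧ Rough z d := fun hD d hd =>
    ⟨(mem_Icc.1 (mem_filter.1 (hD hd)).1).1, (mem_filter.1 (hD hd)).2.1⟩
  have hb : ∀ {A : Finset ℕ} (I : Finset (Ix K J)) {D : Finset ℕ}, (∀ s ∈ A, Smooth z s) →
      D ⊆ D0 x z → ∀ n ≤ 2 * x, qbRep (· ∈ A) (qbTup K J Λ I ×ˢ D) qbR n ≤ C := by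
    intro A I D hA hD' n hn
    rw [hC]
    exact qb_rep_le hy hz hΛ (fun a ha => (hA a ha).1) I (hD hD') (qy_le_pow hη hx hn)
  have hsp : ∀ {A : Finset ℕ} (I : Finset (Ix K J)) {D : Finset ℕ}, (∀ s ∈ A, Smooth z s) →
      D ⊆ D0 x z → ∑ s ∈ A, (s : ℝ)⁻¹ ≤ γ * θ / (2 * C ^ 2) * Real.log x → ∀ N ≤ 2 * x,
      ∑ n ∈ Icc 1 N, qbRep (· ∈ A) (qbTup K J Λ I ×ˢ D) qbR n ≤ γ * N := by
    intro A I D hA hD' hsum N hN
    have hw : 1 < (x : ℝ) ^ θ := Real.one_lt_rpow hx1 hθ0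
    have hwz : (x : ℝ) ^ θ ≤ z := (Real.rpow_le_rpow_of_exponent_le hx1.le hθ1).trans hz
    have hV : ((x : ℝ) ^ θ) ^ 5 ≤ (x : ℝ) ^ (3 / 10 : ℝ) := by
      rw [← Real.rpow_natCast, ← Real.rpow_mul (by linarith)]
      refine Real.rpow_le_rpow_of_exponent_le hx1.le ?_
      push_cast; linarith
    refine (sum_le_sum fun n _ => qy_le_sq _ _ _ n).trans ?_
    refine (qb_sq_sparse (C := C) hw hV (fun a ha => (hA a ha).1) (fun u hu => ⟨?_, ?_⟩) _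
      fun n hn => hb I hA hD' n (hn.trans hN)).trans ?_
    · exact fun p hp hd => hwz.trans_lt ((qb_R_spec hz1 hΛ (hD hD') hu).2 p hp hd)
    · obtain ⟨h1, h2⟩ := mem_product.1 hu
      refine (mem_filter.1 (hD' h2)).2.2.trans (Nat.cast_le.2 ?_)
      exact Nat.le_mul_of_pos_left _ (prod_pos fun i _ => (qb_coord_rough hz1 hΛ h1 i).1)
    · rw [Real.log_rpow (by linarith)]
      calc _ ≤ C ^ 2 * (2 * (N : ℝ) / (θ * Real.log x) *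
            (γ * θ / (2 * C ^ 2) * Real.log x)) := by gcongr
        _ = _ := by field_simp
  have hG := Gam_ge (x := x) (T := T) (by linarith) (t2.trans hHx)
  rw [div_le_iff₀ (by linarith)] at hG
  have hG0 : 0 ≤ Gam x T := sum_nonneg fun _ _ => gk_nonneg _ _ _
  have g1 : √(x : ℝ) ≤ 8 * H * Gam x T := by
    refine le_of_mul_le_mul_right ?_ hs0
    nlinarith [mul_le_mul_of_nonneg_left t2 hG0]
  have e1 : C * γ * (200 * (H * D)) = ε := by rw [hγ]; field_simp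
  have hCγ : 0 < C * γ := by positivity
  rw [qy_QY x Y T hz1 hΛ _ _ I (hD hD₁) (hD hD₂)]
  rcases hs with hs | hs
  · refine (bil_sparse1 hY1 (by linarith) (fun _ => qbRep_nonneg _ _ _ _) (hb Iᶜ hA₂ hD₂) hC0.le
      (hsp I hA₁ hD₁ hs (2 * Y) (by omega))).trans ?_
    have c1 : H * Gam x T ≤ H * D * Gam x T := by gcongr; nlinarith
    have c2 : Gam x T ≤ H * D * Gam x T := le_mul_of_one_le_left hG0 hHD
    calc _ = C * γ * (2 * Gam x T + 4 * Y) := by push_cast; field_simp; ring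
      _ ≤ C * γ * (200 * (H * D) * Gam x T) := by gcongr; nlinarith
      _ = _ := by rw [← e1]; ring
  · refine (bil_sparse2 hY1 hYx (by linarith) (fun _ => qbRep_nonneg _ _ _ _) (hb I hA₁ hD₁) hC0.le
      (hsp Iᶜ hA₂ hD₂ hs (2 * x / Y) (Nat.div_le_self _ _))).trans ?_
    have c0 : ((2 * x / Y : ℕ) : ℝ) ≤ 2 * x / Y := by
      have := Nat.cast_div_le (α := ℝ) (m := 2 * x) (n := Y)
      push_cast at this
      exact this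
    have c1 : (x : ℝ) / Y ≤ 2 * D * √(x : ℝ) := by
      rw [div_le_iff₀ hY0]
      nlinarith [mul_le_mul_of_nonneg_left hY.1 hs0.le]
    have c2 : Gam x T ≤ H * D * Gam x T := le_mul_of_one_le_left hG0 hHD
    have c3 : D * √(x : ℝ) ≤ D * (8 * H * Gam x T) := by gcongr
    calc _ ≤ C * (γ * (2 * x / Y)) * (4 * Y * Gam x T / x + 2) := by gcongr
      _ = C * γ * (8 * Gam x T + 4 * (x / Y)) := by field_simp; ring
      _ ≤ C * γ * (200 * (H * D) * Gam x T) := by gcongr; nlinarith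
      _ = _ := by rw [← e1]; ring

end Pool.Agent.Work.MP_82fd4a_nt.Z
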