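import Pool.Agent.Work.MP_82fd4a_nt.Z.Two
import Pool.Agent.Work.MP_82fd4a_nt.Z.Phase
import Pool.Agent.Work.MP_82fd4a_nt.Z.Major
import Pool.Agent.Work.MP_82fd4a_nt.TypeII

/-! Short averages of a function of the rough part against the majorant. -/

set_option autoImplicit false
open Filter Topology Finset

namespace Pool.Agent.Work.MP_82fd4a_nt.Z

open Pool.Agent.Lib.MR Pool.Agent.Work.MP_51e72e_nt

lemma t2_rep {η : ℝ} (hη : 0 < η) {C : ℝ} (hC : 0 < C) : ∃ B₁ : ℝ, 0 < B₁ ∧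
    ∀ᶠ N : ℕ in atTop, ∀ A : ℕ → ℝ, (∀ n ≤ 16 * N, |A n| ≤ C) →
      (∀ p : ℕ, p.Prime → (p : ℝ) ≤ (N : ℝ) ^ η → ∀ n, A (p * n) = A n) →
      ∃ d : ℝ, ∃ φ : ℕ → ℝ, |d| ≤ C + 1 ∧ (∀ j, |φ j| ≤ 1) ∧
        (∀ j, φ j ≠ 0 → LT.Rough ((N : ℝ) ^ η) j) ∧
        ∀ n ∈ Icc 1 (16 * N), A n - d = B₁ * LT.Gc η φ (LT.dl φ N) n := by
  have hB := LT.one_le_BB η
  set B₀ : ℝ := C * 2 ^ ⌈2 / η⌉₊ with hB₀
  have hB0 : 0 < B₀ := by positivity
  refine ⟨B₀ * LT.BB η, by positivity, ?_⟩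
  filter_upwards [LT.card_rough_small hη (ε := 1 / B₀) (by positivity), eventually_ge_atTop 16]
    with N hr hN A hA hinv
  have N0 : (16 : ℝ) ≤ N := by exact_mod_cast hN
  obtain ⟨φ, p1, p2, p3⟩ := tii_rep (y := (N : ℝ) ^ η) (by positivity) (K := ⌈2 / η⌉₊)
    (M := 16 * N) (C := C)
    (le_trans (by push_cast; nlinarith) (LT.sq_le_pow hη (by omega))) A hA hinv
  have q1 : ∀ j, |φ j / B₀| ≤ 1 := fun j => by
    rw [abs_div, abs_of_pos hB0, div_le_one hB0]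
    exact p1 j
  have q2 : ∀ j, φ j / B₀ ≠ 0 → LT.Rough ((N : ℝ) ^ η) j := fun j hj =>
    p2 j fun h => hj (by rw [h, zero_div])
  have q3 : ∀ n ∈ Icc 1 (16 * N), B₀ * LT.Fd (fun j => φ j / B₀) n = A n := fun n hn => by
    rw [← p3 n hn, LT.Fd, LT.Fd, ← sum_div, mul_div_cancel₀ _ hB0.ne']
  refine ⟨B₀ * LT.dl (fun j => φ j / B₀) N, fun j => φ j / B₀, ?_, q1, q2, fun n hn => ?_⟩
  · have m := LT.abs_mean_le (φ := fun j => if j ≤ N then φ j / B₀ else 0) (y := (N : ℝ) ^ η)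
      (fun j => by
        split_ifs
        · exact q1 j
        · simp)
      (fun j hj => q2 j fun h => hj (by simp only [h, ite_self])) (N := N)
      (fun j hj => if_neg (by omega)) (a := 1) one_pos
      (by rw [Nat.cast_one]; exact Real.one_le_rpow (by linarith) hη.le) 0
    have e1 : LT.dl (fun j => if j ≤ N then φ j / B₀ else 0) N = LT.dl (fun j => φ j / B₀) N :=
      sum_congr rfl fun j hj => by
        beta_reduce
        rw [if_pos (mem_Icc.1 hj).2]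
    have e2 : ∀ n ∈ Icc 1 N, LT.Fd (fun j => if j ≤ N then φ j / B₀ else 0) (1 * n + 0) =
        A n / B₀ := fun n hn => by
      obtain ⟨n1, n2⟩ := mem_Icc.1 hn
      rw [one_mul, add_zero, ← q3 n (mem_Icc.2 ⟨n1, by omega⟩), mul_div_cancel_left₀ _ hB0.ne']
      exact sum_congr rfl fun j hj => if_pos ((Nat.divisor_le hj).trans n2)
    rw [e1, sum_congr rfl e2, ← sum_div] at m
    have m2 : |∑ n ∈ Icc 1 N, A n| ≤ N * C := by
      refine (abs_sum_le_sum_abs _ _).trans ((sum_le_card_nsmul _ _ C fun n hn =>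
        hA n (by have := (mem_Icc.1 hn).2; omega)).trans (le_of_eq (by simp)))
    set S := ∑ n ∈ Icc 1 N, A n
    set δ := LT.dl (fun j => φ j / B₀) N
    have m3 : |S / B₀ - N * δ| ≤ 1 / B₀ * N := m.trans hr
    have m4 : |S - N * (B₀ * δ)| ≤ N := by
      have : S - N * (B₀ * δ) = B₀ * (S / B₀ - N * δ) := by field_simp
      rw [this, abs_mul, abs_of_pos hB0]
      calc _ ≤ B₀ * (1 / B₀ * N) := by gcongr
        _ = N := by field_simp
    have m5 : (N : ℝ) * |B₀ * δ| ≤ N * (C + 1) := by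
      have : (N : ℝ) * |B₀ * δ| = |N * (B₀ * δ)| := by
        rw [abs_mul (N : ℝ), Nat.abs_cast]
      rw [this]
      have := abs_sub_abs_le_abs_sub (N * (B₀ * δ)) S
      rw [abs_sub_comm] at this
      linarith
    exact le_of_mul_le_mul_left m5 (by linarith)
  · rw [LT.Gc_eq hη q1 (by omega) q2 (LT.abs_dl_le' hη q1 (by omega) q2)
      ((mem_Icc.1 hn).2.trans (Nat.mul_le_mul_right N hN)), ← q3 n hn]
    field_simp

lemma t2_pair {η : ℝ} (hη : 0 < η) (B₁ : ℝ) (l : ℕ) {b ε : ℝ} (hb : 0 ≤ b) (hε : 0 < ε) :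
    ∀ᶠ N : ℕ in atTop, ∀ φ : ℕ → ℝ, (∀ j, |φ j| ≤ 1) →
      (∀ j, φ j ≠ 0 → LT.Rough ((N : ℝ) ^ η) j) → ∀ w : ℕ → ℝ,
      (∀ n ∈ Icc 1 (16 * N), w n = B₁ * LT.Gc η φ (LT.dl φ N) n) →
      ∀ i < l, ∀ j < l, i < j → ∀ c : ℝ, |c| ≤ b * (N : ℝ) ^ 2 →
      ‖∑ u ∈ Ioc N (9 * N), ((w (u + i) * w (u + j) : ℝ) : ℂ) * ce (c / u)‖ ≤ ε * N := by
  set ε' : ℝ := ε / (2 * (1 + b * l) * (B₁ ^ 2 + 1)) with hε'
  have hε0 : 0 < ε' := by positivity
  have h1 : ∀ᶠ N : ℕ in atTop, ∀ δ ∈ Icc 1 l, ∀ φ : ℕ → ℝ, (∀ j, |φ j| ≤ 1) →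
      (∀ j, φ j ≠ 0 → LT.Rough ((N : ℝ) ^ η) j) → ∀ t : ℝ, |t| ≤ (N : ℝ) ^ 3 →
      ∀ M : ℕ, N ≤ M → M ≤ 11 * N →
      ‖∑ n ∈ range M, (starRingEnd ℂ) (tw η φ N t n) * tw η φ N t (n + δ)‖ ≤ ε' * N :=
    (eventually_all_finset _).2 fun δ hδ => two_point hη (mem_Icc.1 hδ).1 11 hε0
  filter_upwards [h1, eventually_gt_atTop l,
    (tendsto_natCast_atTop_atTop (R := ℝ)).eventually_ge_atTop b]
    with N h1 hN hbN φ p1 p2 w hw i hi j hj hij c hc
  obtain ⟨δ, rfl⟩ : ∃ δ, j = i + δ := ⟨j - i, by omega⟩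
  have hδ : 1 ≤ δ := by omega
  have N0 : (0 : ℝ) < N := by exact_mod_cast (by omega : 0 < N)
  have δ1 : (1 : ℝ) ≤ δ := by exact_mod_cast hδ
  have ht : |c / δ| ≤ (N : ℝ) ^ 3 := by
    rw [abs_div, abs_of_pos (by linarith : (0 : ℝ) < δ)]
    refine (div_le_self (abs_nonneg c) δ1).trans (hc.trans ?_)
    calc b * (N : ℝ) ^ 2 ≤ N * (N : ℝ) ^ 2 := by gcongr
      _ = _ := by ring
  have h2 := corr_recip w (N := N) (i := i) (l := l) hδ hj.le hN c (E := B₁ ^ 2 * (ε' * N))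
    fun M m1 m2 => by
      have e : ∑ n ∈ range M, (starRingEnd ℂ) ((w n : ℂ) * nz (c / δ) n) *
          ((w (n + δ) : ℂ) * nz (c / δ) (n + δ)) = ((B₁ ^ 2 : ℝ) : ℂ) *
          ∑ n ∈ range M, (starRingEnd ℂ) (tw η φ N (c / δ) n) * tw η φ N (c / δ) (n + δ) := by
        rw [mul_sum]
        refine sum_congr rfl fun n hn => ?_
        have hn' := mem_range.1 hn
        rcases Nat.eq_zero_or_pos n with rfl | n0
        · simp [tw, nz]
        rw [hw n (mem_Icc.2 ⟨n0, by omega⟩), hw (n + δ) (mem_Icc.2 ⟨by omega, by omega⟩), tw, tw,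
          map_mul, map_mul, Complex.conj_ofReal, Complex.conj_ofReal]
        push_cast
        ring
      rw [e, norm_mul, Complex.norm_real, Real.norm_of_nonneg (sq_nonneg _)]
      exact mul_le_mul_of_nonneg_left
        (h1 δ (mem_Icc.2 ⟨hδ, by omega⟩) φ p1 p2 _ ht M m1 m2) (sq_nonneg _)
  simp only [← add_assoc]
  refine h2.trans ?_
  have h3 : |c| * (l / (N : ℝ) ^ 2) ≤ b * l := by
    calc |c| * (l / (N : ℝ) ^ 2) ≤ b * (N : ℝ) ^ 2 * (l / (N : ℝ) ^ 2) := by gcongr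
      _ = _ := by field_simp
  calc _ ≤ (1 + b * l) * (2 * ((B₁ ^ 2 + 1) * (ε' * N))) := by gcongr; linarith
    _ = _ := by rw [hε']; field_simp

lemma t2_sq {η : ℝ} (hη : 0 < η) (B₁ : ℝ) {l : ℕ} (hl : 1 ≤ l) {a Rm C : ℝ} (ha : 0 < a)
    (hC : 1 ≤ C) : ∀ᶠ N : ℕ in atTop, ∀ φ : ℕ → ℝ, (∀ j, |φ j| ≤ 1) →
      (∀ j, φ j ≠ 0 → LT.Rough ((N : ℝ) ^ η) j) → ∀ w : ℕ → ℝ, (∀ n, |w n| ≤ C) →
      (∀ n ∈ Icc 1 (16 * N), w n = B₁ * LT.Gc η φ (LT.dl φ N) n) →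
      ∀ x : ℝ, a * (N : ℝ) ^ 2 ≤ x → x ≤ 64 * (N : ℝ) ^ 2 → ∀ R : ℕ, 1 ≤ R → (R : ℝ) ≤ Rm →
      ∑ u ∈ Ioc N (9 * N), (∑ i ∈ range l, w (u + i)) ^ 2 * (‖gs R (x / u)‖ ^ 2 / R)
        ≤ 10 * l * C ^ 2 * N := by
  have hπ := Real.pi_pos
  have hπ3 := Real.pi_gt_three
  have l1 : (1 : ℝ) ≤ l := by exact_mod_cast hl
  set R₀ : ℝ := |Rm| + 1 with hR₀
  have R1 : 1 ≤ R₀ := by have := abs_nonneg Rm; linarith
  filter_upwards [t2_pair hη B₁ l (b := 2 * Real.pi * R₀ * 64) (ε := 1 / (l * (1 + R₀)))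
    (by positivity) (by positivity),
    recip_sum (a := a) (b := 2 * Real.pi * R₀ * 64) (ε := 1 / R₀) ha (by positivity)]
    with N h1 h2 φ p1 p2 w w1 w2 x x1 x2 R r1 r2
  have N0 : (0 : ℝ) ≤ N := Nat.cast_nonneg N
  have x0 : 0 ≤ x := le_trans (by positivity) x1
  have RR : (R : ℝ) ≤ R₀ := r2.trans (by linarith [le_abs_self Rm])
  have hc : ∀ r < R, ∀ r' < R, |2 * Real.pi * ((r : ℝ) - r') * x| ≤
      2 * Real.pi * R₀ * 64 * (N : ℝ) ^ 2 := fun r hr r' hr' => by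
    have a1 : (r : ℝ) ≤ R := by exact_mod_cast hr.le
    have a2 : (r' : ℝ) ≤ R := by exact_mod_cast hr'.le
    have a3 : |(r : ℝ) - r'| ≤ R₀ := by
      rw [abs_le]
      constructor <;> linarith [Nat.cast_nonneg (α := ℝ) r, Nat.cast_nonneg (α := ℝ) r']
    rw [abs_mul, abs_mul, abs_of_nonneg x0, abs_of_pos (by positivity : 0 < 2 * Real.pi)]
    calc _ ≤ 2 * Real.pi * R₀ * (64 * (N : ℝ) ^ 2) := by gcongr
      _ = _ := by ring
  have hc' : ∀ r r' : ℕ, r ≠ r' → a * (N : ℝ) ^ 2 ≤ |2 * Real.pi * ((r : ℝ) - r') * x| :=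
    fun r r' h => by
      have a3 : (1 : ℝ) ≤ |(r : ℝ) - r'| := by
        have : (1 : ℤ) ≤ |(r : ℤ) - r'| := Int.one_le_abs (by omega)
        exact_mod_cast this
      rw [abs_mul, abs_mul, abs_of_nonneg x0, abs_of_pos (by positivity : 0 < 2 * Real.pi)]
      calc a * (N : ℝ) ^ 2 ≤ 1 * 1 * x := by linarith
        _ ≤ _ := by gcongr; linarith
  set Kf : ℕ → ℝ := fun u => ‖gs R (x / u)‖ ^ 2 / R with hK
  have K0 : ∀ u, 0 ≤ Kf u := fun u => by positivity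
  have d1 : ∑ u ∈ Ioc N (9 * N), Kf u ≤ 9 * N := by
    have := quad_le (Ioc N (9 * N)) (fun _ => 1) (fun u => x / u) r1 (E₀ := 8 * N)
      (E := 1 / R₀ * N) (by positivity)
      (by
        rw [sum_const, Nat.card_Ioc, show 9 * N - N = 8 * N by omega]
        simp)
      (fun r hr r' hr' h => by
        have := h2 _ (hc' r r' h) (hc r hr r' hr')
        simpa only [Complex.ofReal_one, one_mul, mul_div_assoc] using this)
    simp only [one_mul] at this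
    refine (le_abs_self _).trans (this.trans ?_)
    have : (R : ℝ) * (1 / R₀ * N) ≤ R₀ * (1 / R₀ * N) := by gcongr
    have e : R₀ * (1 / R₀ * N) = N := by field_simp
    linarith
  have d2 : ∀ i < l, ∀ j < l, i < j →
      ∑ u ∈ Ioc N (9 * N), w (u + i) * w (u + j) * Kf u ≤ N / l := fun i hi j hj hij => by
    have g := h1 φ p1 p2 w w2 i hi j hj hij
    have := quad_le (Ioc N (9 * N)) (fun u => w (u + i) * w (u + j)) (fun u => x / u) r1
      (E₀ := 1 / (l * (1 + R₀)) * N) (E := 1 / (l * (1 + R₀)) * N) (by positivity)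
      (by
        have := g 0 (by rw [abs_zero]; positivity)
        simp only [zero_div, Major_ce0, mul_one] at this
        rwa [← Complex.ofReal_sum, Complex.norm_real] at this)
      (fun r hr r' hr' _ => by
        have := g _ (hc r hr r' hr')
        simpa only [mul_div_assoc] using this)
    refine (le_abs_self _).trans (this.trans ?_)
    calc _ ≤ 1 / (l * (1 + R₀)) * N + R₀ * (1 / (l * (1 + R₀)) * N) := by gcongr
      _ = _ := by field_simp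
  have d3 : ∀ i ∈ range l, ∀ j ∈ range l, ∑ u ∈ Ioc N (9 * N), w (u + i) * w (u + j) * Kf u ≤
      (if j = i then C ^ 2 * (9 * N) else 0) + N / l := fun i hi j hj => by
    rcases lt_trichotomy i j with h | h | h
    · rw [if_neg h.ne', zero_add]
      exact d2 i (mem_range.1 hi) j (mem_range.1 hj) h
    · subst h
      rw [if_pos rfl]
      have : ∑ u ∈ Ioc N (9 * N), w (u + i) * w (u + i) * Kf u ≤
          C ^ 2 * ∑ u ∈ Ioc N (9 * N), Kf u := by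
        rw [mul_sum]
        refine sum_le_sum fun u _ => mul_le_mul_of_nonneg_right ?_ (K0 u)
        rw [← sq, ← sq_abs]
        exact pow_le_pow_left₀ (abs_nonneg _) (w1 _) 2
      have h3 : C ^ 2 * ∑ u ∈ Ioc N (9 * N), Kf u ≤ C ^ 2 * (9 * N) := by gcongr
      have : (0 : ℝ) ≤ N / l := by positivity
      linarith
    · rw [if_neg h.ne, zero_add]
      simp only [mul_comm (w (_ + i))]
      exact d2 j (mem_range.1 hj) i (mem_range.1 hi) h
  have e : ∑ u ∈ Ioc N (9 * N), (∑ i ∈ range l, w (u + i)) ^ 2 * Kf u =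
      ∑ i ∈ range l, ∑ j ∈ range l, ∑ u ∈ Ioc N (9 * N), w (u + i) * w (u + j) * Kf u := by
    have e1 : ∀ u ∈ Ioc N (9 * N), (∑ i ∈ range l, w (u + i)) ^ 2 * Kf u =
        ∑ i ∈ range l, ∑ j ∈ range l, w (u + i) * w (u + j) * Kf u := fun u _ => by
      rw [sq, sum_mul_sum, sum_mul]
      exact sum_congr rfl fun i _ => sum_mul _ _ _
    rw [sum_congr rfl e1, sum_comm]
    exact sum_congr rfl fun i _ => sum_comm
  change ∑ u ∈ Ioc N (9 * N), (∑ i ∈ range l, w (u + i)) ^ 2 * Kf u ≤ _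
  rw [e]
  refine (sum_le_sum fun i hi => sum_le_sum fun j hj => d3 i hi j hj).trans ?_
  have e2 : ∀ i ∈ range l, ∑ j ∈ range l,
      ((if j = i then C ^ 2 * (9 * (N : ℝ)) else 0) + (N : ℝ) / (l : ℝ)) =
      C ^ 2 * (9 * (N : ℝ)) + (N : ℝ) := fun i hi => by
    rw [sum_add_distrib, sum_ite_eq', if_pos hi, sum_const, card_range, nsmul_eq_mul]
    field_simp
  rw [sum_congr rfl e2, sum_const, card_range, nsmul_eq_mul]
  have : (N : ℝ) ≤ C ^ 2 * N := le_mul_of_one_le_left N0 (one_le_pow₀ hC)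
  calc (l : ℝ) * (C ^ 2 * (9 * N) + N) ≤ l * (C ^ 2 * (9 * N) + C ^ 2 * N) := by gcongr
    _ = _ := by ring

end Pool.Agent.Work.MP_82fd4a_nt.Z
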