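import Pool.Agent.Work.MP_82fd4a_nt.Z.Defs

/-! Fourier uniformity of families whose prime coefficients depend on the scale. -/

set_option autoImplicit false
open Filter Topology Finset MeasureTheory

namespace Pool.Agent.Work.MP_82fd4a_nt.Z

open Pool.Agent.Lib.MR Pool.Agent.Work.MP_51e72e_nt

open Pool.Agent.Lib.LargeSieve Pool.Agent.Lib.ANT
open scoped ComplexConjugate

lemma Unif_mulN {f : ℕ → ℕ → ℂ} (hf : ShortFam f) (a : ℕ → ℂ) (ha : ∀ N, ‖a N‖ ≤ 1) :
    ShortFam fun N n => a N * f N n := by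
  intro ε hε
  obtain ⟨H₁, h₁⟩ := hf ε hε
  refine ⟨H₁, fun H hH k => ?_⟩
  filter_upwards [h₁ H hH k] with N b X s1 s2
  simp only [← mul_sum, norm_mul]
  exact (mul_le_of_le_one_left (sum_nonneg fun _ _ => norm_nonneg _) (ha N)).trans (b X s1 s2)

theorem shortFam_periodicC {G : ℕ → ℕ → ℂ} (hG : ∀ N n, ‖G N n‖ ≤ 1) (c : ℕ → ℕ → ℂ)
    (hc : ∀ N d, ‖c N d‖ ≤ 1)
    (hinv : ∀ d : ℕ, 0 < d → ∀ᶠ N in atTop, ∀ m, G N (d * m) = c N d * G N m)
    (h : ∀ (q : ℕ) [NeZero q] (χ : DirichletCharacter ℂ q), ShortFam fun N n => G N n * χ n)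
    (r : ℕ) [NeZero r] (f : ZMod r → ℂ) : ShortFam fun N n => G N n * f n := by
  classical
  have hr : 0 < r := NeZero.pos r
  have key : ∀ d ∈ r.divisors, ShortFam fun N n =>
      if Nat.gcd n r = d then G N n * f n else 0 := by
    intro d hd
    have hd0 : 0 < d := Nat.pos_of_mem_divisors hd
    obtain ⟨q, rfl⟩ := Nat.dvd_of_mem_divisors hd
    have : NeZero q := ⟨by rintro rfl; simp at hr⟩
    have hb : ∀ (χ : DirichletCharacter ℂ q) (N n : ℕ), ‖G N n * χ n‖ ≤ 1 := by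
      intro χ N n
      rw [norm_mul]
      exact mul_le_one₀ (hG N n) (norm_nonneg _) (χ.norm_le_one _)
    let g : ZMod q → ℂ := fun a => if IsUnit a then f ((d * a.val : ℕ) : ZMod (d * q)) else 0
    have h1 : ShortFam fun N n => ∑ a : ZMod q, ∑ χ : DirichletCharacter ℂ q,
        (g a * χ a⁻¹ / q.totient) * (if d ∣ n then G N (n / d) * χ ((n / d : ℕ) : ZMod q) else 0) :=
      ShortFam.sum fun a _ => ShortFam.sum fun χ _ => ((h q χ).dil (hb χ) hd0).const_mul _
    refine (Unif_mulN h1 (fun N => c N d) fun N => hc N d).congr ?_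
    filter_upwards [hinv d hd0] with N hN n
    by_cases hdn : d ∣ n
    · obtain ⟨m, rfl⟩ := hdn
      simp only [dvd_mul_right, if_true, Nat.mul_div_cancel_left _ hd0]
      have e1 := shortOps_expand g (fun a ha => if_neg ha) ((m : ℕ) : ZMod q)
      have e2 : ∑ a : ZMod q, ∑ χ : DirichletCharacter ℂ q, (g a * χ a⁻¹ / q.totient) *
          (G N m * χ ((m : ℕ) : ZMod q)) = G N m * g ((m : ℕ) : ZMod q) := by
        rw [e1, mul_sum]
        refine sum_congr rfl fun a _ => ?_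
        rw [mul_sum]
        exact sum_congr rfl fun χ _ => by ring
      rw [e2, hN]
      have e3 : ((d * ((m : ℕ) : ZMod q).val : ℕ) : ZMod (d * q)) = ((d * m : ℕ) : ZMod (d * q)) := by
        rw [ZMod.natCast_eq_natCast_iff, ZMod.val_natCast]
        exact (Nat.mod_modEq m q).mul_left' d
      have e4 : Nat.gcd (d * m) (d * q) = d ↔ Nat.Coprime m q := by
        rw [Nat.gcd_mul_left, Nat.Coprime]
        constructor
        · intro h2
          exact Nat.eq_of_mul_eq_mul_left hd0 (by rw [h2, mul_one])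
        · intro h2
          rw [h2, mul_one]
      simp only [g, ZMod.isUnit_iff_coprime, e3, e4]
      split_ifs
      · ring
      · simp
    · have : Nat.gcd n (d * q) ≠ d := fun h2 => hdn (h2 ▸ Nat.gcd_dvd_left _ _)
      simp [hdn, this]
  refine (ShortFam.sum key).congr (Eventually.of_forall fun N n => ?_)
  rw [sum_ite_eq, if_pos (Nat.mem_divisors.2 ⟨Nat.gcd_dvd_right _ _, hr.ne'⟩)]

theorem unifC_of_shortFam (G : ℕ → ℕ → ℂ) (c : ℕ → ℕ → ℂ) (hG : ∀ N n, ‖G N n‖ ≤ 1)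
    (hc : ∀ N n, ‖c N n‖ ≤ 1)
    (hm : ∀ p : ℕ, p.Prime → ∀ᶠ N : ℕ in atTop, ∀ m, ¬ p ∣ m → G N (p * m) = c N p * G N m)
    (h : ∀ (r : ℕ) [NeZero r] (f : ZMod r → ℂ), ShortFam fun N n => G N n * f n) :
    UnifC G := by
  intro ε hε
  obtain ⟨P, R, X₀, A, Pp, hA, hmin⟩ := arcs_minor2 ε hε
  obtain ⟨Q, hQ⟩ := exists_nat_ge (21 * A / ε)
  rw [div_le_iff₀' hε] at hQ
  have Q0 : Q ≠ 0 := by
    rintro rfl
    simp at hQ
    linarith
  have h1 : ∀ᶠ L : ℕ in atTop, ∀ r ∈ Icc 1 R, ∀ b ∈ range r, ∀ k : ℕ, ∀ᶠ N : ℕ in atTop,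
      ∀ X : ℕ, N ≤ k * X → X ≤ k * N → ∑ y ∈ range X, ‖∑ j ∈ range L, G N (y + j) *
        ee (b / r * (y + j : ℕ))‖ ≤ ε / 6 * L * X := by
    simp only [eventually_all_finset]
    intro r hr b _
    have : NeZero r := ⟨by have := (mem_Icc.1 hr).1; omega⟩
    have := h r (fun c => ee (b / r * (c.val : ℕ))) (ε / 6) (by positivity)
    simp only [arcs_periodic] at this
    exact eventually_atTop.2 this
  have h2 : ∀ᶠ H : ℕ in atTop, 3 * (Q : ℝ) ≤ ε * H :=
    (tendsto_natCast_atTop_atTop.const_mul_atTop hε).eventually_ge_atTop _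
  obtain ⟨H₀, hH₀⟩ := eventually_atTop.1
    (((Nat.tendsto_div_const_atTop Q0).eventually h1).and (h2.and (eventually_ge_atTop 1)))
  refine ⟨H₀, fun H hH α k => ?_⟩
  obtain ⟨h1, h2, h3⟩ := hH₀ H hH
  have big : ∀ Y : ℕ, ∀ᶠ N : ℕ in atTop, ∀ X, N ≤ k * X → Y ≤ X := fun Y => by
    filter_upwards [eventually_gt_atTop (k * Y)] with N hN X h1
    by_contra h2
    have : k * X ≤ k * Y := Nat.mul_le_mul_left k (by omega)
    omega
  have e : ∀ N x : ℕ, ‖∑ j ∈ range H, G N (x + j) *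
      Complex.exp (2 * Real.pi * Complex.I * α * j)‖ =
      ‖∑ j ∈ range H, G N (x + j) * ee (α * (x + j : ℕ))‖ := by
    intro N x
    rw [← one_mul ‖∑ j ∈ range H, _ * Complex.exp _‖, ← norm_ee (α * x), ← norm_mul, mul_sum]
    congr 1
    refine sum_congr rfl fun j _ => ?_
    rw [Nat.cast_add, mul_add α, ee_add, mul_left_comm]
    congr 2
    unfold ee
    congr 1
    push_cast
    ring
  simp only [e]
  by_cases hcs : ∀ r : ℕ, 1 ≤ r → r ≤ R → A / H ≤ dZ (r * α)
  · filter_upwards [big X₀, big (2 * H), (eventually_all_finset P).2 fun p hp => hm p (Pp p hp)]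
      with N b1 b2 b3 X x1 _
    exact hmin H h3 α hcs X (b1 X x1) (b2 X x1) (c N) (G N) (hc N) (hG N) b3
  push Not at hcs
  obtain ⟨r, r1, r2, hr⟩ := hcs
  have r0 : (1 : ℝ) ≤ r := by exact_mod_cast r1
  set a := round (r * α) with ha
  have rz : (0 : ℤ) < r := by exact_mod_cast r1
  obtain ⟨b, hb⟩ := Int.eq_ofNat_of_zero_le (Int.emod_nonneg a rz.ne')
  have b1 : b < r := by have := Int.emod_lt_of_pos a rz; omega
  have e1 : (a : ℝ) = b + r * (a / r : ℤ) := by
    have := Int.emod_add_mul_ediv a r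
    rw [hb] at this
    exact_mod_cast this.symm
  have hβ : |α - a / r| ≤ A / H := by
    have e2 : r * α - a = r * (α - a / r) := by field_simp
    rw [dZ, ← ha, e2, abs_mul, Nat.abs_cast] at hr
    exact (le_mul_of_one_le_left (abs_nonneg _) r0).trans hr.le
  have e3 : ∀ n : ℕ, ee (α * n) = ee (b / r * n) * ee ((α - a / r) * n) := by
    intro n
    rw [← ee_add, ← ee_add_int (_ + _) (a / r * n)]
    congr 1
    rw [Int.cast_mul, Int.cast_natCast, e1]
    field_simp
    ring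
  filter_upwards [h1 r (mem_Icc.2 ⟨r1, r2⟩) b (mem_range.2 b1) (2 * k), big H] with N hX hXH X x1 x2
  have x3 := hXH X x1
  simp only [e3, ← mul_assoc]
  exact arcs_major (fun n => G N n * ee (b / r * n))
    (fun n => by rw [norm_mul, norm_ee, mul_one]; exact hG N n) hε hA h3 hβ hQ h2 x3
    (hX (X + H) (x1.trans (Nat.mul_le_mul (by omega) (by omega))) (by rw [mul_assoc]; omega))

lemma Unif_part {G : ℕ → ℕ → ℂ} (h : UnifC G) {F : ℕ → ℕ → ℝ} {u v : ℂ} (hu : ‖u‖ ≤ 1 / 2)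
    (hv : ‖v‖ ≤ 1 / 2) (e : ∀ N n, (F N n : ℂ) = u * G N n + v * conj (G N n)) :
    MP_ca0f09_nt.UnifFam F := by
  intro ε hε
  obtain ⟨H₀, hH⟩ := h ε hε
  refine ⟨H₀, fun H hH' α q => ?_⟩
  filter_upwards [hH H hH' α (q + 1), hH H hH' (-α) (q + 1)] with N h1 h2 X s1 s2
  have a1 := h1 X (by nlinarith) (by nlinarith)
  have a2 := h2 X (by nlinarith) (by nlinarith)
  have key : ∀ x : ℕ, ‖∑ j ∈ range H, ((F N (x + j) : ℝ) : ℂ) *
      Complex.exp (2 * Real.pi * Complex.I * α * j)‖ ≤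
      1 / 2 * ‖∑ j ∈ range H, G N (x + j) * Complex.exp (2 * Real.pi * Complex.I * α * j)‖ +
      1 / 2 * ‖∑ j ∈ range H, G N (x + j) *
        Complex.exp (2 * Real.pi * Complex.I * ((-α : ℝ) : ℂ) * j)‖ := by
    intro x
    have e1 : ∑ j ∈ range H, ((F N (x + j) : ℝ) : ℂ) *
        Complex.exp (2 * Real.pi * Complex.I * α * j) =
        u * ∑ j ∈ range H, G N (x + j) * Complex.exp (2 * Real.pi * Complex.I * α * j) +
        v * conj (∑ j ∈ range H, G N (x + j) *
          Complex.exp (2 * Real.pi * Complex.I * ((-α : ℝ) : ℂ) * j)) := by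
      rw [map_sum, mul_sum, mul_sum, ← sum_add_distrib]
      refine sum_congr rfl fun j _ => ?_
      have e2 : conj (2 * Real.pi * Complex.I * ((-α : ℝ) : ℂ) * j : ℂ) =
          2 * Real.pi * Complex.I * α * j := by
        simp only [map_mul, Complex.conj_ofReal, Complex.conj_I, Complex.conj_natCast,
          Complex.conj_ofNat]
        push_cast
        ring
      rw [e, map_mul, ← Complex.exp_conj, e2]
      ring
    rw [e1]
    refine (norm_add_le _ _).trans (add_le_add ?_ ?_)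
    · rw [norm_mul]
      exact mul_le_mul_of_nonneg_right hu (norm_nonneg _)
    · rw [norm_mul, Complex.norm_conj]
      exact mul_le_mul_of_nonneg_right hv (norm_nonneg _)
  refine (sum_le_sum fun x _ => key x).trans ?_
  rw [sum_add_distrib, ← mul_sum, ← mul_sum]
  linarith

theorem unifFam_re {G : ℕ → ℕ → ℂ} (h : UnifC G) :
    MP_ca0f09_nt.UnifFam fun N n => (G N n).re := by
  refine Unif_part h (u := 1 / 2) (v := 1 / 2) (by simp) (by simp) fun N n => ?_
  apply Complex.ext <;> simp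
  ring

theorem unifFam_im {G : ℕ → ℕ → ℂ} (h : UnifC G) :
    MP_ca0f09_nt.UnifFam fun N n => (G N n).im := by
  refine Unif_part h (u := -(Complex.I / 2)) (v := Complex.I / 2) (by simp) (by simp)
    fun N n => ?_
  apply Complex.ext <;> simp
  ring

end Pool.Agent.Work.MP_82fd4a_nt.Z
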