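import Pool.Agent.Work.MP_82fd4a_nt.Z.Exc
import Pool.Agent.Work.MP_82fd4a_nt.Z.Unif
import Pool.Agent.Work.MP_82fd4a_nt.Z.Det

/-! Twisted two point correlations of centred divisor sums, uniformly. -/

set_option autoImplicit false
open Filter Topology Finset

namespace Pool.Agent.Work.MP_82fd4a_nt.Z

open Pool.Agent.Lib.MR Pool.Agent.Work.MP_51e72e_nt

lemma two_abs {δ : ℕ} (hδ : 1 ≤ δ) (k : ℕ) {ε : ℝ} (hε : 0 < ε) (G c : ℕ → ℕ → ℂ)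
    (hG : ∀ N n, ‖G N n‖ ≤ 1) (hc : ∀ N n, ‖c N n‖ ≤ 1)
    (hcc : ∀ N d, d ≠ 0 → (starRingEnd ℂ) (c N d) * c N d = 1)
    (hinv : ∀ d : ℕ, 0 < d → ∀ᶠ N : ℕ in atTop, ∀ m, G N (d * m) = c N d * G N m)
    (h : ∀ (q : ℕ) [NeZero q] (χ : DirichletCharacter ℂ q), ShortFam fun N n => G N n * χ n) :
    ∀ᶠ N : ℕ in atTop, ∀ M : ℕ, N ≤ M → M ≤ k * N →
      ‖∑ n ∈ range M, (starRingEnd ℂ) (G N n) * G N (n + δ)‖ ≤ ε * N := by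
  have hU : UnifC G := unifC_of_shortFam G c hG hc
    (fun p hp => (hinv p hp.pos).mono fun N h m _ => h m)
    (fun r _ f => shortFam_periodicC hG c hc hinv h r f)
  refine transferC δ hδ (fun N n => (starRingEnd ℂ) (G N n)) G
    (fun N n => by rw [Complex.norm_conj]; exact hG N n) hG (fun d hd => ?_) (fun d hd => ?_)
    (MP_ca0f09_nt.freeFam_of_unifFam _
      (fun N n => (Complex.abs_re_le_norm _).trans (hG N n)) (unifFam_re hU))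
    (MP_ca0f09_nt.freeFam_of_unifFam _
      (fun N n => (Complex.abs_im_le_norm _).trans (hG N n)) (unifFam_im hU)) k hε
  · filter_upwards [hinv d hd] with N h m k
    rw [h m, h k, map_mul]
    have := hcc N d hd.ne'
    linear_combination ((starRingEnd ℂ) (G N m) * G N k) * this
  · filter_upwards [hinv d hd] with N h
    exact ⟨c N d, hc _ _, h⟩

lemma two_fam {η : ℝ} (hη : 0 < η) {δ : ℕ} (hδ : 1 ≤ δ) (k : ℕ) {ε : ℝ} (hε : 0 < ε)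
    (φ : ℕ → ℕ → ℝ) (h1 : ∀ N j, |φ N j| ≤ 1)
    (hφ : ∀ N j, φ N j ≠ 0 → LT.Rough ((N : ℝ) ^ η) j) (t : ℕ → ℝ)
    (ht : ∀ N, |t N| ≤ (N : ℝ) ^ 3) : ∀ᶠ N : ℕ in atTop, ∀ M : ℕ, N ≤ M → M ≤ k * N →
      ‖∑ n ∈ range M, (starRingEnd ℂ) (tw η (φ N) N (t N) n) * tw η (φ N) N (t N) (n + δ)‖
        ≤ ε * N := by
  refine two_abs hδ k hε (fun N n => tw η (φ N) N (t N) n) (fun N d => nz (t N) d)
    (fun N n => norm_tw_le _ _ _ _ _) (fun N n => norm_nz_le _ _)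
    (fun N d hd => conj_nz_mul (t N) hd) (fun d hd => ?_)
    (fun q _ χ => shortFam_tw hη φ h1 hφ t ht q χ)
  filter_upwards [(LT.tendsto_rpow hη).eventually_ge_atTop (d : ℝ)] with N hN m
  exact tw_mul (hφ N) N (t N) hd hN m

theorem two_point {η : ℝ} (hη : 0 < η) {δ : ℕ} (hδ : 1 ≤ δ) (k : ℕ) {ε : ℝ} (hε : 0 < ε) :
    ∀ᶠ N : ℕ in atTop, ∀ φ : ℕ → ℝ, (∀ j, |φ j| ≤ 1) →
      (∀ j, φ j ≠ 0 → LT.Rough ((N : ℝ) ^ η) j) → ∀ t : ℝ, |t| ≤ (N : ℝ) ^ 3 →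
      ∀ M : ℕ, N ≤ M → M ≤ k * N →
      ‖∑ n ∈ range M, (starRingEnd ℂ) (tw η φ N t n) * tw η φ N t (n + δ)‖ ≤ ε * N := by
  have ex : ∀ N : ℕ, ∃ φ : ℕ → ℝ, ∃ t : ℝ, (∀ j, |φ j| ≤ 1) ∧
      (∀ j, φ j ≠ 0 → LT.Rough ((N : ℝ) ^ η) j) ∧ |t| ≤ (N : ℝ) ^ 3 ∧
      ((∀ M : ℕ, N ≤ M → M ≤ k * N →
        ‖∑ n ∈ range M, (starRingEnd ℂ) (tw η φ N t n) * tw η φ N t (n + δ)‖ ≤ ε * N) →
      ∀ φ : ℕ → ℝ, (∀ j, |φ j| ≤ 1) →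
      (∀ j, φ j ≠ 0 → LT.Rough ((N : ℝ) ^ η) j) → ∀ t : ℝ, |t| ≤ (N : ℝ) ^ 3 →
      ∀ M : ℕ, N ≤ M → M ≤ k * N →
      ‖∑ n ∈ range M, (starRingEnd ℂ) (tw η φ N t n) * tw η φ N t (n + δ)‖ ≤ ε * N) := by
    intro N
    by_cases h : ∀ φ : ℕ → ℝ, (∀ j, |φ j| ≤ 1) →
      (∀ j, φ j ≠ 0 → LT.Rough ((N : ℝ) ^ η) j) → ∀ t : ℝ, |t| ≤ (N : ℝ) ^ 3 →
      ∀ M : ℕ, N ≤ M → M ≤ k * N →
      ‖∑ n ∈ range M, (starRingEnd ℂ) (tw η φ N t n) * tw η φ N t (n + δ)‖ ≤ ε * N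
    · exact ⟨fun _ => 0, 0, fun _ => by simp, fun _ h => absurd rfl h, by simp, fun _ => h⟩
    · push Not at h
      obtain ⟨φ, a1, a2, t, a3, M, a4, a5, a6⟩ := h
      exact ⟨φ, t, a1, a2, a3, fun h => absurd (h M a4 a5) (not_le.2 a6)⟩
  choose φ t a1 a2 a3 a4 using ex
  filter_upwards [two_fam hη hδ k hε φ a1 a2 t a3] with N hN
  exact a4 N hN

end Pool.Agent.Work.MP_82fd4a_nt.Z
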